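import Pool.Agent.H197.HLQ.Kern

/-!
# Local Jensen inequalities in an annulus
-/

namespace Pool.Agent.H197.HLQ

noncomputable section

open MeasureTheory AddCircle Complex Set
open Pool.Agent.W767.HL

lemma ze_surj {z : ℂ} (hz : ‖z‖ = 1) : ∃ x : Ci, ze x = z := by
  refine ⟨((z.arg / (2 * Real.pi) : ℝ) : Ci), ?_⟩
  rw [ze_coe]
  have h1 : 2 * (Real.pi : ℂ) * Complex.I * ((z.arg / (2 * Real.pi) : ℝ) : ℂ) = z.arg * Complex.I := by
    push_cast
    have : (Real.pi : ℂ) ≠ 0 := by exact_mod_cast Real.pi_ne_zero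
    field_simp
  rw [h1]
  have h2 := Complex.norm_mul_exp_arg_mul_I z
  rwa [hz, ofReal_one, one_mul] at h2

/-- The maximum principle in an annulus. -/
lemma max_ann {r : ℝ} (hr0 : 0 < r) {F : ℂ → ℂ} (hF : ∀ z : ℂ, z ≠ 0 → DifferentiableAt ℂ F z)
    (h1 : ∀ z : ℂ, ‖z‖ = 1 → ‖F z‖ ≤ 1) (h2 : ∀ z : ℂ, ‖z‖ = r → ‖F z‖ ≤ 1) {z : ℂ}
    (hz : r ≤ ‖z‖) (hz1 : ‖z‖ ≤ 1) : ‖F z‖ ≤ 1 := by
  rcases hz.eq_or_lt with hz' | hz'
  · exact h2 z hz'.symm
  rcases hz1.eq_or_lt with hz1' | hz1'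
  · exact h1 z hz1'
  set U : Set ℂ := {z | r < ‖z‖ ∧ ‖z‖ < 1} with hU
  have hUo : IsOpen U := (isOpen_lt continuous_const continuous_norm).inter
    (isOpen_lt continuous_norm continuous_const)
  have hUc : closure U ⊆ {z | r ≤ ‖z‖ ∧ ‖z‖ ≤ 1} := by
    refine closure_minimal (fun z hz => ⟨hz.1.le, hz.2.le⟩) ?_
    exact (isClosed_le continuous_const continuous_norm).inter
      (isClosed_le continuous_norm continuous_const)
  have hUb : Bornology.IsBounded U := by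
    refine (Metric.isBounded_ball (x := (0 : ℂ)) (r := 1)).subset fun z hz => ?_
    simpa using hz.2
  have hne : ∀ z ∈ closure U, z ≠ 0 := by
    intro z hz h0
    have := (hUc hz).1
    rw [h0, norm_zero] at this
    linarith
  have hd : DiffContOnCl ℂ F U := by
    refine DifferentiableOn.diffContOnCl fun z hz => ?_
    exact (hF z (hne z hz)).differentiableWithinAt
  refine Complex.norm_le_of_forall_mem_frontier_norm_le hUb hd (C := 1) ?_
    (subset_closure (show z ∈ U from ⟨hz', hz1'⟩))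
  intro ζ hζ
  have h3 := hUc hζ.1
  have h4 : ζ ∉ U := by
    have := hζ.2
    rwa [hUo.interior_eq] at this
  rcases h3.1.eq_or_lt with h5 | h5
  · exact h2 ζ h5.symm
  rcases h3.2.eq_or_lt with h6 | h6
  · exact h1 ζ h6
  · exact absurd ⟨h5, h6⟩ h4

/-- A Jensen type inequality in an annulus. -/
lemma ann_jensen {r : ℝ} (hr0 : 0 < r) (hr1 : r < 1) {F : ℂ → ℂ}
    (hF : ∀ z : ℂ, z ≠ 0 → DifferentiableAt ℂ F z)
    (hFr : ∀ z : ℂ, ‖z‖ = r → ‖F z‖ ≤ 1) {ψ : Ci → ℝ} (hψ : Continuous ψ)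
    (hFψ : ∀ x, ‖F (ze x)‖ * Real.exp (ψ x) ≤ 1) {a : ℝ} (ha0 : 0 ≤ a)
    (ha : ∀ z : ℂ, ‖z‖ = r → ∫ x, P z x * ψ x ∂mu ≤ a) {w : ℂ} (hw : r ≤ ‖w‖) (hw1 : ‖w‖ < 1) :
    ‖F w‖ ≤ Real.exp (-(∫ x, P w x * ψ x ∂mu) + (a / Real.log r⁻¹ + 1) * Real.log ‖w‖⁻¹) := by
  set I := ∫ x, P w x * ψ x ∂mu with hI
  have hw0 : 0 < ‖w‖ := hr0.trans_le hw
  have hlogr : 0 < Real.log r⁻¹ := Real.log_pos ((one_lt_inv₀ hr0).mpr hr1)
  have hlogw : 0 < Real.log ‖w‖⁻¹ := Real.log_pos ((one_lt_inv₀ hw0).mpr hw1)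
  set n := ⌈a / Real.log r⁻¹⌉₊ with hn
  have hn1 : a / Real.log r⁻¹ ≤ n := Nat.le_ceil _
  have hn2 : (n : ℝ) ≤ a / Real.log r⁻¹ + 1 := (Nat.ceil_lt_add_one (by positivity)).le
  have key : ∀ ε : ℝ, 0 < ε → ‖F w‖ ≤ Real.exp (-I + (a / Real.log r⁻¹ + 1) * Real.log ‖w‖⁻¹
      + 2 * ε) := by
    intro ε hε
    obtain ⟨H, hH, hHψ⟩ := exists_trig_near hψ hε
    have hcH : Continuous fun θ => (H (ze θ)).re :=
      Complex.continuous_re.comp (hH.continuous.comp continuous_ze)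
    have hpo : ∀ z : ℂ, ‖z‖ < 1 → |∫ x, P z x * ψ x ∂mu - (H z).re| ≤ ε := by
      intro z hz
      have i1 : Integrable (fun x => P z x * ψ x) mu :=
        integrable_of_cont ((continuous_P hz).mul hψ)
      have i2 : Integrable (fun x => P z x * (H (ze x)).re) mu :=
        integrable_of_cont ((continuous_P hz).mul hcH)
      rw [← poisson_re hH hz, ← integral_sub i1 i2]
      refine (abs_integral_le_integral_abs).trans ?_
      calc ∫ x, |P z x * ψ x - P z x * (H (ze x)).re| ∂mu ≤ ∫ x, P z x * ε ∂mu := by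
            refine integral_mono (integrable_of_cont (((continuous_P hz).mul hψ).sub
              ((continuous_P hz).mul hcH)).abs) (integrable_of_cont ((continuous_P hz).mul
              continuous_const)) fun x => ?_
            simp only
            rw [← mul_sub, abs_mul, abs_of_pos (P_pos hz x)]
            exact mul_le_mul_of_nonneg_left (hHψ x) (P_pos hz x).le
        _ = ε := by rw [integral_mul_const, integral_P hz, one_mul]
    set K : ℂ → ℂ := fun z => F z * Complex.exp (H z - ε) * z ^ n with hK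
    have hKd : ∀ z : ℂ, z ≠ 0 → DifferentiableAt ℂ K z := fun z hz =>
      ((hF z hz).mul ((hH z).sub_const _).cexp).mul (differentiableAt_id.pow n)
    have hKn : ∀ z, ‖K z‖ = ‖F z‖ * Real.exp ((H z).re - ε) * ‖z‖ ^ n := by
      intro z
      rw [hK]
      simp only [norm_mul, norm_pow, Complex.norm_exp, Complex.sub_re, Complex.ofReal_re]
    have hK1 : ∀ z : ℂ, ‖z‖ = 1 → ‖K z‖ ≤ 1 := by
      intro z hz
      obtain ⟨x, rfl⟩ := ze_surj hz
      rw [hKn, hz, one_pow, mul_one]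
      refine le_trans (mul_le_mul_of_nonneg_left (Real.exp_le_exp.mpr ?_) (norm_nonneg _)) (hFψ x)
      have := (abs_le.mp (hHψ x)).1
      linarith
    have hK2 : ∀ z : ℂ, ‖z‖ = r → ‖K z‖ ≤ 1 := by
      intro z hz
      rw [hKn, hz]
      have h3 : (H z).re - ε ≤ a := by
        have h4 := (abs_le.mp (hpo z (by rw [hz]; exact hr1))).1
        have h5 := ha z hz
        linarith
      have h6 : r ^ n = Real.exp (-(n * Real.log r⁻¹)) := by
        rw [Real.log_inv, mul_neg, neg_neg, Real.exp_nat_mul, Real.exp_log hr0]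
      have h7 : a ≤ n * Real.log r⁻¹ := by
        rwa [div_le_iff₀ hlogr] at hn1
      calc ‖F z‖ * Real.exp ((H z).re - ε) * r ^ n ≤ 1 * Real.exp a * r ^ n := by
            have := hFr z hz
            have h8 := Real.exp_le_exp.mpr h3
            have h9 : 0 < r ^ n := by positivity
            refine mul_le_mul_of_nonneg_right ?_ h9.le
            exact mul_le_mul this h8 (Real.exp_pos _).le zero_le_one
        _ = Real.exp (a - n * Real.log r⁻¹) := by rw [one_mul, h6, ← Real.exp_add, sub_eq_add_neg]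
        _ ≤ 1 := by
            rw [Real.exp_le_one_iff]
            linarith
    have h8 := max_ann hr0 hKd hK1 hK2 hw hw1.le
    rw [hKn] at h8
    have h9 : ‖w‖ ^ n = Real.exp (-(n * Real.log ‖w‖⁻¹)) := by
      rw [Real.log_inv, mul_neg, neg_neg, Real.exp_nat_mul, Real.exp_log hw0]
    rw [h9, mul_assoc, ← Real.exp_add] at h8
    have h10 : ‖F w‖ ≤ Real.exp (-((H w).re - ε + -(n * Real.log ‖w‖⁻¹))) := by
      rw [Real.exp_neg, ← one_div, le_div_iff₀ (Real.exp_pos _)]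
      exact h8
    refine h10.trans (Real.exp_le_exp.mpr ?_)
    have h11 := (abs_le.mp (hpo w hw1)).2
    have h12 := mul_le_mul_of_nonneg_right hn2 hlogw.le
    linarith
  have hcont : Continuous fun ε : ℝ => Real.exp (-I + (a / Real.log r⁻¹ + 1) * Real.log ‖w‖⁻¹
      + 2 * ε) := by fun_prop
  have hlim := (hcont.tendsto 0).mono_left (nhdsWithin_le_nhds (s := Set.Ioi (0 : ℝ)))
  simp only [mul_zero, add_zero] at hlim
  exact ge_of_tendsto hlim (Filter.eventually_of_mem self_mem_nhdsWithin key)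

lemma one_sub_exp_ge {D : ℝ} (h0 : 0 ≤ D) (h1 : D ≤ 1) : D / 2 ≤ 1 - Real.exp (-D) := by
  have h2 : Real.exp (-D) ≤ 1 / (1 + D) := by
    rw [Real.exp_neg, ← one_div]
    refine one_div_le_one_div_of_le (by linarith) ?_
    have := Real.add_one_le_exp D
    linarith
  have h3 : 1 / (1 + D) ≤ 1 - D / 2 := by
    rw [div_le_iff₀ (by linarith)]
    nlinarith
  linarith

/-- Linear bound in an annulus, for a function bounded by one. -/
lemma ann_arc {D₂ : ℝ} (hD₂ : 0 < D₂) (hD₂1 : D₂ ≤ 1) {F : ℂ → ℂ}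
    (hF : ∀ z : ℂ, z ≠ 0 → DifferentiableAt ℂ F z)
    (hF1 : ∀ z : ℂ, Real.exp (-D₂) ≤ ‖z‖ → ‖z‖ ≤ 1 → ‖F z‖ ≤ 1)
    {τ : ℝ} (hτ : 0 ≤ τ) {S : Set Ci} (hS : MeasurableSet S)
    (hSF : ∀ x ∈ S, ‖F (ze x)‖ ≤ Real.exp (-τ))
    {θ : Ci} {l D : ℝ} (hl : 0 < l) (hD : 0 ≤ D) (hDD : D ≤ D₂) {w : ℂ}
    (hw : ‖w‖ = Real.exp (-D)) (hwθ : ‖w - ze θ‖ + 2 * l ≤ D₂ / 4) :
    ‖F w‖ ≤ Real.exp (-(D * (4 * τ * mu.real (S ∩ arc θ l) / D₂ ^ 2 - 1))) := by
  have hr1 : Real.exp (-D₂) < 1 := by rw [Real.exp_lt_one_iff]; linarith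
  have hr0 := Real.exp_pos (-D₂)
  rcases hD.eq_or_lt with hD0 | hD0
  · rw [← hD0]
    simp only [zero_mul, neg_zero, Real.exp_zero]
    refine hF1 w ?_ ?_
    · rw [hw, Real.exp_le_exp]
      linarith
    · rw [hw, Real.exp_le_one_iff]
      linarith
  have hw1 : ‖w‖ < 1 := by rw [hw, Real.exp_lt_one_iff]; linarith
  have hrw : Real.exp (-D₂) ≤ ‖w‖ := by rw [hw, Real.exp_le_exp]; linarith
  -- the cut-off function
  set χ : Ci → ℝ := fun x => max 0 (min 1 (2 - ‖ze x - ze θ‖ / l)) with hχ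
  have hχc : Continuous χ := by
    refine continuous_const.max (continuous_const.min (continuous_const.sub ?_))
    exact (continuous_ze.sub continuous_const).norm.div_const _
  have hχ0 : ∀ x, 0 ≤ χ x := fun x => le_max_left _ _
  have hχ1 : ∀ x, χ x ≤ 1 := fun x => max_le zero_le_one (min_le_left _ _)
  have hχa : ∀ x ∈ arc θ l, χ x = 1 := by
    intro x hx
    have h1 : ‖ze x - ze θ‖ / l ≤ 1 := by
      rw [div_le_one hl]
      exact hx
    rw [hχ]
    simp only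
    rw [min_eq_left (by linarith), max_eq_right zero_le_one]
  have hχs : ∀ x, χ x = 0 ∨ ‖ze x - ze θ‖ ≤ 2 * l := by
    intro x
    by_cases h : ‖ze x - ze θ‖ ≤ 2 * l
    · exact Or.inr h
    · left
      rw [hχ]
      simp only
      refine max_eq_left ((min_le_right _ _).trans ?_)
      push Not at h
      have : 2 < ‖ze x - ze θ‖ / l := by rwa [lt_div_iff₀ hl]
      linarith
  -- the logarithm
  set g : Ci → ℝ := fun x => max ‖F (ze x)‖ (Real.exp (-τ)) with hg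
  have hFc : Continuous fun x => ‖F (ze x)‖ := by
    rw [continuous_iff_continuousAt]
    intro x
    exact (ContinuousAt.comp (hF _ (ze_ne x)).continuousAt continuous_ze.continuousAt).norm
  have hgc : Continuous g := hFc.max continuous_const
  have hg0 : ∀ x, 0 < g x := fun x => (Real.exp_pos _).trans_le (le_max_right _ _)
  have hg1 : ∀ x, g x ≤ 1 := fun x => max_le (hF1 _ (by rw [norm_ze]; exact hr1.le)
    (norm_ze x).le) (Real.exp_le_one_iff.mpr (by linarith))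
  set ψ : Ci → ℝ := fun x => χ x * (-Real.log (g x)) with hψ
  have hψc : Continuous ψ := hχc.mul ((hgc.log fun x => (hg0 x).ne').neg)
  have hlg : ∀ x, 0 ≤ -Real.log (g x) := fun x => by
    have := Real.log_nonpos (hg0 x).le (hg1 x)
    linarith
  have hψ0 : ∀ x, 0 ≤ ψ x := fun x => mul_nonneg (hχ0 x) (hlg x)
  set Ψ := ∫ x, ψ x ∂mu with hΨ
  have hΨ0 : 0 ≤ Ψ := integral_nonneg hψ0
  have hΨS : τ * mu.real (S ∩ arc θ l) ≤ Ψ := by
    have h1 : ∫ x in S ∩ arc θ l, ψ x ∂mu ≤ Ψ :=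
      setIntegral_le_integral (integrable_of_cont hψc) (Filter.Eventually.of_forall hψ0)
    refine le_trans ?_ h1
    have h2 : ∫ x in S ∩ arc θ l, τ ∂mu ≤ ∫ x in S ∩ arc θ l, ψ x ∂mu := by
      refine setIntegral_mono_on (integrable_const _) (integrable_of_cont hψc).integrableOn
        (hS.inter (measurableSet_arc θ l)) fun x hx => ?_
      rw [hψ]
      simp only
      rw [hχa x hx.2, one_mul, hg]
      simp only
      rw [max_eq_right (hSF x hx.1), Real.log_exp, neg_neg]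
    rw [setIntegral_const, smul_eq_mul, mul_comm] at h2
    exact h2
  have hFψ : ∀ x, ‖F (ze x)‖ * Real.exp (ψ x) ≤ 1 := by
    intro x
    have h1 : ψ x ≤ -Real.log (g x) := by
      rw [hψ]
      simp only
      nlinarith [hχ1 x, hlg x]
    calc ‖F (ze x)‖ * Real.exp (ψ x) ≤ g x * Real.exp (-Real.log (g x)) :=
          mul_le_mul (le_max_left _ _) (Real.exp_le_exp.mpr h1) (Real.exp_pos _).le (hg0 x).le
      _ = 1 := by
          rw [Real.exp_neg, Real.exp_log (hg0 x), mul_inv_cancel₀ (hg0 x).ne']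
  have h1D₂ := one_sub_exp_ge hD₂.le hD₂1
  have h1D := one_sub_exp_ge hD (hDD.trans hD₂1)
  have ha : ∀ z : ℂ, ‖z‖ = Real.exp (-D₂) → ∫ x, P z x * ψ x ∂mu ≤ 4 / D₂ * Ψ := by
    intro z hz
    have hz1 : ‖z‖ < 1 := by rw [hz]; exact hr1
    rw [hΨ, ← integral_const_mul]
    refine integral_mono (integrable_of_cont ((continuous_P hz1).mul hψc))
      (integrable_of_cont (continuous_const.mul hψc)) fun x => ?_
    refine mul_le_mul_of_nonneg_right ((P_le hz1 x).trans ?_) (hψ0 x)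
    rw [hz, div_le_div_iff₀ (by linarith) hD₂]
    linarith
  have hb : 8 * D / D₂ ^ 2 * Ψ ≤ ∫ x, P w x * ψ x ∂mu := by
    rw [hΨ, ← integral_const_mul]
    refine integral_mono (integrable_of_cont (continuous_const.mul hψc))
      (integrable_of_cont ((continuous_P hw1).mul hψc)) fun x => ?_
    simp only
    rcases hχs x with h2 | h2
    · have : ψ x = 0 := by rw [hψ]; simp only; rw [h2, zero_mul]
      rw [this, mul_zero, mul_zero]
    · refine mul_le_mul_of_nonneg_right ?_ (hψ0 x)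
      have h3 : ‖ze x - w‖ ≤ D₂ / 4 := by
        have h4 := norm_sub_le_norm_sub_add_norm_sub (ze x) (ze θ) w
        rw [norm_sub_rev (ze θ) w] at h4
        linarith
      refine le_trans ?_ (P_ge hw1 x h3)
      rw [hw, div_le_div_iff₀ (by positivity) (by positivity)]
      nlinarith [sq_nonneg D₂, mul_pos hD₂ hD₂]
  have hmain := ann_jensen hr0 hr1 hF (fun z hz => hF1 z hz.ge (by rw [hz]; exact hr1.le)) hψc hFψ
    (a := 4 / D₂ * Ψ) (by positivity) ha hrw hw1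
  refine hmain.trans (Real.exp_le_exp.mpr ?_)
  have hlr : Real.log (Real.exp (-D₂))⁻¹ = D₂ := by rw [← Real.exp_neg, neg_neg, Real.log_exp]
  have hlw : Real.log ‖w‖⁻¹ = D := by rw [hw, ← Real.exp_neg, neg_neg, Real.log_exp]
  rw [hlr, hlw]
  have h5 : 4 / D₂ * Ψ / D₂ = 4 * Ψ / D₂ ^ 2 := by
    field_simp
  rw [h5]
  have h6 : 8 * D / D₂ ^ 2 * Ψ = 2 * (D * (4 * Ψ / D₂ ^ 2)) := by ring
  have h7 : 4 * τ * mu.real (S ∩ arc θ l) / D₂ ^ 2 ≤ 4 * Ψ / D₂ ^ 2 := by
    refine div_le_div_of_nonneg_right ?_ (by positivity)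
    linarith
  have h8 := mul_le_mul_of_nonneg_left h7 hD
  nlinarith

lemma cosh_im (a b : ℝ) :
    (Complex.cosh ((a : ℂ) + b * Complex.I)).im = Real.sinh a * Real.sin b := by
  rw [Complex.cosh_add, Complex.cosh_mul_I, Complex.sinh_mul_I, ← Complex.ofReal_cosh,
    ← Complex.ofReal_sinh, ← Complex.ofReal_cos, ← Complex.ofReal_sin, ← Complex.ofReal_mul,
    Complex.add_im, Complex.ofReal_im, zero_add, ← mul_assoc, ← Complex.ofReal_mul,
    Complex.im_ofReal_mul, Complex.I_im, mul_one]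

/-- Spreading of smallness along a strip. -/
lemma rect_spread {D₂ D₃ : ℝ} (hD₃ : 0 < D₃) (h32 : D₃ ≤ D₂) {F : ℂ → ℂ}
    (hF : ∀ z : ℂ, z ≠ 0 → DifferentiableAt ℂ F z)
    (hF1 : ∀ z : ℂ, Real.exp (-D₂) ≤ ‖z‖ → ‖z‖ ≤ 1 → ‖F z‖ ≤ 1)
    {β u₀ U : ℝ} (hβ : 0 ≤ β) (hU : u₀ < U)
    (hleft : ∀ D : ℝ, 0 ≤ D → D ≤ D₃ →
      ‖F (Complex.exp ((u₀ + D * Complex.I) * Complex.I))‖ ≤ Real.exp (-(β * D)))
    {u D : ℝ} (hu : u₀ ≤ u) (huU : u ≤ U) (hD : 0 ≤ D) (hDD : D ≤ D₃) :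
    ‖F (Complex.exp ((u + D * Complex.I) * Complex.I))‖ ≤
      Real.exp (-(β * D₃ / Real.pi * (Real.sinh (Real.pi * (U - u) / D₃)
        * Real.sin (Real.pi * D / D₃) / Real.sinh (Real.pi * (U - u₀) / D₃)))) := by
  have hpi := Real.pi_pos
  set σ := Real.sinh (Real.pi * (U - u₀) / D₃) with hσ
  have hσ0 : 0 < σ := Real.sinh_pos_iff.mpr (div_pos (mul_pos hpi (by linarith)) hD₃)
  set γ := β * D₃ / Real.pi with hγ
  have hγ0 : 0 ≤ γ := by positivity
  set K : ℂ → ℂ := fun ζ => F (Complex.exp (ζ * Complex.I)) *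
    Complex.exp ((γ / σ : ℝ) * (Complex.I * Complex.cosh ((Real.pi / D₃ : ℝ) * (U - ζ)))) with hK
  have hKd : Differentiable ℂ K := by
    intro ζ
    refine DifferentiableAt.mul ?_ ?_
    · have h1 : DifferentiableAt ℂ (fun ζ : ℂ => Complex.exp (ζ * Complex.I)) ζ :=
        (differentiableAt_id.mul_const _).cexp
      exact DifferentiableAt.comp ζ (hF _ (Complex.exp_ne_zero _)) h1
    · refine DifferentiableAt.cexp (DifferentiableAt.const_mul (DifferentiableAt.const_mul ?_ _) _)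
      exact (DifferentiableAt.const_mul (differentiableAt_id.const_sub _) _).ccosh
  have hKn : ∀ u D : ℝ, ‖K (u + D * Complex.I)‖
      = ‖F (Complex.exp ((u + D * Complex.I) * Complex.I))‖
        * Real.exp (γ * (Real.sinh (Real.pi * (U - u) / D₃) * Real.sin (Real.pi * D / D₃) / σ)) := by
    intro u D
    rw [hK]
    simp only [norm_mul, Complex.norm_exp]
    congr 2
    have h1 : ((Real.pi / D₃ : ℝ) : ℂ) * ((U : ℂ) - (u + D * Complex.I))
        = ((Real.pi * (U - u) / D₃ : ℝ) : ℂ) + ((-(Real.pi * D / D₃) : ℝ) : ℂ) * Complex.I := by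
      push_cast
      ring
    rw [Complex.re_ofReal_mul, Complex.I_mul_re, h1, cosh_im, Real.sin_neg]
    ring
  have hen : ∀ u D : ℝ, ‖Complex.exp ((u + D * Complex.I) * Complex.I)‖ = Real.exp (-D) := by
    intro u D
    rw [Complex.norm_exp]
    congr 1
    simp
  have hF1' : ∀ u D : ℝ, 0 ≤ D → D ≤ D₃ →
      ‖F (Complex.exp ((u + D * Complex.I) * Complex.I))‖ ≤ 1 := by
    intro u D h1 h2
    refine hF1 _ ?_ ?_
    · rw [hen, Real.exp_le_exp]
      linarith
    · rw [hen, Real.exp_le_one_iff]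
      linarith
  have hb : Bornology.IsBounded (Ioo u₀ U ×ℂ Ioo 0 D₃) :=
    Bornology.IsBounded.reProdIm (Metric.isBounded_Ioo _ _) (Metric.isBounded_Ioo _ _)
  have hmax : ∀ z ∈ closure (Ioo u₀ U ×ℂ Ioo 0 D₃), ‖K z‖ ≤ 1 := by
    intro z hz
    refine Complex.norm_le_of_forall_mem_frontier_norm_le hb hKd.diffContOnCl (C := 1) ?_ hz
    intro ζ hζ
    rw [Complex.frontier_reProdIm, closure_Ioo hU.ne, closure_Ioo hD₃.ne, frontier_Ioo hU,
      frontier_Ioo hD₃] at hζ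
    obtain ⟨x, y, rfl⟩ : ∃ x y : ℝ, ζ = x + y * Complex.I := ⟨ζ.re, ζ.im, (Complex.re_add_im ζ).symm⟩
    have hre : ((x : ℂ) + y * Complex.I).re = x := by simp
    have him : ((x : ℂ) + y * Complex.I).im = y := by simp
    rw [hKn]
    simp only [mem_union, Complex.mem_reProdIm, hre, him, mem_Icc, mem_insert_iff,
      mem_singleton_iff] at hζ
    rcases hζ with ⟨h1, h2⟩ | ⟨h1, h2⟩
    · have h3 : Real.sin (Real.pi * y / D₃) = 0 := by
        rcases h2 with h2 | h2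
        · rw [h2, mul_zero, zero_div, Real.sin_zero]
        · rw [h2, mul_div_assoc, div_self hD₃.ne', mul_one, Real.sin_pi]
      rw [h3, mul_zero, zero_div, mul_zero, Real.exp_zero, mul_one]
      refine hF1' _ _ ?_ ?_
      · rcases h2 with h2 | h2 <;> rw [h2]
        exact hD₃.le
      · rcases h2 with h2 | h2 <;> rw [h2]
        exact hD₃.le
    · rcases h1 with h1 | h1
      · rw [h1, ← hσ]
        have h4 := hleft y h2.1 h2.2
        have h5 : σ * Real.sin (Real.pi * y / D₃) / σ = Real.sin (Real.pi * y / D₃) := by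
          field_simp
        rw [h5]
        have h6 : γ * Real.sin (Real.pi * y / D₃) ≤ β * y := by
          have h7 := Real.sin_le (x := Real.pi * y / D₃)
            (div_nonneg (mul_nonneg hpi.le h2.1) hD₃.le)
          refine (mul_le_mul_of_nonneg_left h7 hγ0).trans (le_of_eq ?_)
          rw [hγ]
          field_simp
        calc _ ≤ Real.exp (-(β * y)) * Real.exp (β * y) :=
              mul_le_mul h4 (Real.exp_le_exp.mpr h6) (Real.exp_pos _).le (Real.exp_pos _).le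
          _ = 1 := by rw [← Real.exp_add, neg_add_cancel, Real.exp_zero]
      · rw [h1, sub_self, mul_zero, zero_div, Real.sinh_zero, zero_mul, zero_div, mul_zero,
          Real.exp_zero, mul_one]
        exact hF1' _ _ h2.1 h2.2
  have hmem : (u : ℂ) + D * Complex.I ∈ closure (Ioo u₀ U ×ℂ Ioo 0 D₃) := by
    rw [Complex.closure_reProdIm, closure_Ioo hU.ne, closure_Ioo hD₃.ne, Complex.mem_reProdIm]
    simp only [Complex.add_re, Complex.ofReal_re, Complex.mul_re, Complex.I_re, mul_zero,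
      Complex.ofReal_im, Complex.I_im, mul_one, sub_self, add_zero, Complex.add_im, Complex.mul_im,
      zero_add, mem_Icc]
    exact ⟨⟨hu, huU⟩, hD, hDD⟩
  have h8 := hmax _ hmem
  rw [hKn] at h8
  rw [Real.exp_neg, ← one_div, le_div_iff₀ (Real.exp_pos _)]
  exact h8

lemma exp_eq_ze (x D : ℝ) : Complex.exp (((2 * Real.pi * x : ℝ) + D * Complex.I) * Complex.I)
    = ((Real.exp (-D) : ℝ) : ℂ) * ze (x : Ci) := by
  rw [ze_coe, Complex.ofReal_exp, ← Complex.exp_add]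
  congr 1
  push_cast
  have : Complex.I * Complex.I = -1 := Complex.I_mul_I
  linear_combination (D : ℂ) * this

/-- The constant in the spreading estimate. -/
def kap (q : ℝ) : ℝ := Real.sinh Real.pi / Real.sinh (Real.pi * (q + 1))

lemma kap_pos {q : ℝ} (hq : 0 ≤ q) : 0 < kap q :=
  div_pos (Real.sinh_pos_iff.mpr Real.pi_pos)
    (Real.sinh_pos_iff.mpr (mul_pos Real.pi_pos (by linarith)))

/-- Smallness on a part of a small arc spreads to a neighbouring arc, inside of the disc. -/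
lemma ann_chain {D₂ : ℝ} (hD₂ : 0 < D₂) (hD₂1 : D₂ ≤ 1) {F : ℂ → ℂ}
    (hF : ∀ z : ℂ, z ≠ 0 → DifferentiableAt ℂ F z)
    (hF1 : ∀ z : ℂ, Real.exp (-D₂) ≤ ‖z‖ → ‖z‖ ≤ 1 → ‖F z‖ ≤ 1)
    {τ : ℝ} (hτ : 0 ≤ τ) {S : Set Ci} (hS : MeasurableSet S)
    (hSF : ∀ x ∈ S, ‖F (ze x)‖ ≤ Real.exp (-τ))
    {x₀ t q : ℝ} (ht : 0 ≤ t) (hq : 0 ≤ q) (htq : 2 * Real.pi * t ≤ q * (D₂ / 8)) :
    ‖F (((Real.exp (-(D₂ / 16)) : ℝ) : ℂ) * ze ((x₀ + t : ℝ) : Ci))‖ ≤
      Real.exp (-(kap q * (D₂ / 8) / Real.pi *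
        (4 * τ * mu.real (S ∩ arc (x₀ : Ci) (D₂ / 16)) / D₂ ^ 2 - 1))) := by
  have hpi := Real.pi_pos
  set β := 4 * τ * mu.real (S ∩ arc (x₀ : Ci) (D₂ / 16)) / D₂ ^ 2 - 1 with hβ
  have hk := kap_pos hq
  rcases le_total β 0 with hβ0 | hβ0
  · have h1 : ‖F (((Real.exp (-(D₂ / 16)) : ℝ) : ℂ) * ze ((x₀ + t : ℝ) : Ci))‖ ≤ 1 := by
      have h2 : ‖((Real.exp (-(D₂ / 16)) : ℝ) : ℂ) * ze ((x₀ + t : ℝ) : Ci)‖
          = Real.exp (-(D₂ / 16)) := norm_rze (Real.exp_pos _).le _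
      refine hF1 _ ?_ ?_
      · rw [h2, Real.exp_le_exp]
        linarith
      · rw [h2, Real.exp_le_one_iff]
        linarith
    refine h1.trans (Real.one_le_exp ?_)
    have h3 : 0 ≤ kap q * (D₂ / 8) / Real.pi := by positivity
    nlinarith
  have hleft : ∀ D : ℝ, 0 ≤ D → D ≤ D₂ / 8 →
      ‖F (Complex.exp (((2 * Real.pi * x₀ : ℝ) + D * Complex.I) * Complex.I))‖
        ≤ Real.exp (-(β * D)) := by
    intro D h0 h1
    rw [exp_eq_ze, mul_comm β D]
    refine ann_arc hD₂ hD₂1 hF hF1 hτ hS hSF (θ := (x₀ : Ci)) (l := D₂ / 16) (by linarith) h0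
      (by linarith) (norm_rze (Real.exp_pos _).le _) ?_
    rw [norm_sub_rev, rze_sub (Real.exp_le_one_iff.mpr (by linarith))]
    have := Real.add_one_le_exp (-D)
    linarith
  have h := rect_spread (D₃ := D₂ / 8) (D₂ := D₂) (by linarith) (by linarith) hF hF1 hβ0
    (u₀ := 2 * Real.pi * x₀) (U := 2 * Real.pi * x₀ + (q + 1) * (D₂ / 8))
    (by nlinarith) hleft (u := 2 * Real.pi * (x₀ + t)) (D := D₂ / 16)
    (by nlinarith) (by nlinarith) (by linarith) (by linarith)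
  rw [exp_eq_ze] at h
  refine h.trans (Real.exp_le_exp.mpr ?_)
  have e1 : Real.pi * (D₂ / 16) / (D₂ / 8) = Real.pi / 2 := by
    field_simp
    norm_num
  have e2 : Real.pi * (2 * Real.pi * x₀ + (q + 1) * (D₂ / 8) - 2 * Real.pi * x₀) / (D₂ / 8)
      = Real.pi * (q + 1) := by
    field_simp
    ring
  rw [e1, e2, Real.sin_pi_div_two, mul_one]
  have e3 : Real.sinh Real.pi ≤ Real.sinh (Real.pi *
      (2 * Real.pi * x₀ + (q + 1) * (D₂ / 8) - 2 * Real.pi * (x₀ + t)) / (D₂ / 8)) := by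
    refine Real.sinh_le_sinh.mpr ?_
    rw [le_div_iff₀ (by linarith)]
    refine mul_le_mul_of_nonneg_left ?_ hpi.le
    linarith
  have hs : 0 < Real.sinh (Real.pi * (q + 1)) :=
    Real.sinh_pos_iff.mpr (mul_pos hpi (by linarith))
  have e4 : kap q ≤ Real.sinh (Real.pi *
      (2 * Real.pi * x₀ + (q + 1) * (D₂ / 8) - 2 * Real.pi * (x₀ + t)) / (D₂ / 8))
        / Real.sinh (Real.pi * (q + 1)) := div_le_div_of_nonneg_right e3 hs.le
  have e5 := mul_le_mul_of_nonneg_left e4 (show 0 ≤ β * (D₂ / 8) / Real.pi by positivity)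
  have e6 : kap q * (D₂ / 8) / Real.pi * β = β * (D₂ / 8) / Real.pi * kap q := by ring
  rw [e6]
  linarith

/-- Normalisation: division of `Gp z + Q (r / z)` by an explicit zero free function. -/
lemma exists_norm {r : ℝ} (hr0 : 0 < r) (hr1 : r < 1) {Gp Q : ℂ → ℂ} (hG : Differentiable ℂ Gp)
    (hQ : Differentiable ℂ Q) {ε : ℝ} (hε : 0 < ε) :
    ∃ F : ℂ → ℂ, (∀ z : ℂ, z ≠ 0 → DifferentiableAt ℂ F z) ∧
      (∀ z : ℂ, r ≤ ‖z‖ → ‖z‖ ≤ 1 → ‖F z‖ ≤ 1) ∧
      (∀ x : Ci, ‖F (ze x)‖ ≤ ‖Gp (ze x) + Q (r / ze x)‖) ∧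
      ∀ z : ℂ, r < ‖z‖ → ‖z‖ < 1 → ‖Gp z + Q (r / z)‖ *
        Real.exp (-(∫ x, P z x * ‖Gp (ze x)‖ ∂mu + ∫ x, P (r / z) x * ‖Q (ze x)‖ ∂mu) - 4 * ε)
          ≤ ‖F z‖ := by
  have hc1 : Continuous fun x : Ci => ‖Gp (ze x)‖ := (hG.continuous.comp continuous_ze).norm
  have hc2 : Continuous fun x : Ci => ‖Q (ze x)‖ := (hQ.continuous.comp continuous_ze).norm
  obtain ⟨H₁, hH₁, h1⟩ := exists_trig_near (hc1.add continuous_const (f := fun x : Ci => ‖Gp (ze x)‖)
    (g := fun _ => ε)) hε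
  obtain ⟨H₂, hH₂, h2⟩ := exists_trig_near (hc2.add continuous_const (f := fun x : Ci => ‖Q (ze x)‖)
    (g := fun _ => ε)) hε
  have key : ∀ {u : ℂ → ℂ} {H : ℂ → ℂ}, Differentiable ℂ u → Differentiable ℂ H →
      (∀ x : Ci, |(‖u (ze x)‖ + ε) - (H (ze x)).re| ≤ ε) → ∀ z : ℂ, ‖z‖ ≤ 1 →
      ‖u z‖ ≤ (H z).re ∧ (‖z‖ < 1 → (H z).re ≤ ∫ x, P z x * ‖u (ze x)‖ ∂mu + 2 * ε) := by
    intro u H hu hH h z hz
    have hcu : Continuous fun x : Ci => ‖u (ze x)‖ := (hu.continuous.comp continuous_ze).norm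
    have hcH : Continuous fun θ => (H (ze θ)).re :=
      Complex.continuous_re.comp (hH.continuous.comp continuous_ze)
    rcases hz.eq_or_lt with hz1 | hz1
    · obtain ⟨x, rfl⟩ := ze_surj hz1
      refine ⟨?_, fun h3 => absurd h3 (by rw [norm_ze]; exact lt_irrefl 1)⟩
      have := (abs_le.mp (h x)).2
      linarith
    · rw [← poisson_re hH hz1]
      refine ⟨(norm_poisson_le hu hz1).trans ?_, fun _ => ?_⟩
      · refine integral_mono (integrable_of_cont ((continuous_P hz1).mul hcu))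
          (integrable_of_cont ((continuous_P hz1).mul hcH)) fun x => ?_
        refine mul_le_mul_of_nonneg_left ?_ (P_pos hz1 x).le
        have := (abs_le.mp (h x)).2
        linarith
      · have i1 : Integrable (fun x => P z x * ‖u (ze x)‖) mu :=
          integrable_of_cont ((continuous_P hz1).mul hcu)
        have i2 : Integrable (fun x => P z x * (2 * ε)) mu :=
          integrable_of_cont ((continuous_P hz1).mul continuous_const)
        calc ∫ x, P z x * (H (ze x)).re ∂mu ≤ ∫ x, P z x * ‖u (ze x)‖ + P z x * (2 * ε) ∂mu := by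
              refine integral_mono (integrable_of_cont ((continuous_P hz1).mul hcH)) (i1.add i2)
                fun x => ?_
              simp only
              rw [← mul_add]
              refine mul_le_mul_of_nonneg_left ?_ (P_pos hz1 x).le
              have := (abs_le.mp (h x)).1
              linarith
          _ = _ := by rw [integral_add i1 i2, integral_mul_const, integral_P hz1, one_mul]
  have hrz : ∀ z : ℂ, r ≤ ‖z‖ → ‖(r : ℂ) / z‖ ≤ 1 := by
    intro z hz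
    rw [norm_div, Complex.norm_real, Real.norm_of_nonneg hr0.le]
    exact div_le_one_of_le₀ hz (norm_nonneg z)
  have hrz' : ∀ z : ℂ, r < ‖z‖ → ‖(r : ℂ) / z‖ < 1 := by
    intro z hz
    rw [norm_div, Complex.norm_real, Real.norm_of_nonneg hr0.le, div_lt_one (hr0.trans hz)]
    exact hz
  set F : ℂ → ℂ := fun z => (Gp z + Q (r / z)) * Complex.exp (-H₁ z - H₂ (r / z)) with hFdef
  have hFn : ∀ z, ‖F z‖ = ‖Gp z + Q (r / z)‖ * Real.exp (-(H₁ z).re - (H₂ (r / z)).re) := by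
    intro z
    rw [hFdef]
    simp only [norm_mul, Complex.norm_exp, Complex.sub_re, Complex.neg_re]
  refine ⟨F, fun z hz => ?_, fun z h3 h4 => ?_, fun x => ?_, fun z h3 h4 => ?_⟩
  · have hd : DifferentiableAt ℂ (fun z : ℂ => (r : ℂ) / z) z :=
      (differentiableAt_const _).div differentiableAt_id hz
    exact ((hG z).add ((hQ _).comp z hd)).mul
      (((hH₁ z).neg).sub ((hH₂ _).comp z hd)).cexp
  · rw [hFn]
    have h5 := (key hG hH₁ h1 z h4).1
    have h6 := (key hQ hH₂ h2 (r / z) (hrz z h3)).1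
    have h7 : ‖Gp z + Q (r / z)‖ ≤ (H₁ z).re + (H₂ (r / z)).re :=
      (norm_add_le _ _).trans (add_le_add h5 h6)
    have h8 := Real.add_one_le_exp ((H₁ z).re + (H₂ (r / z)).re)
    have h9 : -(H₁ z).re - (H₂ (r / z)).re = -((H₁ z).re + (H₂ (r / z)).re) := by ring
    rw [h9, Real.exp_neg, ← div_eq_mul_inv, div_le_one (Real.exp_pos _)]
    linarith
  · rw [hFn]
    have h5 := (key hG hH₁ h1 (ze x) (norm_ze x).le).1
    have h6 := (key hQ hH₂ h2 (r / ze x) (hrz _ (by rw [norm_ze]; exact hr1.le))).1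
    have h7 := norm_nonneg (Gp (ze x))
    have h8 := norm_nonneg (Q (r / ze x))
    refine mul_le_of_le_one_right (norm_nonneg _) (Real.exp_le_one_iff.mpr ?_)
    linarith
  · rw [hFn]
    refine mul_le_mul_of_nonneg_left (Real.exp_le_exp.mpr ?_) (norm_nonneg _)
    have h5 := (key hG hH₁ h1 z h4.le).2 h4
    have h6 := (key hQ hH₂ h2 (r / z) (hrz z h3.le)).2 (hrz' z h3)
    linarith

end

end Pool.Agent.H197.HLQ
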