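import Pool.Agent.H197.HLQ.Tools

/-!
# The linear bound, the chain bound and the strong density bound
-/

namespace Pool.Agent.H197.HLQ

noncomputable section

open MeasureTheory AddCircle Complex Set Filter Topology
open Pool.Agent.W767.HL

variable {L : ℕ} {m : ℕ → ℕ} {η₀ : ℝ} {c : ℤ → ℂ}

lemma ze_add (x y : Ci) : ze (x + y) = ze x * ze y := by
  rw [ze, ze, ze, fourier_one, fourier_one, fourier_one, AddCircle.toCircle_add, Circle.coe_mul]

/-- Representation of the points of an arc. -/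
lemma arc_repr {θ x : Ci} {l : ℝ} (hx : x ∈ arc θ l) :
    ∃ s : ℝ, |s| ≤ l / 4 ∧ x = θ + (s : Ci) := by
  obtain ⟨r, hr⟩ : ∃ r : ℝ, (r : Ci) = x - θ := QuotientAddGroup.mk_surjective (x - θ)
  set s := r - round r with hs
  have hsr : (s : Ci) = x - θ := by
    rw [hs, AddCircle.coe_sub, hr]
    have : ((round r : ℝ) : Ci) = 0 := by
      rw [AddCircle.coe_eq_zero_iff]
      exact ⟨round r, by simp⟩
    rw [this, sub_zero]
  have hs2 : |s| ≤ 1 / 2 := abs_sub_round r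
  refine ⟨s, ?_, by rw [hsr]; abel⟩
  have h1 : ‖ze (s : Ci) - 1‖ ≤ l := by
    have h2 : ze x - ze θ = ze θ * (ze (s : Ci) - 1) := by
      have : x = θ + (s : Ci) := by rw [hsr]; abel
      rw [this, ze_add]
      ring
    have h3 : ‖ze x - ze θ‖ ≤ l := hx
    rwa [h2, norm_mul, norm_ze, one_mul] at h3
  have h4 : ze (s : Ci) = Complex.exp (Complex.I * ((2 * Real.pi * s : ℝ) : ℂ)) := by
    rw [ze_coe]
    congr 1
    push_cast
    ring
  rw [h4, Complex.norm_exp_I_mul_ofReal_sub_one, Real.norm_eq_abs, abs_mul, abs_two] at h1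
  have hpi := Real.pi_pos
  have h5 : 2 * Real.pi * s / 2 = Real.pi * s := by ring
  rw [h5] at h1
  have h6 := Real.mul_abs_le_abs_sin (x := Real.pi * s) (by
    rw [abs_mul, abs_of_pos hpi]
    nlinarith)
  rw [abs_mul, abs_of_pos hpi] at h6
  have h7 : 2 / Real.pi * (Real.pi * |s|) = 2 * |s| := by
    field_simp
  rw [h7] at h6
  linarith

lemma exp_mul_v {v : ℝ} (hv : 0 < v) (X : ℝ) : Real.exp X * v = Real.exp (X + Real.log v) := by
  rw [Real.exp_add, Real.exp_log hv]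

/-- The linear bound, in the form used below. -/
lemma linA {v : ℝ} (hv : 1 ≤ v) {j N : ℕ} {y D₂ τ V l : ℝ} (hD₂ : 0 < D₂) (hD₂1 : D₂ ≤ 1)
    (hτ : 0 ≤ τ) (hl : 0 < l) (hl2 : l ≤ D₂ / 16) {θ : Ci}
    (hA : AA (((v⁻¹ : ℝ) : ℂ) • gg m c j N y) D₂ ((Real.exp (-(D₂ / 8)) : ℝ) * ze θ) ≤ 1)
    (h : 2 * D₂ * (2 + Real.log v + V)
      ≤ τ * mu.real (Sm (((v⁻¹ : ℝ) : ℂ) • gg m c j N y) τ ∩ arc θ l)) :
    θ ∈ Sm (gg m c j N (y + D₂ / 8)) V := by
  have hv0 : 0 < v := by linarith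
  set G := ((v⁻¹ : ℝ) : ℂ) • gg m c j N y with hG
  set w : ℂ := (Real.exp (-(D₂ / 8)) : ℝ) * ze θ with hw
  have h1 := lin_bound G hD₂1 hτ (measurableSet_Sm G τ) (fun x hx => hx) (θ := θ) (l := l)
    (D := D₂ / 8) hl (by linarith) (by linarith) (w := w) (norm_rze (Real.exp_pos _).le θ) (by
      rw [norm_sub_rev, hw, rze_sub (Real.exp_le_one_iff.mpr (by linarith))]
      have := Real.add_one_le_exp (-(D₂ / 8))
      linarith)
  have h2 : ev G w = ((v⁻¹ : ℝ) : ℂ) * ev (gg m c j N (y + D₂ / 8)) (ze θ) := by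
    rw [hG, ev_smul, hw, ev_gg]
  rw [h2, norm_mul, Complex.norm_real, Real.norm_of_nonneg (by positivity), inv_mul_eq_div,
    div_le_iff₀ hv0] at h1
  show ‖ev (gg m c j N (y + D₂ / 8)) (ze θ)‖ ≤ Real.exp (-V)
  refine h1.trans ?_
  rw [exp_mul_v hv0, Real.exp_le_exp]
  set μS := mu.real (Sm G τ ∩ arc θ l) with hμ
  have h3 : D₂ / 8 * (4 * τ * μS / D₂ ^ 2 - 1) = τ * μS / (2 * D₂) - D₂ / 8 := by
    field_simp
    ring
  rw [h3]
  have h4 : 2 + Real.log v + V ≤ τ * μS / (2 * D₂) := by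
    rw [le_div_iff₀ (by positivity)]
    linarith
  linarith

lemma kap_le_one {q : ℝ} (hq : 0 ≤ q) : kap q ≤ 1 := by
  unfold kap
  have hpi := Real.pi_pos
  rw [div_le_one (Real.sinh_pos_iff.mpr (mul_pos hpi (by linarith)))]
  refine Real.sinh_le_sinh.mpr ?_
  nlinarith

/-- The chain bound, in the form used below. -/
lemma chainA {v : ℝ} (hv : 1 ≤ v) {j N : ℕ} {y Ds τ V q x₀ t : ℝ} (hDs : 0 < Ds) (hDs1 : Ds ≤ 1)
    (hτ : 0 ≤ τ) (hV : 0 ≤ V) (ht : 0 ≤ t) (hq : 0 ≤ q) (htq : 2 * Real.pi * t ≤ q * (Ds / 8))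
    (hA : AA (((v⁻¹ : ℝ) : ℂ) • gg m c j N y) Ds
      ((Real.exp (-(Ds / 16)) : ℝ) * ze ((x₀ + t : ℝ) : Ci)) ≤ 1)
    (hnot : ((x₀ + t : ℝ) : Ci) ∉ Sm (gg m c j N (y + Ds / 16)) V) :
    τ * mu.real (Sm (((v⁻¹ : ℝ) : ℂ) • gg m c j N y) τ ∩ arc (x₀ : Ci) (Ds / 16))
      ≤ Ds * (2 * Real.pi / kap q) * (2 + Real.log v + V) := by
  have hv0 : 0 < v := by linarith
  have hlv := Real.log_nonneg hv
  set G := ((v⁻¹ : ℝ) : ℂ) • gg m c j N y with hG
  have h1 := chain_bound G hDs hDs1 hτ (measurableSet_Sm G τ) (fun x hx => hx) (x₀ := x₀) ht hq htq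
  set w : ℂ := (Real.exp (-(Ds / 16)) : ℝ) * ze ((x₀ + t : ℝ) : Ci) with hw
  have h2 : ev G w = ((v⁻¹ : ℝ) : ℂ) * ev (gg m c j N (y + Ds / 16)) (ze ((x₀ + t : ℝ) : Ci)) := by
    rw [hG, ev_smul, hw, ev_gg]
  rw [h2, norm_mul, Complex.norm_real, Real.norm_of_nonneg (by positivity), inv_mul_eq_div,
    div_le_iff₀ hv0] at h1
  have h3 : Real.exp (-V) < ‖ev (gg m c j N (y + Ds / 16)) (ze ((x₀ + t : ℝ) : Ci))‖ := by
    by_contra h
    push Not at h
    exact hnot h
  set μS := mu.real (Sm G τ ∩ arc (x₀ : Ci) (Ds / 16)) with hμ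
  have h4 := h3.trans_le h1
  rw [exp_mul_v hv0, Real.exp_lt_exp] at h4
  have hk := kap_pos hq
  have hk1 := kap_le_one hq
  have hpi := Real.pi_gt_three
  have h5 : kap q * (Ds / 8) / Real.pi * (4 * τ * μS / Ds ^ 2 - 1) < 1 + Real.log v + V := by
    linarith
  have h6 : kap q * (Ds / 8) / Real.pi * (4 * τ * μS / Ds ^ 2 - 1)
      = kap q / (2 * Real.pi * Ds) * (τ * μS) - kap q * Ds / (8 * Real.pi) := by
    field_simp
    ring
  rw [h6] at h5
  have h7 : kap q * Ds / (8 * Real.pi) ≤ 1 := by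
    rw [div_le_one (by positivity)]
    nlinarith
  have h8 : kap q / (2 * Real.pi * Ds) * (τ * μS) ≤ 2 + Real.log v + V := by linarith
  have h9 : Ds * (2 * Real.pi / kap q) * (2 + Real.log v + V)
      = (2 + Real.log v + V) / (kap q / (2 * Real.pi * Ds)) := by
    field_simp
  rw [h9, le_div_iff₀ (by positivity)]
  linarith

/-- The strong density bound. -/
lemma Dat.cap (d : Dat L m η₀ c) {v y : ℝ} (hy : 0 ≤ y) (hv : Big1 L v) {i N k : ℕ} (hk : 1 ≤ k)
    (hki : k ≤ i) {Ds D4 τ q : ℝ} (hDs : 0 < Ds) (hDs1 : Ds ≤ 1) (hτ : 0 ≤ τ)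
    (h : Adm m c (1 / 4) v i (y + Ds)) (hE : 2 * En m c (i + 1) ≤ En m c k) (hD4 : 0 < D4)
    (hD4l : 256 * (L + 1) * D4 ≤ 1) (hDk : Rp L η₀ * (eta m c k + Real.log v) ≤ m k * D4)
    (hq : 0 ≤ q) (hqD : Real.pi * (256 * (L + 1) * D4) ≤ q * (Ds / 8)) :
    mu.real {θ | Ds * (2 * Real.pi / kap q) * (2 + Real.log v
      + C4 L * (eta m c k + Real.log v)) < τ * mu.real
        (Sm (((v⁻¹ : ℝ) : ℂ) • gg m c i N y) τ ∩ arc θ (Ds / 16))} ≤ 26 * (L + 1) * (rt v / v) := by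
  have hv2 := hv.h2
  have hv4 := hv.h4
  have hv1 : (1 : ℝ) ≤ v := by linarith
  have hL0 : (0 : ℝ) ≤ L := Nat.cast_nonneg _
  have hη := d.eta_nonneg k
  have hC := C4_ge L
  have hpi := Real.pi_pos
  set l4 := 256 * (L + 1) * D4 with hl4
  have hl40 : 0 < l4 := by positivity
  set G' := gg m c i N (y + Ds / 16) with hG'
  set G := ((v⁻¹ : ℝ) : ℂ) • gg m c i N y with hG
  set TB := C4 L * (eta m c k + Real.log v) with hTB
  have hTB0 : 0 ≤ TB := by
    have : 0 ≤ eta m c k + Real.log v := by linarith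
    positivity
  have hadm : Adm m c (1 / 4) v i (y + Ds / 16) := by
    intro j h1 h2
    obtain ⟨h3, h4⟩ := h j h1 h2
    refine ⟨h3, le_trans ?_ h4⟩
    exact mul_le_mul_of_nonneg_left (by linarith) (Nat.cast_nonneg _)
  obtain ⟨hAi, hA0, hAm⟩ := d.AA_int hv1 hy (D₂ := Ds) (D := Ds / 16) (by linarith) (by linarith)
    (N := N) h
  set aa : Ci → ℝ := fun θ => AA G Ds ((Real.exp (-(Ds / 16)) : ℝ) * ze θ) with haa
  have hρ0 : 0 ≤ Real.exp (-D4) := (Real.exp_pos _).le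
  have hρ1 : Real.exp (-D4) < 1 := Real.exp_lt_one_iff.mpr (by linarith)
  have hD4e : 1 - Real.exp (-D4) ≤ D4 := by
    have := Real.add_one_le_exp (-D4)
    linarith
  set e3 : Set Ci := {θ | v < ∫ x, P ((Real.exp (-D4) : ℝ) * ze θ) x * ‖ev G' (ze x)‖ ∂mu} with he3
  set e4 : Set Ci := {θ | 1 / (8 * (L + 1)) < ∫ x, P ((Real.exp (-D4) : ℝ) * ze θ) x * aa x ∂mu}
    with he4
  have hm3 : mu.real e3 ≤ 2 * (rt v / v) := by
    obtain ⟨h1, h2⟩ := P_fubini hρ0 hρ1 (integrable_ev G')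
    refine (markov h1 (fun θ => integral_nonneg fun x => mul_nonneg
      (P_pos (rze_norm_lt hρ0 hρ1 θ) x).le (norm_nonneg _)) (by linarith)).trans ?_
    rw [h2, ← mul_div_assoc]
    exact div_le_div_of_nonneg_right (d.gg_l1 hv1 (by linarith) hadm) (by linarith)
  have hm4 : mu.real e4 ≤ 24 * (L + 1) * (rt v / v) := by
    obtain ⟨h1, h2⟩ := P_fubini hρ0 hρ1 hAi
    refine (markov h1 (fun θ => integral_nonneg fun x => mul_nonneg
      (P_pos (rze_norm_lt hρ0 hρ1 θ) x).le (hA0 x)) (by positivity)).trans ?_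
    rw [h2, div_le_iff₀ (by positivity)]
    refine hAm.trans (le_of_eq ?_)
    field_simp
    ring
  have hmain : ∀ θ' : Ci, Ds * (2 * Real.pi / kap q) * (2 + Real.log v + TB) < τ * mu.real
        (Sm G τ ∩ arc θ' (Ds / 16)) → θ' + ((l4 / 4 : ℝ) : Ci) ∈ e3 ∪ e4 := by
    intro θ' hθ'
    by_contra hcon
    rw [mem_union, not_or] at hcon
    set θ := θ' + ((l4 / 4 : ℝ) : Ci) with hθ
    simp only [he3, he4, mem_ofPred_eq, not_lt] at hcon
    have hwn : ‖((Real.exp (-D4) : ℝ) : ℂ) * ze θ‖ < 1 := rze_norm_lt hρ0 hρ1 θ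
    have hd1 := d.D1 (N := N) (y := y + Ds / 16) (by linarith) hv hk hki hadm hE hD4 (by nlinarith)
      hDk hcon.1
    rw [← hG', ← hTB] at hd1
    have hd2 := P_tail hρ0 hρ1 (l := l4) (by nlinarith) hD4l θ
    have hd2' : 32 * (1 - Real.exp (-D4)) / l4 ≤ 1 / (8 * (L + 1)) := by
      rw [div_le_div_iff₀ hl40 (by positivity), hl4]
      nlinarith
    -- a good point
    obtain ⟨x, hx1, hx2, hx3⟩ : ∃ x : Ci, x ∈ arc θ l4 ∧ x ∉ Sm G' TB ∧ aa x ≤ 1 := by
      by_contra hno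
      push Not at hno
      have hpt : ∀ x : Ci, (1 : ℝ) ≤ (Sm G' TB).indicator (fun _ => (1 : ℝ)) x
          + (arc θ l4)ᶜ.indicator (fun _ => (1 : ℝ)) x + aa x := by
        intro x
        have n1 : (0 : ℝ) ≤ (Sm G' TB).indicator (fun _ => (1 : ℝ)) x :=
          Set.indicator_nonneg (fun _ _ => zero_le_one) _
        have n2 : (0 : ℝ) ≤ (arc θ l4)ᶜ.indicator (fun _ => (1 : ℝ)) x :=
          Set.indicator_nonneg (fun _ _ => zero_le_one) _
        by_cases h1 : x ∈ arc θ l4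
        · by_cases h2 : x ∈ Sm G' TB
          · rw [Set.indicator_of_mem h2]
            have := hA0 x
            linarith
          · have := hno x h1 h2
            linarith
        · rw [Set.indicator_of_mem (show x ∈ (arc θ l4)ᶜ from h1)]
          have := hA0 x
          linarith
      have i1 : Integrable (fun x => P ((Real.exp (-D4) : ℝ) * ze θ) x *
          (Sm G' TB).indicator (fun _ => (1 : ℝ)) x) mu := by
        simpa using integrable_P_mul hwn ((integrable_const (1 : ℝ)).indicator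
          (measurableSet_Sm G' TB))
      have i2 : Integrable (fun x => P ((Real.exp (-D4) : ℝ) * ze θ) x *
          (arc θ l4)ᶜ.indicator (fun _ => (1 : ℝ)) x) mu := by
        simpa using integrable_P_mul hwn ((integrable_const (1 : ℝ)).indicator
          (measurableSet_arc θ l4).compl)
      have i3 : Integrable (fun x => P ((Real.exp (-D4) : ℝ) * ze θ) x * aa x) mu := by
        simpa using integrable_P_mul hwn hAi
      have hint : ∀ {S : Set Ci}, MeasurableSet S → ∫ x, P ((Real.exp (-D4) : ℝ) * ze θ) x *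
          S.indicator (fun _ => (1 : ℝ)) x ∂mu = ∫ x in S, P ((Real.exp (-D4) : ℝ) * ze θ) x ∂mu := by
        intro S hS
        rw [← integral_indicator hS]
        refine integral_congr_ae (Filter.Eventually.of_forall fun x => ?_)
        by_cases hx : x ∈ S
        · simp only [Set.indicator_of_mem hx, mul_one]
        · simp only [Set.indicator_of_notMem hx, mul_zero]
      have i12 : Integrable (fun x => P ((Real.exp (-D4) : ℝ) * ze θ) x *
          (Sm G' TB).indicator (fun _ => (1 : ℝ)) x + P ((Real.exp (-D4) : ℝ) * ze θ) x *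
          (arc θ l4)ᶜ.indicator (fun _ => (1 : ℝ)) x) mu := i1.add i2
      have hone : (1 : ℝ) ≤ ∫ x, P ((Real.exp (-D4) : ℝ) * ze θ) x *
          (Sm G' TB).indicator (fun _ => (1 : ℝ)) x + P ((Real.exp (-D4) : ℝ) * ze θ) x *
          (arc θ l4)ᶜ.indicator (fun _ => (1 : ℝ)) x
          + P ((Real.exp (-D4) : ℝ) * ze θ) x * aa x ∂mu := by
        calc (1 : ℝ) = ∫ x, P ((Real.exp (-D4) : ℝ) * ze θ) x ∂mu := (integral_P hwn).symm
          _ ≤ _ := by
            refine integral_mono (integrable_of_cont (continuous_P hwn)) (i12.add i3) fun x => ?_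
            simp only
            have := mul_le_mul_of_nonneg_left (hpt x) (P_pos hwn x).le
            linarith
      rw [integral_add i12 i3, integral_add i1 i2, hint (measurableSet_Sm G' TB),
        hint (measurableSet_arc θ l4).compl] at hone
      have h8 : 1 / (2 * ((L : ℝ) + 1)) = 4 * (1 / (8 * (L + 1))) := by
        field_simp
        norm_num
      have h9 : 0 < 1 / (8 * ((L : ℝ) + 1)) := by positivity
      rw [h8] at hd1
      linarith [hcon.2]
    obtain ⟨s, hs1, hs2⟩ := arc_repr hx1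
    obtain ⟨x₀, rfl⟩ : ∃ r : ℝ, (r : Ci) = θ' := QuotientAddGroup.mk_surjective θ'
    have hxe : x = ((x₀ + (l4 / 4 + s) : ℝ) : Ci) := by
      rw [hs2, hθ, AddCircle.coe_add, AddCircle.coe_add, add_assoc]
    have habs := abs_le.mp hs1
    have h2pi : 2 * Real.pi * (l4 / 4 + s) ≤ q * (Ds / 8) := by
      refine le_trans ?_ hqD
      have : l4 / 4 + s ≤ l4 / 2 := by linarith
      have := mul_le_mul_of_nonneg_left this (show 0 ≤ 2 * Real.pi by positivity)
      linarith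
    have hch := chainA (m := m) (c := c) hv1 (j := i) (N := N) (y := y) (q := q) (x₀ := x₀)
      (t := l4 / 4 + s) hDs hDs1 hτ hTB0
      (by linarith) hq h2pi (by rw [← hxe]; exact hx3) (by rw [← hxe]; exact hx2)
    linarith
  have hsub : {θ | Ds * (2 * Real.pi / kap q) * (2 + Real.log v + TB) < τ * mu.real
        (Sm G τ ∩ arc θ (Ds / 16))} ⊆ (fun θ => θ + ((l4 / 4 : ℝ) : Ci)) ⁻¹' (e3 ∪ e4) :=
    fun θ hθ => hmain θ hθ
  refine (measureReal_mono hsub).trans ?_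
  have htr : mu.real ((fun θ => θ + ((l4 / 4 : ℝ) : Ci)) ⁻¹' (e3 ∪ e4)) = mu.real (e3 ∪ e4) := by
    unfold Measure.real
    rw [measure_preimage_add_right]
  rw [htr]
  refine (measureReal_union_le _ _).trans ?_
  have : 0 ≤ rt v / v := div_nonneg (rt_nonneg v) (by linarith)
  nlinarith

end

end Pool.Agent.H197.HLQ
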