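import Pool.Agent.H197.HLQ.Cap

/-!
# The two main cases of the induction step
-/

namespace Pool.Agent.H197.HLQ

noncomputable section

open MeasureTheory AddCircle Complex Set Filter Topology
open Pool.Agent.W767.HL

variable {L : ℕ} {m : ℕ → ℕ} {η₀ : ℝ} {c : ℤ → ℂ}

lemma avg_gen {Φ : Ci → ℝ} (hΦ : Integrable Φ mu) (h0 : ∀ θ, 0 ≤ Φ θ) {C₀ : ℝ}
    (hC₀ : ∀ θ, Φ θ ≤ C₀) (hC : 0 ≤ C₀) {ε₁ ε₂ ρ K T6 v A p : ℝ} {W : ℝ → Set Ci}
    (hW : ∀ u, rt v ≤ u → u ≤ T6 → mu.real (W u) ≤ A * u ^ (-p)) {B1 B2 : Set Ci}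
    (hB1 : mu.real B1 ≤ ε₁) (hB2 : mu.real B2 ≤ ε₂) (hcap : ∀ θ, θ ∉ B1 → Φ θ ≤ ρ)
    (hlin : ∀ V, 0 ≤ V → ∀ θ, θ ∉ B2 → θ ∉ W V → Φ θ ≤ K / T6 * (2 + Real.log v + V))
    (hv : 2 + Real.log v ≤ rt v) (hT6 : 0 < T6) (hK : 1 ≤ K) (hρ0 : 0 ≤ ρ) (hρ1 : ρ ≤ 1)
    (hA : 0 ≤ A) (hp1 : p < 1) :
    ∫ θ, Φ θ ∂mu ≤ C₀ * (ε₁ + ε₂) + 2 * K * (rt v / T6)
      + A * (T6 / (2 * K)) ^ (-p) * (ρ ^ (1 - p) / (1 - p)) := by
  have hr := rt_nonneg v
  have hK0 : 0 < K := by linarith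
  have hε1 : 0 ≤ ε₁ := measureReal_nonneg.trans hB1
  have hε2 : 0 ≤ ε₂ := measureReal_nonneg.trans hB2
  refine layer hΦ h0 hC₀ hC (by linarith) (by positivity) hρ0 (by positivity) hp1 ?_ ?_
  · intro x hx hx0 hxρ
    set V := x * (T6 / (2 * K)) with hV
    have hVr : rt v ≤ V := by
      rw [hV]
      have h1 : 2 * K * (rt v / T6) * (T6 / (2 * K)) = rt v := by field_simp
      rw [← h1]
      exact mul_le_mul_of_nonneg_right hx0 (by positivity)
    have hVT : V ≤ T6 := by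
      have h1 : x * (T6 / (2 * K)) = T6 * (x / (2 * K)) := by ring
      rw [hV, h1]
      refine mul_le_of_le_one_right hT6.le ?_
      rw [div_le_one (by positivity)]
      linarith
    have hsub : {θ | x < Φ θ} ⊆ B2 ∪ W V := by
      intro θ hθ
      by_contra hcon
      rw [mem_union, not_or] at hcon
      have h1 := hlin V (by linarith) θ hcon.1 hcon.2
      have h2 : K / T6 * (2 + Real.log v + V) ≤ x := by
        have h3 : K / T6 * (2 + Real.log v + V) ≤ K / T6 * (2 * V) :=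
          mul_le_mul_of_nonneg_left (by linarith) (by positivity)
        refine h3.trans (le_of_eq ?_)
        rw [hV]
        field_simp
      have h4 : x < Φ θ := hθ
      linarith
    refine (measureReal_mono hsub).trans ((measureReal_union_le _ _).trans ?_)
    have h5 := hW V hVr hVT
    have h6 : V ^ (-p) = (T6 / (2 * K)) ^ (-p) * x ^ (-p) := by
      rw [hV, mul_comm, Real.mul_rpow (by positivity) hx.le]
    rw [h6, ← mul_assoc] at h5
    linarith
  · intro x hx hρx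
    have hsub : {θ | x < Φ θ} ⊆ B1 := by
      intro θ hθ
      by_contra hcon
      have h1 := hcap θ hcon
      have h4 : x < Φ θ := hθ
      linarith
    exact (measureReal_mono hsub).trans (by linarith)

lemma integrable_kern {k : Ci → Ci → ℝ} (hk : Measurable (Function.uncurry k))
    (hk0 : ∀ θ x, 0 ≤ k θ x) {C : ℝ} (hC : ∀ θ x, k θ x ≤ C) (E : Set Ci) :
    Integrable (fun θ => ∫ x in E, k θ x ∂mu) mu := by
  have hprod : Integrable (Function.uncurry k) (mu.prod (mu.restrict E)) := by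
    refine Integrable.of_bound hk.aestronglyMeasurable C (Filter.Eventually.of_forall fun p => ?_)
    rw [Function.uncurry, Real.norm_of_nonneg (hk0 _ _)]
    exact hC _ _
  exact hprod.integral_prod_left

lemma integrable_arcm (E : Set Ci) (l : ℝ) :
    Integrable (fun θ => mu.real (E ∩ arc θ l)) mu := by
  have h := integrable_kern (k := fun θ x => (arc θ l).indicator (fun _ => (1 : ℝ)) x)
    (measurable_arcind l) (fun θ x => Set.indicator_nonneg (fun _ _ => zero_le_one) _)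
    (C := 1) (fun θ x => by
      by_cases hx : x ∈ arc θ l
      · rw [Set.indicator_of_mem hx]
      · rw [Set.indicator_of_notMem hx]; exact zero_le_one) E
  refine h.congr (Filter.Eventually.of_forall fun θ => ?_)
  simp only
  rw [integral_indicator (measurableSet_arc θ l), Measure.restrict_restrict
    (measurableSet_arc θ l), setIntegral_const, smul_eq_mul, mul_one, Set.inter_comm]

lemma integrable_Parc {ρ : ℝ} (h0 : 0 ≤ ρ) (h1 : ρ < 1) (E : Set Ci) (l : ℝ) :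
    Integrable (fun θ => ∫ x in E ∩ arc θ l, P ((ρ : ℂ) * ze θ) x ∂mu) mu := by
  have hind : ∀ θ x : Ci, P ((ρ : ℂ) * ze θ) x * (arc θ l).indicator (fun _ => (1 : ℝ)) x
      = (arc θ l).indicator (P ((ρ : ℂ) * ze θ)) x := by
    intro θ x
    by_cases hx : x ∈ arc θ l
    · rw [Set.indicator_of_mem hx, Set.indicator_of_mem hx, mul_one]
    · rw [Set.indicator_of_notMem hx, Set.indicator_of_notMem hx, mul_zero]
  have h := integrable_kern (k := fun θ x => P ((ρ : ℂ) * ze θ) x *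
      (arc θ l).indicator (fun _ => (1 : ℝ)) x)
    ((continuous_P2 h0 h1).measurable.mul (measurable_arcind l))
    (fun θ x => mul_nonneg (P_pos (rze_norm_lt h0 h1 θ) x).le
      (Set.indicator_nonneg (fun _ _ => zero_le_one) _)) (C := 2 / (1 - ρ)) (fun θ x => by
      rw [hind]
      have h2 := P_le (rze_norm_lt h0 h1 θ) x
      rw [norm_rze h0] at h2
      by_cases hx : x ∈ arc θ l
      · rw [Set.indicator_of_mem hx]
        exact h2
      · rw [Set.indicator_of_notMem hx]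
        exact div_nonneg two_pos.le (by linarith)) E
  refine h.congr (Filter.Eventually.of_forall fun θ => ?_)
  simp only [hind]
  rw [integral_indicator (measurableSet_arc θ l), Measure.restrict_restrict
    (measurableSet_arc θ l), Set.inter_comm]

/-- The constant of case A. -/
def K1 (L : ℕ) : ℝ := 131072 * (L + 1)

lemma setInt_mono {w : ℂ} (hw : ‖w‖ < 1) {S T : Set Ci} (hST : S ⊆ T) :
    ∫ x in S, P w x ∂mu ≤ ∫ x in T, P w x ∂mu :=
  setIntegral_mono_set (integrable_of_cont (continuous_P hw)).integrableOn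
    (Filter.Eventually.of_forall fun x => (P_pos hw x).le) (Filter.Eventually.of_forall hST)

/-- Case A of the induction step. -/
lemma Dat.caseA (d : Dat L m η₀ c) {v y : ℝ} (hy : 0 ≤ y) (hv : Big1 L v)
    (hv2 : 2 + Real.log v ≤ rt v) {i N k j : ℕ} (hk : 1 ≤ k) (hki : k ≤ i) (hji : j ≤ i)
    (h : Adm m c (1 / 4) v i y) (hE : 2 * En m c (i + 1) ≤ En m c k)
    (hkv : C4 L * (eta m c k + Real.log v) ≤ v) {Y : ℝ} (hY : 0 < Y)
    (hYk : Rp L η₀ * (eta m c k + Real.log v) ≤ m k * Y) (hY1 : 4096 * (L + 1) * Y ≤ 1)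
    (hj : Adm m c (1 / 4) v j (y + 4096 * (L + 1) * Y)) {T6 : ℝ} (hT6 : 0 < T6) (hT6v : T6 ≤ v)
    (hEj : En m c (j + 1) ≤ Real.exp (-2 * T6)) {A p : ℝ} (hA : 0 ≤ A) (hp1 : p < 1)
    (hIH : ∀ u, rt v ≤ u → u ≤ T6 →
      mu.real (Sm (gg m c j N (y + 4096 * (L + 1) * Y / 8)) u) ≤ A * u ^ (-p)) :
    (1 - 1 / (8 * (L + 1))) * (mu.real (Sm (gg m c i N y) v)
        - 2 * Real.sqrt v * Real.exp (-(T6 / 2)))
      ≤ 5 * (rt v / v) + 2 * K1 L * (rt v / T6)
        + A * (T6 / (2 * K1 L)) ^ (-p) * ((1 - 1 / (2 * (L + 1))) ^ (1 - p) / (1 - p)) := by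
  have hv22 := hv.h2
  have hv4 := hv.h4
  have hv1 : (1 : ℝ) ≤ v := by linarith
  have hL0 : (0 : ℝ) ≤ L := Nat.cast_nonneg _
  set D₂ := 4096 * (L + 1) * Y with hD₂
  set l := 256 * (L + 1) * Y with hl
  have hl0 : 0 < l := by positivity
  have hlD : l = D₂ / 16 := by rw [hl, hD₂]; ring
  have hD₂0 : 0 < D₂ := by positivity
  have hY1' : Y ≤ 1 := by nlinarith
  have hl1 : l ≤ 1 := by linarith
  set S := Sm (((v⁻¹ : ℝ) : ℂ) • gg m c j N y) (T6 / 4) with hS
  set E := Sm (gg m c i N y) v ∩ S with hEdef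
  have hEm : MeasurableSet E := (measurableSet_Sm _ _).inter (measurableSet_Sm _ _)
  have hρ0 : 0 ≤ Real.exp (-Y) := (Real.exp_pos _).le
  have hρ1 : Real.exp (-Y) < 1 := Real.exp_lt_one_iff.mpr (by linarith)
  have hYe : 1 - Real.exp (-Y) ≤ Y := by
    have := Real.add_one_le_exp (-Y)
    linarith
  have hYe2 := one_sub_exp_ge hY.le hY1'
  set Φ : Ci → ℝ := fun θ => ∫ x in E ∩ arc θ l, P ((Real.exp (-Y) : ℝ) * ze θ) x ∂mu with hΦ
  have hwn : ∀ θ, ‖((Real.exp (-Y) : ℝ) : ℂ) * ze θ‖ < 1 := fun θ => rze_norm_lt hρ0 hρ1 θ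
  have hΦi : Integrable Φ mu := integrable_Parc hρ0 hρ1 E l
  have hΦ0 : ∀ θ, 0 ≤ Φ θ := fun θ => integral_nonneg fun x => (P_pos (hwn θ) x).le
  have hΦ1 : ∀ θ, Φ θ ≤ 1 := fun θ =>
    (setIntegral_le_integral (integrable_of_cont (continuous_P (hwn θ)))
      (Filter.Eventually.of_forall fun x => (P_pos (hwn θ) x).le)).trans (integral_P (hwn θ)).le
  have havg : (1 - 1 / (8 * (L + 1))) * mu.real E ≤ ∫ θ, Φ θ ∂mu := by
    refine P_avg hρ0 hρ1 (by nlinarith) hl1 ?_ hEm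
    have : 32 * (1 - Real.exp (-Y)) / l ≤ 1 / (8 * (L + 1)) := by
      rw [div_le_div_iff₀ hl0 (by positivity), hl]
      nlinarith
    linarith
  set B1 : Set Ci := {θ | v < ∫ x, P ((Real.exp (-Y) : ℝ) * ze θ) x *
    ‖ev (gg m c i N y) (ze x)‖ ∂mu} with hB1
  set B2 : Set Ci := {θ | 1 < AA (((v⁻¹ : ℝ) : ℂ) • gg m c j N y) D₂
    ((Real.exp (-(D₂ / 8)) : ℝ) * ze θ)} with hB2
  have hm1 : mu.real B1 ≤ 2 * (rt v / v) := by
    obtain ⟨h1, h2⟩ := P_fubini hρ0 hρ1 (integrable_ev (gg m c i N y))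
    refine (markov h1 (fun θ => integral_nonneg fun x => mul_nonneg
      (P_pos (hwn θ) x).le (norm_nonneg _)) (by linarith)).trans ?_
    rw [h2, ← mul_div_assoc]
    exact div_le_div_of_nonneg_right (d.gg_l1 hv1 hy h) (by linarith)
  have hm2 : mu.real B2 ≤ 3 * (rt v / v) := by
    have := d.AA_mean hv1 hy (D₂ := D₂) (D := D₂ / 8) (by linarith) (by linarith) (N := N) hj
    exact this.trans (le_of_eq (mul_div_assoc _ _ _))
  have hK1 : 1 ≤ K1 L := by
    unfold K1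
    nlinarith
  have hδ : 0 ≤ 1 - 1 / (2 * ((L : ℝ) + 1)) := by
    have : 1 / (2 * ((L : ℝ) + 1)) ≤ 1 := by
      rw [div_le_one (by positivity)]
      linarith
    linarith
  have hgen := avg_gen hΦi hΦ0 hΦ1 zero_le_one (ε₁ := 2 * (rt v / v)) (ε₂ := 3 * (rt v / v))
    (ρ := 1 - 1 / (2 * (L + 1))) (K := K1 L) (T6 := T6) (v := v) (A := A) (p := p)
    (W := fun u => Sm (gg m c j N (y + D₂ / 8)) u) hIH hm1 hm2 ?_ ?_ hv2 hT6 hK1 hδ
    (by
      have : 0 ≤ 1 / (2 * ((L : ℝ) + 1)) := by positivity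
      linarith) hA hp1
  · have htr := d.transfer hv22 hji h (N := N) hT6v hT6.le hEj
    rw [← hS] at htr
    have h1 : mu.real (Sm (gg m c i N y) v) ≤ mu.real E
        + mu.real (Sm (gg m c i N y) v \ S) := by
      have := measureReal_union_le (μ := mu) E (Sm (gg m c i N y) v \ S)
      rwa [hEdef, Set.inter_union_sdiff] at this
    have h2 : mu.real (Sm (gg m c i N y) v) - 2 * Real.sqrt v * Real.exp (-(T6 / 2))
        ≤ mu.real E := by linarith
    have h3 : 0 ≤ 1 - 1 / (8 * ((L : ℝ) + 1)) := by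
      have : 1 / (8 * ((L : ℝ) + 1)) ≤ 1 := by
        rw [div_le_one (by positivity)]
        linarith
      linarith
    have h4 := mul_le_mul_of_nonneg_left h2 h3
    linarith
  · intro θ hθ
    simp only [hB1, mem_ofPred_eq, not_lt] at hθ
    have h1 := d.D1 hy hv hk hki h hE hY hY1' hYk hθ
    refine le_trans (setInt_mono (hwn θ) ?_) h1
    intro x hx
    have h2 : ‖ev (gg m c i N y) (ze x)‖ ≤ Real.exp (-v) := hx.1.1
    exact h2.trans (Real.exp_le_exp.mpr (by linarith))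
  · intro V hV θ hθ hθ2
    simp only [hB2, mem_ofPred_eq, not_lt] at hθ
    have h1 : T6 / 4 * mu.real (S ∩ arc θ l) ≤ 2 * D₂ * (2 + Real.log v + V) := by
      by_contra hcon
      push Not at hcon
      exact hθ2 (linA hv1 hD₂0 hY1 (by linarith) hl0 hlD.le hθ hcon.le)
    have h2 : Φ θ ≤ 4 / Y * mu.real (S ∩ arc θ l) := by
      calc Φ θ ≤ ∫ x in S ∩ arc θ l, P ((Real.exp (-Y) : ℝ) * ze θ) x ∂mu :=
            setInt_mono (hwn θ) fun x hx => ⟨hx.1.2, hx.2⟩
        _ ≤ ∫ x in S ∩ arc θ l, 4 / Y ∂mu := by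
            refine setIntegral_mono_on (integrable_of_cont (continuous_P (hwn θ))).integrableOn
              (integrable_const _) ((measurableSet_Sm _ _).inter (measurableSet_arc θ l))
              fun x _ => ?_
            refine (P_le (hwn θ) x).trans ?_
            rw [norm_rze hρ0, div_le_div_iff₀ (by linarith) hY]
            linarith
        _ = _ := by rw [setIntegral_const, smul_eq_mul, mul_comm]
    refine h2.trans ?_
    have h3 : 4 / Y * mu.real (S ∩ arc θ l)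
        = 16 / (Y * T6) * (T6 / 4 * mu.real (S ∩ arc θ l)) := by
      field_simp
      ring
    have h4 : K1 L / T6 * (2 + Real.log v + V)
        = 16 / (Y * T6) * (2 * D₂ * (2 + Real.log v + V)) := by
      rw [hD₂, K1]
      field_simp
      ring
    rw [h3, h4]
    exact mul_le_mul_of_nonneg_left h1 (by positivity)

/-- Measure of a set with small local densities. -/
lemma small_avg {E : Set Ci} (hE : MeasurableSet E) {l : ℝ} (hl : 0 < l) (hl1 : l ≤ 1) {R ε : ℝ}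
    (hR : 0 ≤ R) (hbad : mu.real {θ | R < mu.real (E ∩ arc θ l)} ≤ ε) :
    mu.real E ≤ 256 / l * R + 1024 * ε := by
  have hε : 0 ≤ ε := measureReal_nonneg.trans hbad
  have h1 := layer (integrable_arcm E l) (fun θ => measureReal_nonneg) (C₀ := 4 * l) (ε := ε)
    (x₀ := R) (ρ := R) (B := 0) (p := 0) (fun θ =>
      (measureReal_mono Set.inter_subset_right).trans (arc_le hl hl1 θ)) (by positivity) hε hR hR
    le_rfl zero_lt_one (fun x _ h1 h2 => absurd h2 (not_lt.mpr h1)) (fun x _ hx =>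
      (measureReal_mono fun θ (hθ : x < mu.real (E ∩ arc θ l)) => lt_of_le_of_lt hx hθ).trans hbad)
  rw [zero_mul, add_zero] at h1
  have h2 := arc_avg hl hl1 hE
  have h3 : l / 256 * mu.real E ≤ 4 * l * ε + R := h2.trans h1
  have h4 : 256 / l * R + 1024 * ε = (4 * l * ε + R) * (256 / l) := by
    field_simp
    ring
  rw [h4, ← div_le_iff₀ (by positivity)]
  refine le_trans (le_of_eq ?_) h3
  field_simp

/-- The cap of case B. -/
def RB (m : ℕ → ℕ) (c : ℤ → ℂ) (L : ℕ) (v T q : ℝ) (k : ℕ) : ℝ :=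
  16384 * (2 * Real.pi / kap q) * (2 + Real.log v + C4 L * (eta m c k + Real.log v)) / T

/-- Case B of the induction step, when the intermediate level is very low. -/
lemma Dat.caseB1 (d : Dat L m η₀ c) {v y : ℝ} (hy : 0 ≤ y) (hv : Big1 L v) {i N k j : ℕ}
    (hk : 1 ≤ k) (hkj : k ≤ j) (hji : j ≤ i) (h : Adm m c (1 / 4) v i y) {Ds D4 T q : ℝ}
    (hDs : 0 < Ds) (hDs1 : Ds ≤ 1) (hT : 0 < T) (hTv : T ≤ v)
    (hj : Adm m c (1 / 4) v j (y + Ds)) (hE : 2 * En m c (j + 1) ≤ En m c k)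
    (hET : En m c (j + 1) ≤ Real.exp (-2 * T)) (hD4 : 0 < D4)
    (hD4l : 256 * (L + 1) * D4 ≤ 1) (hDk : Rp L η₀ * (eta m c k + Real.log v) ≤ m k * D4)
    (hq : 0 ≤ q) (hqD : Real.pi * (256 * (L + 1) * D4) ≤ q * (Ds / 8)) :
    mu.real (Sm (gg m c i N y) v) ≤ 2 * Real.sqrt v * Real.exp (-(T / 2)) + RB m c L v T q k
      + 1024 * (26 * (L + 1) * (rt v / v)) := by
  have hv22 := hv.h2
  have hv4 := hv.h4
  have hpi := Real.pi_pos
  have hkp := kap_pos hq
  have hη := d.eta_nonneg k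
  have hC := C4_ge L
  set S := Sm (((v⁻¹ : ℝ) : ℂ) • gg m c j N y) (T / 4) with hS
  have hcap := d.cap hy hv (N := N) hk hkj hDs hDs1 (τ := T / 4) (by linarith) hj hE hD4 hD4l hDk
    hq hqD
  rw [← hS] at hcap
  have hX : 0 ≤ 2 + Real.log v + C4 L * (eta m c k + Real.log v) := by
    have : 0 ≤ C4 L * (eta m c k + Real.log v) := mul_nonneg (by linarith) (by linarith)
    linarith
  set X := 2 + Real.log v + C4 L * (eta m c k + Real.log v) with hXdef
  set E := Sm (gg m c i N y) v ∩ S with hEdef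
  have h1 := small_avg (E := E) ((measurableSet_Sm _ _).inter (measurableSet_Sm _ _))
    (l := Ds / 16) (by linarith) (by linarith)
    (R := Ds * (2 * Real.pi / kap q) * X * (4 / T)) (by positivity) (ε := 26 * (L + 1) * (rt v / v))
    (by
      refine (measureReal_mono ?_).trans hcap
      intro θ hθ
      have h2 : Ds * (2 * Real.pi / kap q) * X * (4 / T) < mu.real (E ∩ arc θ (Ds / 16)) := hθ
      have h3 : mu.real (E ∩ arc θ (Ds / 16)) ≤ mu.real (S ∩ arc θ (Ds / 16)) :=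
        measureReal_mono (Set.inter_subset_inter_left _ Set.inter_subset_right)
      show Ds * (2 * Real.pi / kap q) * X < T / 4 * mu.real (S ∩ arc θ (Ds / 16))
      have h4 := h2.trans_le h3
      have h5 := mul_lt_mul_of_pos_left h4 (show 0 < T / 4 by linarith)
      refine lt_of_eq_of_lt ?_ h5
      field_simp)
  have htr := d.transfer hv22 hji h (N := N) hTv hT.le hET
  rw [← hS] at htr
  have h2 : mu.real (Sm (gg m c i N y) v) ≤ mu.real E + mu.real (Sm (gg m c i N y) v \ S) := by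
    have := measureReal_union_le (μ := mu) E (Sm (gg m c i N y) v \ S)
    rwa [hEdef, Set.inter_union_sdiff] at this
  have h3 : 256 / (Ds / 16) * (Ds * (2 * Real.pi / kap q) * X * (4 / T)) = RB m c L v T q k := by
    rw [RB, ← hXdef]
    field_simp
    ring
  rw [h3] at h1
  linarith

/-- The constant of case B. -/
def K2 (D₂ Ds : ℝ) : ℝ := 32768 * (D₂ / Ds)

/-- Case B of the induction step. -/
lemma Dat.caseB2 (d : Dat L m η₀ c) {v y : ℝ} (hy : 0 ≤ y) (hv : Big1 L v)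
    (hv2 : 2 + Real.log v ≤ rt v) {i N k j j6 : ℕ}
    (hk : 1 ≤ k) (hkj : k ≤ j) (hji : j ≤ i) (h : Adm m c (1 / 4) v i y) {Ds D4 T q : ℝ}
    (hDs : 0 < Ds) (hT : 0 < T) (hTv : T ≤ v)
    (hj : Adm m c (1 / 4) v j (y + Ds)) (hE : 2 * En m c (j + 1) ≤ En m c k)
    (hET : En m c (j + 1) ≤ Real.exp (-2 * T)) (hD4 : 0 < D4)
    (hD4l : 256 * (L + 1) * D4 ≤ 1) (hDk : Rp L η₀ * (eta m c k + Real.log v) ≤ m k * D4)
    (hq : 0 ≤ q) (hqD : Real.pi * (256 * (L + 1) * D4) ≤ q * (Ds / 8))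
    {D₂ : ℝ} (hDsD : Ds ≤ D₂) (hD₂1 : D₂ ≤ 1) (hj6i : j6 ≤ i)
    (hj6 : Adm m c (1 / 4) v j6 (y + D₂)) {T6 : ℝ} (hT6 : 0 < T6) (hT6v : T6 ≤ v)
    (hE6 : En m c (j6 + 1) ≤ Real.exp (-2 * T6)) (hRB : RB m c L v T q k ≤ 1)
    {A p : ℝ} (hA : 0 ≤ A) (hp1 : p < 1)
    (hIH : ∀ u, rt v ≤ u → u ≤ T6 →
      mu.real (Sm (gg m c j6 N (y + D₂ / 8)) u) ≤ A * u ^ (-p)) :
    mu.real (Sm (gg m c i N y) v) ≤ 2 * Real.sqrt v * Real.exp (-(T / 2))
      + 2 * Real.sqrt v * Real.exp (-(T6 / 2))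
      + 1024 * (26 * (L + 1) * (rt v / v) + 3 * (rt v / v)) + 2 * K2 D₂ Ds * (rt v / T6)
        + A * (T6 / (2 * K2 D₂ Ds)) ^ (-p) * (RB m c L v T q k ^ (1 - p) / (1 - p)) := by
  have hv22 := hv.h2
  have hv4 := hv.h4
  have hv1 : (1 : ℝ) ≤ v := by linarith
  have hpi := Real.pi_pos
  have hkp := kap_pos hq
  have hη := d.eta_nonneg k
  have hC := C4_ge L
  have hDs1 : Ds ≤ 1 := hDsD.trans hD₂1
  have hD₂0 : 0 < D₂ := hDs.trans_le hDsD
  set S := Sm (((v⁻¹ : ℝ) : ℂ) • gg m c j N y) (T / 4) with hS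
  set S6 := Sm (((v⁻¹ : ℝ) : ℂ) • gg m c j6 N y) (T6 / 4) with hS6
  have hcap := d.cap hy hv (N := N) hk hkj hDs hDs1 (τ := T / 4) (by linarith) hj hE hD4 hD4l hDk
    hq hqD
  rw [← hS] at hcap
  have hX : 0 ≤ 2 + Real.log v + C4 L * (eta m c k + Real.log v) := by
    have : 0 ≤ C4 L * (eta m c k + Real.log v) := mul_nonneg (by linarith) (by linarith)
    linarith
  have hRBdef : RB m c L v T q k = 16384 * (2 * Real.pi / kap q)
    * (2 + Real.log v + C4 L * (eta m c k + Real.log v)) / T := rfl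
  set X := 2 + Real.log v + C4 L * (eta m c k + Real.log v) with hXdef
  set l := Ds / 16 with hl
  have hl0 : 0 < l := by linarith
  have hl1 : l ≤ 1 := by linarith
  set E := Sm (gg m c i N y) v ∩ S ∩ S6 with hEdef
  have hEm : MeasurableSet E := ((measurableSet_Sm _ _).inter (measurableSet_Sm _ _)).inter
    (measurableSet_Sm _ _)
  set Φ : Ci → ℝ := fun θ => 256 / l * mu.real (E ∩ arc θ l) with hΦ
  have hΦi : Integrable Φ mu := (integrable_arcm E l).const_mul _
  have hΦ0 : ∀ θ, 0 ≤ Φ θ := fun θ => mul_nonneg (by positivity) measureReal_nonneg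
  have hΦ1 : ∀ θ, Φ θ ≤ 1024 := by
    intro θ
    have h1 : mu.real (E ∩ arc θ l) ≤ 4 * l :=
      (measureReal_mono Set.inter_subset_right).trans (arc_le hl0 hl1 θ)
    calc Φ θ ≤ 256 / l * (4 * l) := mul_le_mul_of_nonneg_left h1 (by positivity)
      _ = 1024 := by field_simp; norm_num
  have havg : mu.real E ≤ ∫ θ, Φ θ ∂mu := by
    rw [hΦ, integral_const_mul]
    have h1 := arc_avg hl0 hl1 hEm
    have h2 := mul_le_mul_of_nonneg_left h1 (show 0 ≤ 256 / l by positivity)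
    refine le_trans (le_of_eq ?_) h2
    field_simp
  set B1 : Set Ci := {θ | Ds * (2 * Real.pi / kap q) * X < T / 4 * mu.real (S ∩ arc θ l)} with hB1
  set B2 : Set Ci := {θ | 1 < AA (((v⁻¹ : ℝ) : ℂ) • gg m c j6 N y) D₂
    ((Real.exp (-(D₂ / 8)) : ℝ) * ze θ)} with hB2
  have hm2 : mu.real B2 ≤ 3 * (rt v / v) := by
    have := d.AA_mean hv1 hy (D₂ := D₂) (D := D₂ / 8) (by linarith) (by linarith) (N := N) hj6
    exact this.trans (le_of_eq (mul_div_assoc _ _ _))
  have hK2 : 1 ≤ K2 D₂ Ds := by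
    unfold K2
    have : 1 ≤ D₂ / Ds := by rwa [one_le_div hDs]
    linarith
  have hRB0 : 0 ≤ RB m c L v T q k := by
    rw [hRBdef]
    positivity
  have hgen := avg_gen hΦi hΦ0 hΦ1 (by norm_num) (ε₁ := 26 * (L + 1) * (rt v / v))
    (ε₂ := 3 * (rt v / v)) (ρ := RB m c L v T q k) (K := K2 D₂ Ds) (T6 := T6) (v := v) (A := A)
    (p := p) (W := fun u => Sm (gg m c j6 N (y + D₂ / 8)) u) hIH (B1 := B1) (B2 := B2) hcap hm2
    ?_ ?_ hv2 hT6 hK2 hRB0 hRB hA hp1
  · have htr := d.transfer hv22 hji h (N := N) hTv hT.le hET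
    rw [← hS] at htr
    have htr6 := d.transfer hv22 hj6i h (N := N) hT6v hT6.le hE6
    rw [← hS6] at htr6
    have h1 : mu.real (Sm (gg m c i N y) v) ≤ mu.real E
        + mu.real (Sm (gg m c i N y) v \ S) + mu.real (Sm (gg m c i N y) v \ S6) := by
      have hsub : Sm (gg m c i N y) v ⊆ E ∪ (Sm (gg m c i N y) v \ S)
          ∪ (Sm (gg m c i N y) v \ S6) := by
        intro x hx
        by_cases h2 : x ∈ S
        · by_cases h3 : x ∈ S6
          · exact Or.inl (Or.inl ⟨⟨hx, h2⟩, h3⟩)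
          · exact Or.inr ⟨hx, h3⟩
        · exact Or.inl (Or.inr ⟨hx, h2⟩)
      refine (measureReal_mono hsub).trans ((measureReal_union_le _ _).trans ?_)
      have := measureReal_union_le (μ := mu) E (Sm (gg m c i N y) v \ S)
      linarith
    linarith
  · intro θ hθ
    simp only [hB1, mem_ofPred_eq, not_lt] at hθ
    have h3 : mu.real (E ∩ arc θ l) ≤ mu.real (S ∩ arc θ l) :=
      measureReal_mono (Set.inter_subset_inter_left _ fun x hx => hx.1.2)
    have h4 : Φ θ ≤ 256 / l * mu.real (S ∩ arc θ l) :=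
      mul_le_mul_of_nonneg_left h3 (by positivity)
    have h5 : 256 / l * mu.real (S ∩ arc θ l)
        = 16384 / (Ds * T) * (T / 4 * mu.real (S ∩ arc θ l)) := by
      rw [hl]
      field_simp
      ring
    have h6 : RB m c L v T q k = 16384 / (Ds * T) * (Ds * (2 * Real.pi / kap q) * X) := by
      rw [hRBdef]
      field_simp
    rw [h6]
    refine h4.trans (h5.le.trans ?_)
    exact mul_le_mul_of_nonneg_left hθ (by positivity)
  · intro V hV θ hθ hθ2
    simp only [hB2, mem_ofPred_eq, not_lt] at hθ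
    have h1 : T6 / 4 * mu.real (S6 ∩ arc θ l) ≤ 2 * D₂ * (2 + Real.log v + V) := by
      by_contra hcon
      push Not at hcon
      exact hθ2 (linA hv1 hD₂0 hD₂1 (by linarith) hl0 (by linarith) hθ hcon.le)
    have h3 : mu.real (E ∩ arc θ l) ≤ mu.real (S6 ∩ arc θ l) :=
      measureReal_mono (Set.inter_subset_inter_left _ fun x hx => hx.2)
    have h4 : Φ θ ≤ 256 / l * mu.real (S6 ∩ arc θ l) :=
      mul_le_mul_of_nonneg_left h3 (by positivity)
    have h5 : 256 / l * mu.real (S6 ∩ arc θ l)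
        = 16384 / (Ds * T6) * (T6 / 4 * mu.real (S6 ∩ arc θ l)) := by
      rw [hl]
      field_simp
      ring
    have h6 : K2 D₂ Ds / T6 * (2 + Real.log v + V)
        = 16384 / (Ds * T6) * (2 * D₂ * (2 + Real.log v + V)) := by
      rw [K2]
      field_simp
      ring
    rw [h6]
    refine h4.trans (h5.le.trans ?_)
    exact mul_le_mul_of_nonneg_left h1 (by positivity)

end

end Pool.Agent.H197.HLQ
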