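import Pool.Agent.H197.HLQ.Num

/-!
# Numerical closure of the induction step
-/

namespace Pool.Agent.H197.HLQ

noncomputable section

open Filter Topology Set

lemma rpow_neg_div {v K p : ℝ} (hv : 0 < v) (hK : 0 < K) :
    (v / K) ^ (-p) = v ^ (-p) * K ^ p := by
  rw [Real.div_rpow hv.le hK.le, Real.rpow_neg hK.le, div_inv_eq_mul]

lemma A_close {L : ℕ} {τ₀ p A v T6 X : ℝ} (hτ₀ : 0 < τ₀) (hp0 : 0 < p)
    (hP1 : (2 * K1 L / τ₀) ^ p * ((1 - 1 / (2 * ((L : ℝ) + 1))) ^ (1 - p) / (1 - p))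
      ≤ 1 - 3 / (8 * (L + 1))) (hp1 : p ≤ 1 / 8) (hA : 1 ≤ A) (hv : 1 ≤ v) (hT : τ₀ * v ≤ T6)
    (hsmall : 2 * (Real.sqrt v * Real.exp (-(τ₀ / 2 * v)))
      + 2 * (Real.sqrt v * Real.exp (-(Real.sqrt v / 2)))
      + (5 + 2 * K1 L / τ₀) * (1 / rt v) ≤ 1 / (4 * (L + 1)) * v ^ (-p))
    (hX : (1 - 1 / (8 * (L + 1))) * (X - 2 * Real.sqrt v * Real.exp (-(T6 / 2)))
      ≤ 5 * (rt v / v) + 2 * K1 L * (rt v / T6)
        + A * (T6 / (2 * K1 L)) ^ (-p) * ((1 - 1 / (2 * (L + 1))) ^ (1 - p) / (1 - p))) :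
    X ≤ A * v ^ (-p) := by
  have hL0 : (0 : ℝ) ≤ L := Nat.cast_nonneg _
  have hv0 : 0 < v := by linarith
  have hT0 : 0 < T6 := lt_of_lt_of_le (by positivity) hT
  have hK : 0 < K1 L := by unfold K1; positivity
  have hr := rt_pos hv0
  have hr1 := one_le_rt hv
  set e : ℝ := 1 / (8 * ((L : ℝ) + 1)) with he
  have he0 : 0 < e := by positivity
  have he1 : e ≤ 1 / 8 := by
    rw [he, div_le_div_iff₀ (by positivity) (by norm_num)]
    linarith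
  have e2 : 1 / (2 * ((L : ℝ) + 1)) = 4 * e := by rw [he]; field_simp; norm_num
  have e3 : 3 / (8 * ((L : ℝ) + 1)) = 3 * e := by rw [he]; ring
  have e4 : 1 / (4 * ((L : ℝ) + 1)) = 2 * e := by rw [he]; field_simp; norm_num
  rw [e2, e3] at hP1
  rw [e4] at hsmall
  rw [e2] at hX
  set W := (1 - 4 * e) ^ (1 - p) / (1 - p) with hW
  have hW0 : 0 ≤ W := div_nonneg (Real.rpow_nonneg (by linarith) _) (by linarith)
  have h1 : (T6 / (2 * K1 L)) ^ (-p) ≤ v ^ (-p) * (2 * K1 L / τ₀) ^ p := by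
    have h2 : v / (2 * K1 L / τ₀) ≤ T6 / (2 * K1 L) := by
      rw [div_div_eq_mul_div, mul_comm v τ₀]
      exact div_le_div_of_nonneg_right hT (by positivity)
    have h3 : (T6 / (2 * K1 L)) ^ (-p) ≤ (v / (2 * K1 L / τ₀)) ^ (-p) :=
      Real.rpow_le_rpow_of_nonpos (by positivity) h2 (by linarith)
    rwa [rpow_neg_div hv0 (by positivity)] at h3
  have hvp : 0 < v ^ (-p) := Real.rpow_pos_of_pos hv0 _
  have h4 : A * (T6 / (2 * K1 L)) ^ (-p) * W ≤ A * v ^ (-p) * (1 - 3 * e) := by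
    calc A * (T6 / (2 * K1 L)) ^ (-p) * W ≤ A * (v ^ (-p) * (2 * K1 L / τ₀) ^ p) * W := by
          refine mul_le_mul_of_nonneg_right ?_ hW0
          exact mul_le_mul_of_nonneg_left h1 (by linarith)
      _ = A * v ^ (-p) * ((2 * K1 L / τ₀) ^ p * W) := by ring
      _ ≤ _ := mul_le_mul_of_nonneg_left hP1 (by positivity)
  have h5 : rt v / v ≤ 1 / rt v := by
    rw [div_le_div_iff₀ hv0 hr, one_mul, ← sq, rt_sq]
    exact sqrt_le_self' hv
  have h6 : rt v / T6 ≤ 1 / τ₀ * (1 / rt v) := by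
    calc rt v / T6 ≤ rt v / (τ₀ * v) := div_le_div_of_nonneg_left hr.le (by positivity) hT
      _ = 1 / τ₀ * (rt v / v) := by field_simp
      _ ≤ _ := mul_le_mul_of_nonneg_left h5 (by positivity)
  have h7 : Real.exp (-(T6 / 2)) ≤ Real.exp (-(τ₀ / 2 * v)) := Real.exp_le_exp.mpr (by linarith)
  have h8 : 0 ≤ Real.sqrt v := Real.sqrt_nonneg v
  have h9 : 2 * Real.sqrt v * Real.exp (-(T6 / 2)) ≤ 2 * (Real.sqrt v * Real.exp (-(τ₀ / 2 * v))) := by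
    have := mul_le_mul_of_nonneg_left h7 h8
    linarith
  have h10 : 0 ≤ 2 * (Real.sqrt v * Real.exp (-(Real.sqrt v / 2))) := by positivity
  have h11 : 2 * K1 L * (rt v / T6) ≤ 2 * K1 L / τ₀ * (1 / rt v) := by
    calc 2 * K1 L * (rt v / T6) ≤ 2 * K1 L * (1 / τ₀ * (1 / rt v)) :=
          mul_le_mul_of_nonneg_left h6 (by positivity)
      _ = _ := by ring
  have h12 : (1 - e) * (2 * Real.sqrt v * Real.exp (-(T6 / 2)))
      ≤ 2 * (Real.sqrt v * Real.exp (-(τ₀ / 2 * v))) := by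
    refine le_trans ?_ h9
    exact mul_le_of_le_one_left (by positivity) (by linarith)
  have h13 : (1 - e) * X ≤ 2 * e * v ^ (-p) + A * v ^ (-p) * (1 - 3 * e) := by
    nlinarith
  have h14 : v ^ (-p) ≤ A * v ^ (-p) := le_mul_of_one_le_left hvp.le hA
  have h15 : (1 - e) * X ≤ (1 - e) * (A * v ^ (-p)) := by nlinarith
  exact le_of_mul_le_mul_left h15 (by linarith)

lemma B_close {τ₀ p A v T6 K C R : ℝ} (hτ₀ : 0 < τ₀) (hτ₀1 : τ₀ ≤ 1) (hp0 : 0 < p)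
    (hp1 : p ≤ 1 / 8) (hA : 0 ≤ A) (hv : 0 < v) (hT0 : 0 < T6) (hT : T6 ≤ τ₀ * v) (hK : 1 ≤ K)
    (hC : 1 ≤ C) (hτK : Real.sqrt τ₀ * (8 * K * C) ≤ 1) (hR0 : 0 ≤ R) (hR : R ≤ C * (T6 / v)) :
    A * (T6 / (2 * K)) ^ (-p) * (R ^ (1 - p) / (1 - p)) ≤ 1 / 2 * (A * v ^ (-p)) := by
  set σ := T6 / v with hσ
  have hσ0 : 0 < σ := div_pos hT0 hv
  have hσ1 : σ ≤ τ₀ := by rwa [hσ, div_le_iff₀ hv]
  have hvp : 0 < v ^ (-p) := Real.rpow_pos_of_pos hv _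
  have h1 : (T6 / (2 * K)) ^ (-p) ≤ σ ^ (-p) * v ^ (-p) * (2 * K) := by
    rw [rpow_neg_div hT0 (by linarith)]
    have h2 : T6 = σ * v := by rw [hσ]; field_simp
    rw [h2, Real.mul_rpow hσ0.le hv.le]
    refine mul_le_mul_of_nonneg_left ?_ (by positivity)
    calc (2 * K) ^ p ≤ (2 * K) ^ (1 : ℝ) :=
          Real.rpow_le_rpow_of_exponent_le (by linarith) (by linarith)
      _ = 2 * K := Real.rpow_one _
  have h3 : R ^ (1 - p) ≤ C * σ ^ (1 - p) := by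
    calc R ^ (1 - p) ≤ (C * σ) ^ (1 - p) := Real.rpow_le_rpow hR0 hR (by linarith)
      _ = C ^ (1 - p) * σ ^ (1 - p) := Real.mul_rpow (by linarith) hσ0.le
      _ ≤ C * σ ^ (1 - p) := by
          refine mul_le_mul_of_nonneg_right ?_ (by positivity)
          calc C ^ (1 - p) ≤ C ^ (1 : ℝ) := Real.rpow_le_rpow_of_exponent_le hC (by linarith)
            _ = C := Real.rpow_one _
  have h4 : σ ^ (-p) * σ ^ (1 - p) ≤ Real.sqrt τ₀ := by
    rw [← Real.rpow_add hσ0, Real.sqrt_eq_rpow]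
    calc σ ^ (-p + (1 - p)) ≤ σ ^ (1 / 2 : ℝ) :=
          Real.rpow_le_rpow_of_exponent_ge hσ0 (hσ1.trans hτ₀1) (by linarith)
      _ ≤ τ₀ ^ (1 / 2 : ℝ) := Real.rpow_le_rpow hσ0.le hσ1 (by norm_num)
  have h5 : R ^ (1 - p) / (1 - p) ≤ 2 * (C * σ ^ (1 - p)) := by
    rw [div_le_iff₀ (by linarith)]
    have : 0 ≤ C * σ ^ (1 - p) := by positivity
    nlinarith
  calc A * (T6 / (2 * K)) ^ (-p) * (R ^ (1 - p) / (1 - p))
      ≤ A * (σ ^ (-p) * v ^ (-p) * (2 * K)) * (2 * (C * σ ^ (1 - p))) := by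
        refine mul_le_mul (mul_le_mul_of_nonneg_left h1 hA) h5
          (div_nonneg (Real.rpow_nonneg hR0 _) (by linarith)) (by positivity)
    _ = A * v ^ (-p) * (4 * K * C) * (σ ^ (-p) * σ ^ (1 - p)) := by ring
    _ ≤ A * v ^ (-p) * (4 * K * C) * Real.sqrt τ₀ :=
        mul_le_mul_of_nonneg_left h4 (by positivity)
    _ = A * v ^ (-p) * (1 / 2 * (Real.sqrt τ₀ * (8 * K * C))) := by ring
    _ ≤ A * v ^ (-p) * (1 / 2 * 1) := by
        refine mul_le_mul_of_nonneg_left ?_ (by positivity)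
        linarith
    _ = _ := by ring

end

end Pool.Agent.H197.HLQ
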