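import Pool.Agent.H197.HLQ.Split

/-!
# Sets where a half-lacunary polynomial is small do not fill the circle
-/

namespace Pool.Agent.H197.HLQ

noncomputable section

open MeasureTheory AddCircle Complex Set
open Pool.Agent.W767.HL

/-- Upper bound for the logarithmic integral. -/
lemma La_le' {L : ℕ} (hL : 0 < L) {G : ℤ →₀ ℂ} {w : ℂ} (hw : ‖w‖ < 1) {B T : ℝ} (hB0 : 0 ≤ B)
    (hT : 0 ≤ T) (hB : ∫ θ, P w θ * ‖ev G (ze θ)‖ ∂mu ≤ B) :
    La w (L * Real.exp (-T) ^ 2) (fun θ => ev G (ze θ)) ≤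
      (∫ x in {x | ‖ev G (ze x)‖ ≤ Real.exp (-T)}, P w x ∂mu) * (Real.log (L + 1) - 2 * T)
        + 2 * Real.log (1 + L + B) := by
  set E : Set Ci := {x | ‖ev G (ze x)‖ ≤ Real.exp (-T)} with hE
  have hEm : MeasurableSet E :=
    (isClosed_le (continuous_ev_ze G).norm continuous_const).measurableSet
  set s := Real.exp (-T) with hs
  have hs0 : 0 < s := Real.exp_pos _
  have hs1 : s ≤ 1 := Real.exp_le_one_iff.mpr (by linarith)
  have hL1 : (1 : ℝ) ≤ L := by exact_mod_cast hL
  have hc := (continuous_ev_ze G).norm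
  have hPc := continuous_P hw
  have hne1 : ∀ x : Ci, (1 + (L : ℝ) + ‖ev G (ze x)‖) ≠ 0 := fun x => by positivity
  have hne2 : ∀ x : Ci, ((L : ℝ) * s ^ 2 + ‖ev G (ze x)‖ ^ 2) ≠ 0 := fun x => by positivity
  have hlc : Continuous fun x : Ci => Real.log (1 + L + ‖ev G (ze x)‖) :=
    (continuous_const.add hc).log hne1
  have hpt : ∀ x, Real.log (L * s ^ 2 + ‖ev G (ze x)‖ ^ 2) ≤
      E.indicator (fun _ => Real.log (L + 1) - 2 * T) x
        + 2 * Real.log (1 + L + ‖ev G (ze x)‖) := by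
    intro x
    have hg := norm_nonneg (ev G (ze x))
    have hnn : 0 ≤ Real.log (1 + L + ‖ev G (ze x)‖) := Real.log_nonneg (by linarith)
    by_cases hx : x ∈ E
    · rw [Set.indicator_of_mem hx]
      have h1 : ‖ev G (ze x)‖ ≤ s := hx
      have h2 : L * s ^ 2 + ‖ev G (ze x)‖ ^ 2 ≤ (L + 1) * s ^ 2 := by
        have := pow_le_pow_left₀ hg h1 2
        linarith
      have h3 := Real.log_le_log (by positivity) h2
      rw [Real.log_mul (by positivity) (by positivity), Real.log_pow, hs, Real.log_exp] at h3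
      push_cast at h3
      linarith
    · rw [Set.indicator_of_notMem hx, zero_add]
      have h2 : L * s ^ 2 + ‖ev G (ze x)‖ ^ 2 ≤ (1 + L + ‖ev G (ze x)‖) ^ 2 := by
        have : s ^ 2 ≤ 1 := pow_le_one₀ hs0.le hs1
        nlinarith
      have h3 := Real.log_le_log (by positivity) h2
      rw [Real.log_pow] at h3
      exact_mod_cast h3
  have i1 : Integrable (fun x => P w x * E.indicator (fun _ => Real.log (L + 1) - 2 * T) x) mu := by
    have h1 : Integrable (E.indicator (fun _ => Real.log ((L : ℝ) + 1) - 2 * T)) mu :=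
      (integrable_const _).indicator hEm
    simpa using integrable_P_mul hw h1
  have i2 : Integrable (fun x => P w x * (2 * Real.log (1 + L + ‖ev G (ze x)‖))) mu :=
    integrable_of_cont (hPc.mul (continuous_const.mul hlc))
  have i3 : Integrable (fun x => P w x * Real.log (L * s ^ 2 + ‖ev G (ze x)‖ ^ 2)) mu :=
    integrable_of_cont (hPc.mul ((continuous_const.add (hc.pow 2)).log hne2))
  have h1 : La w (L * s ^ 2) (fun θ => ev G (ze θ)) ≤
      ∫ x, P w x * E.indicator (fun _ => Real.log (L + 1) - 2 * T) x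
        + P w x * (2 * Real.log (1 + L + ‖ev G (ze x)‖)) ∂mu := by
    unfold La
    refine integral_mono i3 (i1.add i2) fun x => ?_
    simp only
    rw [← mul_add]
    exact mul_le_mul_of_nonneg_left (hpt x) (P_pos hw x).le
  rw [integral_add i1 i2] at h1
  have h2 : ∫ x, P w x * E.indicator (fun _ => Real.log (L + 1) - 2 * T) x ∂mu
      = (∫ x in E, P w x ∂mu) * (Real.log (L + 1) - 2 * T) := by
    rw [← integral_mul_const, ← integral_indicator hEm]
    refine integral_congr_ae (Filter.Eventually.of_forall fun x => ?_)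
    simp only
    by_cases hx : x ∈ E
    · rw [Set.indicator_of_mem hx, Set.indicator_of_mem hx]
    · rw [Set.indicator_of_notMem hx, Set.indicator_of_notMem hx, mul_zero]
  have h3 : ∫ x, P w x * (2 * Real.log (1 + L + ‖ev G (ze x)‖)) ∂mu ≤
      2 * Real.log (1 + L + B) := by
    have hb : 0 < 1 + (L : ℝ) + B := by positivity
    have hpt2 : ∀ x, 2 * Real.log (1 + L + ‖ev G (ze x)‖) ≤ (2 * Real.log (1 + L + B)
        - 2 * B / (1 + L + B)) + 2 / (1 + L + B) * ‖ev G (ze x)‖ := by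
      intro x
      have hg := norm_nonneg (ev G (ze x))
      have h4 := Real.log_le_sub_one_of_pos (x := (1 + L + ‖ev G (ze x)‖) / (1 + L + B))
        (by positivity)
      rw [Real.log_div (by positivity) (by positivity)] at h4
      have h5 : (1 + L + ‖ev G (ze x)‖) / (1 + L + B) - 1
          = ‖ev G (ze x)‖ / (1 + L + B) - B / (1 + L + B) := by
        field_simp
        ring
      rw [h5] at h4
      have h6 : 2 * B / (1 + L + B) = 2 * (B / (1 + L + B)) := by ring
      have h7 : 2 / (1 + L + B) * ‖ev G (ze x)‖ = 2 * (‖ev G (ze x)‖ / (1 + L + B)) := by ring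
      rw [h6, h7]
      linarith
    have j1 : Integrable (fun x => P w x * (2 * Real.log (1 + L + B)
        - 2 * B / (1 + L + B))) mu := integrable_of_cont (hPc.mul continuous_const)
    have j2 : Integrable (fun x => P w x * (2 / (1 + L + B) * ‖ev G (ze x)‖)) mu :=
      integrable_of_cont (hPc.mul (continuous_const.mul hc))
    calc ∫ x, P w x * (2 * Real.log (1 + L + ‖ev G (ze x)‖)) ∂mu
        ≤ ∫ x, P w x * (2 * Real.log (1 + L + B) - 2 * B / (1 + L + B))
          + P w x * (2 / (1 + L + B) * ‖ev G (ze x)‖) ∂mu := by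
          refine integral_mono i2 (j1.add j2) fun x => ?_
          simp only
          rw [← mul_add]
          exact mul_le_mul_of_nonneg_left (hpt2 x) (P_pos hw x).le
      _ = (2 * Real.log (1 + L + B) - 2 * B / (1 + L + B))
          + 2 / (1 + L + B) * ∫ x, P w x * ‖ev G (ze x)‖ ∂mu := by
          rw [integral_add j1 j2, integral_mul_const, integral_P hw, one_mul]
          congr 1
          rw [← integral_const_mul]
          refine integral_congr_ae (Filter.Eventually.of_forall fun x => ?_)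
          simp only
          ring
      _ ≤ _ := by
          have h8 : 2 / (1 + L + B) * ∫ x, P w x * ‖ev G (ze x)‖ ∂mu ≤ 2 / (1 + L + B) * B :=
            mul_le_mul_of_nonneg_left hB (by positivity)
          have h9 : 2 / (1 + L + B) * B = 2 * B / (1 + L + B) := by ring
          rw [h9] at h8
          linarith
  rw [h2] at h1
  linarith

/-- The set where a half-lacunary polynomial is very small does not fill the circle at the
resolution of the spectral gap. -/
theorem dbound {L : ℕ} (hL : 0 < L) {m : ℕ → ℕ} (hm : StrictMono m)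
    (hgap : ∀ j, L ≤ j → m (j - L) + m (j - 1) ≤ m j) {η₀ : ℝ} (hη₀ : 0 < η₀)
    (hη : ∀ j, 1 ≤ j → η₀ * m j + m (j - 1) ≤ m j) {K k : ℕ} (hk : 1 ≤ k) (hkK : k ≤ K)
    {G : ℤ →₀ ℂ} (hG : ∀ n : ℤ, n < -(m K : ℤ) → G n = 0)
    (hG2 : ∀ j, 1 ≤ j → ∀ n : ℤ, -(m j : ℤ) < n → n < -(m (j - 1) : ℤ) → G n = 0)
    {w : ℂ} {D : ℝ} (hD : 0 < D) (hw : ‖w‖ = Real.exp (-D)) {B : ℝ} (hB00 : 0 ≤ B)
    (hB : ∫ θ, P w θ * ‖ev G (ze θ)‖ ∂mu ≤ B) (hB0 : ∫ θ, ‖ev G (ze θ)‖ ∂mu ≤ B)
    {T : ℝ} (hT : 0 < T) (hTD : T + Real.log (4 * (L + B)) ≤ (η₀ * m k - 1) * D)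
    {EE : ℝ} (hE : 0 < EE) (hEG : EE ≤ ∑ j ∈ Finset.Ioc (k - 1) K, ‖G (-(m j : ℤ))‖ ^ 2)
    (hTE : -(Real.log EE / 2) + (L + 1) * (Real.log 2 + Real.log (L + 1) / 2
      + Real.log (1 + L + B)) ≤ T / 2) :
    ∫ x in {x | ‖ev G (ze x)‖ ≤ Real.exp (-T)}, P w x ∂mu ≤ 1 - 1 / (2 * (L + 1)) := by
  have hL1 : (1 : ℝ) ≤ L := by exact_mod_cast hL
  have hw1 : ‖w‖ < 1 := by rw [hw, Real.exp_lt_one_iff]; linarith
  have hw0 : w ≠ 0 := by
    intro h
    rw [h, norm_zero] at hw
    exact (Real.exp_pos _).ne hw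
  set M := ⌊η₀ * m k⌋₊ with hMdef
  have hMle : (M : ℝ) ≤ η₀ * m k := Nat.floor_le (by positivity)
  have hMge : η₀ * m k - 1 ≤ M := by
    have := Nat.lt_floor_add_one (η₀ * m k)
    linarith
  have hM' : ∀ j, k - 1 < j → M + m (j - 1) ≤ m j := by
    intro j hj
    have h1 := hη j (by omega)
    have h2 : (m k : ℝ) ≤ m j := by exact_mod_cast hm.monotone (show k ≤ j by omega)
    have h3 : (M : ℝ) + m (j - 1) ≤ m j := by
      have := mul_le_mul_of_nonneg_left h2 hη₀.le
      linarith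
    exact_mod_cast h3
  have hsM : ‖w‖ ^ M * (2 * (L + B)) ≤ Real.exp (-T) / 2 := by
    have h1 : ‖w‖ ^ M = Real.exp (-(M * D)) := by
      rw [hw, ← Real.exp_nat_mul]
      congr 1
      ring
    have h2 : (4 * (L + B)) = Real.exp (Real.log (4 * (L + B))) := by
      rw [Real.exp_log (by positivity)]
    have h3 : ‖w‖ ^ M * (4 * (L + B)) ≤ Real.exp (-T) := by
      rw [h1, h2, ← Real.exp_add, Real.exp_le_exp]
      have := mul_le_mul_of_nonneg_right hMge hD.le
      linarith
    linarith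
  have hB0' : ∫ θ, P 0 θ * ‖ev G (ze θ)‖ ∂mu ≤ B := by
    refine le_trans (le_of_eq ?_) hB0
    refine integral_congr_ae (Filter.Eventually.of_forall fun x => ?_)
    simp [P, norm_ze]
  have key := trunc_ineq' hL hm hgap (K := K) (j0 := k - 1) (by omega) hM' hG hG2 hw1 hw0 hB hB0'
    (Real.exp_pos (-T)) (Real.exp_le_one_iff.mpr (by linarith)) hsM hE hEG
  have key2 := La_le' hL hw1 hB00 hT.le hB
  rw [Real.log_exp] at key
  set ω := ∫ x in {x | ‖ev G (ze x)‖ ≤ Real.exp (-T)}, P w x ∂mu with hω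
  have hω1 : ω ≤ 1 := by
    rw [← integral_P hw1]
    exact setIntegral_le_integral (integrable_of_cont (continuous_P hw1))
      (Filter.Eventually.of_forall fun x => (P_pos hw1 x).le)
  have hlog : 0 ≤ Real.log ((L : ℝ) + 1) := Real.log_nonneg (by linarith)
  have h1 : 2 * ((L * -T + Real.log EE / 2) / (L + 1) - Real.log 2)
      ≤ ω * (Real.log (L + 1) - 2 * T) + 2 * Real.log (1 + L + B) := key.trans key2
  have h2 : (L * -T + Real.log EE / 2) / (L + 1) * (L + 1) = L * -T + Real.log EE / 2 := by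
    field_simp
  have h3 : ω * Real.log (L + 1) ≤ Real.log (L + 1) := by nlinarith
  have h4 : (L + 1) * (2 * ((L * -T + Real.log EE / 2) / (L + 1) - Real.log 2))
      ≤ (L + 1) * (ω * (Real.log (L + 1) - 2 * T) + 2 * Real.log (1 + L + B)) :=
    mul_le_mul_of_nonneg_left h1 (by positivity)
  have h5 : 2 * ((L + 1) * T * ω) ≤ (2 * L + 1) * T := by
    have h6 : (L + 1) * (ω * Real.log (L + 1)) ≤ (L + 1) * Real.log (L + 1) :=
      mul_le_mul_of_nonneg_left h3 (by positivity)
    nlinarith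
  have h7 : 2 * (L + 1) * ω ≤ 2 * L + 1 := by
    have : (2 * (L + 1) * ω) * T ≤ (2 * L + 1) * T := by linarith
    exact le_of_mul_le_mul_right this hT
  rw [le_sub_iff_add_le, ← le_sub_iff_add_le', div_le_iff₀ (by positivity)]
  linarith

end

end Pool.Agent.H197.HLQ
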