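import Pool.Agent.H197.HLQ.DBound
import Pool.Graph.R_seed8.W767.HL.Main

/-!
# Half-lacunary coefficient sequences: energies and truncated dilations
-/

namespace Pool.Agent.H197.HLQ

noncomputable section

open MeasureTheory AddCircle Complex Set Filter Topology
open Pool.Agent.W767.HL

/-- A half-lacunary sequence of coefficients `c`, whose negative frequencies are in
`{-m 1, -m 2, ...}`. -/
structure Dat (L : ℕ) (m : ℕ → ℕ) (η₀ : ℝ) (c : ℤ → ℂ) : Prop where
  hL : 0 < L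
  hm : StrictMono m
  hm0 : m 0 = 0
  hgap : ∀ j, L ≤ j → m (j - L) + m (j - 1) ≤ m j
  hη₀ : 0 < η₀
  hη : ∀ j, 1 ≤ j → η₀ * m j + m (j - 1) ≤ m j
  hspec : ∀ j, 1 ≤ j → ∀ n : ℤ, -(m j : ℤ) < n → n < -(m (j - 1) : ℤ) → c n = 0
  hsum : Summable fun n => ‖c n‖ ^ 2
  htot : ∑' n, ‖c n‖ ^ 2 ≤ 1

variable {L : ℕ} {m : ℕ → ℕ} {η₀ : ℝ} {c : ℤ → ℂ}

/-- The energy of the negative frequencies `-m k, -m (k + 1), ...`. -/
def En (m : ℕ → ℕ) (c : ℤ → ℂ) (k : ℕ) : ℝ := ∑' l : ℕ, ‖c (-(m (k + l) : ℤ))‖ ^ 2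

/-- Half of the logarithm of the inverse energy. -/
def eta (m : ℕ → ℕ) (c : ℤ → ℂ) (k : ℕ) : ℝ := -(Real.log (En m c k) / 2)

lemma Dat.inj (d : Dat L m η₀ c) (k : ℕ) :
    Function.Injective fun l : ℕ => (-(m (k + l) : ℤ)) := by
  intro a b h
  simp only [neg_inj, Nat.cast_inj] at h
  have := d.hm.injective h
  omega

lemma Dat.summ (d : Dat L m η₀ c) (k : ℕ) : Summable fun l : ℕ => ‖c (-(m (k + l) : ℤ))‖ ^ 2 :=
  d.hsum.comp_injective (d.inj k)

lemma En_nonneg (m : ℕ → ℕ) (c : ℤ → ℂ) (k : ℕ) : 0 ≤ En m c k := tsum_nonneg fun _ => sq_nonneg _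

lemma Dat.En_succ (d : Dat L m η₀ c) (k : ℕ) :
    En m c k = ‖c (-(m k : ℤ))‖ ^ 2 + En m c (k + 1) := by
  unfold En
  rw [(d.summ k).tsum_eq_zero_add]
  simp only [add_zero]
  congr 1
  refine tsum_congr fun l => ?_
  rw [show k + (l + 1) = k + 1 + l by ring]

lemma Dat.En_anti (d : Dat L m η₀ c) : Antitone (En m c) := by
  refine antitone_nat_of_succ_le fun k => ?_
  rw [d.En_succ k]
  have := sq_nonneg ‖c (-(m k : ℤ))‖
  linarith

lemma Dat.En_le_one (d : Dat L m η₀ c) (k : ℕ) : En m c k ≤ 1 := by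
  refine le_trans ?_ d.htot
  exact tsum_comp_le_tsum_of_inj d.hsum (fun _ => sq_nonneg _) (d.inj k)

lemma Dat.En_tendsto (d : Dat L m η₀ c) : Tendsto (En m c) atTop (𝓝 0) := by
  have h := d.summ 0
  have h2 := tendsto_sum_nat_add (fun l : ℕ => ‖c (-(m (0 + l) : ℤ))‖ ^ 2)
  refine h2.congr fun k => ?_
  unfold En
  refine tsum_congr fun l => ?_
  rw [show 0 + (l + k) = k + l by ring]

lemma Dat.En_sum (d : Dat L m η₀ c) {j i : ℕ} (h : j ≤ i) :
    ∑ k ∈ Finset.Ioc j i, ‖c (-(m k : ℤ))‖ ^ 2 = En m c (j + 1) - En m c (i + 1) := by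
  induction i, h using Nat.le_induction with
  | base => simp
  | succ n hn ih =>
      have h1 : Finset.Ioc j (n + 1) = insert (n + 1) (Finset.Ioc j n) := by
        ext x
        simp only [Finset.mem_Ioc, Finset.mem_insert]
        omega
      rw [h1, Finset.sum_insert (by simp), ih, d.En_succ (n + 1)]
      ring

lemma Dat.eta_nonneg (d : Dat L m η₀ c) (k : ℕ) : 0 ≤ eta m c k := by
  unfold eta
  have := Real.log_nonpos (En_nonneg m c k) (d.En_le_one k)
  linarith

lemma exp_eta {k : ℕ} (h : 0 < En m c k) : Real.exp (-2 * eta m c k) = En m c k := by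
  unfold eta
  rw [show -2 * -(Real.log (En m c k) / 2) = Real.log (En m c k) by ring, Real.exp_log h]

lemma Dat.eta_mono (d : Dat L m η₀ c) {j k : ℕ} (h : j ≤ k) (hk : 0 < En m c k) :
    eta m c j ≤ eta m c k := by
  unfold eta
  have := Real.log_le_log hk (d.En_anti h)
  linarith

lemma Dat.m_pos (d : Dat L m η₀ c) {k : ℕ} (hk : 1 ≤ k) : 0 < m k := by
  have := d.hm (show 0 < k by omega)
  omega

/-- The truncated dilations. -/
def gg (m : ℕ → ℕ) (c : ℤ → ℂ) (i N : ℕ) (y : ℝ) : ℤ →₀ ℂ :=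
  dil (Real.exp (-y)) (tr c (-(m i : ℤ)) N)

lemma gg_apply (i N : ℕ) (y : ℝ) (n : ℤ) : gg m c i N y n
    = if -(m i : ℤ) ≤ n ∧ n ≤ N then ((Real.exp (-(n * y)) : ℝ) : ℂ) * c n else 0 := by
  rw [gg, dil_apply, tr_apply]
  have : Real.exp (-y) ^ n = Real.exp (-(n * y)) := by
    rw [← Real.rpow_intCast, ← Real.exp_mul]
    congr 1
    ring
  rw [this]
  split_ifs
  · rfl
  · rw [mul_zero]

lemma ev_gg (i N : ℕ) (y D : ℝ) (z : ℂ) :
    ev (gg m c i N y) ((Real.exp (-D) : ℝ) * z) = ev (gg m c i N (y + D)) z := by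
  rw [gg, gg, ev_dil, ev_dil]
  congr 1
  rw [← mul_assoc, ← Complex.ofReal_mul, ← Real.exp_add]
  congr 3
  ring

/-- Sums over the spectrum. -/
lemma sum_spec (hm : StrictMono m) {h : ℤ → ℝ}
    (hh : ∀ j, 1 ≤ j → ∀ n : ℤ, -(m j : ℤ) < n → n < -(m (j - 1) : ℤ) → h n = 0) {j i : ℕ}
    (hji : j ≤ i) :
    ∑ n ∈ Finset.Ico (-(m i : ℤ)) (-(m j : ℤ)), h n = ∑ k ∈ Finset.Ioc j i, h (-(m k : ℤ)) := by
  induction i, hji using Nat.le_induction with
  | base => simp
  | succ i hi ih =>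
      have hlt : m i < m (i + 1) := hm (Nat.lt_succ_self i)
      have hle : m j ≤ m i := hm.monotone hi
      have h1 : Finset.Ico (-(m (i + 1) : ℤ)) (-(m j : ℤ))
          = Finset.Ico (-(m (i + 1) : ℤ)) (-(m i : ℤ)) ∪ Finset.Ico (-(m i : ℤ)) (-(m j : ℤ)) := by
        rw [Finset.Ico_union_Ico_eq_Ico] <;> omega
      have h2 : Disjoint (Finset.Ico (-(m (i + 1) : ℤ)) (-(m i : ℤ)))
          (Finset.Ico (-(m i : ℤ)) (-(m j : ℤ))) := by
        rw [Finset.disjoint_left]
        intro x hx hx2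
        rw [Finset.mem_Ico] at hx hx2
        omega
      have h3 : Finset.Ioc j (i + 1) = insert (i + 1) (Finset.Ioc j i) := by
        ext x
        simp only [Finset.mem_Ioc, Finset.mem_insert]
        omega
      rw [h1, Finset.sum_union h2, ih, h3, Finset.sum_insert (by simp)]
      congr 1
      rw [Finset.sum_eq_single (-(m (i + 1) : ℤ))]
      · intro n hn hne
        rw [Finset.mem_Ico] at hn
        refine hh (i + 1) (by omega) n (by omega) ?_
        rw [Nat.add_sub_cancel]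
        exact hn.2
      · intro h4
        exact absurd (Finset.mem_Ico.mpr ⟨le_rfl, by omega⟩) h4

/-- Admissibility of a dilation. -/
def Adm (m : ℕ → ℕ) (c : ℤ → ℂ) (a v : ℝ) (i : ℕ) (y : ℝ) : Prop :=
  ∀ k, 1 ≤ k → k ≤ i → 0 < En m c k ∧ m k * y ≤ a * (eta m c k + Real.log v)

lemma Adm.mono_i {a v y : ℝ} {i j : ℕ} (h : Adm m c a v i y) (hij : j ≤ i) : Adm m c a v j y :=
  fun k h1 h2 => h k h1 (h2.trans hij)

/-- The main energy estimate. -/
lemma Dat.energy (d : Dat L m η₀ c) {v y : ℝ} (hv : 1 ≤ v) {i j : ℕ} (hji : j ≤ i)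
    (h : Adm m c (1 / 4) v i y) :
    ∑ k ∈ Finset.Ioc j i, ‖c (-(m k : ℤ))‖ ^ 2 * Real.exp (2 * (m k * y))
      ≤ 2 * Real.sqrt v * Real.sqrt (En m c (j + 1)) := by
  have hv0 : 0 < v := by linarith
  have h1 : ∀ k ∈ Finset.Ioc j i, ‖c (-(m k : ℤ))‖ ^ 2 * Real.exp (2 * (m k * y)) ≤
      2 * Real.sqrt v * (Real.sqrt (En m c k) - Real.sqrt (En m c (k + 1))) := by
    intro k hk
    rw [Finset.mem_Ioc] at hk
    obtain ⟨h2, h3⟩ := h k (by omega) hk.2
    have h4 : ‖c (-(m k : ℤ))‖ ^ 2 = En m c k - En m c (k + 1) := by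
      rw [d.En_succ k]; ring
    set a := Real.sqrt (En m c k) with ha
    set b := Real.sqrt (En m c (k + 1)) with hb
    have ha0 : 0 < a := Real.sqrt_pos.mpr h2
    have hb0 : 0 ≤ b := Real.sqrt_nonneg _
    have ha2 : a ^ 2 = En m c k := Real.sq_sqrt h2.le
    have hb2 : b ^ 2 = En m c (k + 1) := Real.sq_sqrt (En_nonneg _ _ _)
    have hba : b ≤ a := Real.sqrt_le_sqrt (d.En_anti (Nat.le_succ k))
    have h5 : Real.exp (2 * (m k * y)) ≤ Real.sqrt v / a := by
      have h6 : Real.exp (2 * (m k * y)) ≤ Real.exp (eta m c k + Real.log v / 2) := by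
        rw [Real.exp_le_exp]
        have := d.eta_nonneg k
        linarith
      refine h6.trans (le_of_eq ?_)
      rw [Real.exp_add, Real.sqrt_eq_rpow, Real.rpow_def_of_pos hv0]
      have h7 : Real.exp (eta m c k) = a⁻¹ := by
        have h8 : Real.log (En m c k) = 2 * Real.log a := by
          rw [← ha2, Real.log_pow]
          norm_num
        rw [eta, h8, show -(2 * Real.log a / 2) = -Real.log a by ring, Real.exp_neg,
          Real.exp_log ha0]
      rw [h7, mul_comm, div_eq_mul_inv (Real.exp _) a, div_eq_mul_inv (Real.log v), one_div]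
    rw [h4, ← ha2, ← hb2]
    calc (a ^ 2 - b ^ 2) * Real.exp (2 * (m k * y)) ≤ (a ^ 2 - b ^ 2) * (Real.sqrt v / a) :=
          mul_le_mul_of_nonneg_left h5 (by nlinarith)
      _ = Real.sqrt v * (a - b) * ((a + b) / a) := by
          field_simp
          ring
      _ ≤ Real.sqrt v * (a - b) * 2 := by
          refine mul_le_mul_of_nonneg_left ?_ (mul_nonneg (Real.sqrt_nonneg _) (by linarith))
          rw [div_le_iff₀ ha0]
          linarith
      _ = _ := by ring
  refine (Finset.sum_le_sum h1).trans ?_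
  rw [← Finset.mul_sum]
  refine mul_le_mul_of_nonneg_left ?_ (by positivity)
  have h2 : ∑ k ∈ Finset.Ioc j i, (Real.sqrt (En m c k) - Real.sqrt (En m c (k + 1)))
      = Real.sqrt (En m c (j + 1)) - Real.sqrt (En m c (i + 1)) := by
    clear h1 h
    induction i, hji using Nat.le_induction with
    | base => simp
    | succ n hn ih =>
        have h1 : Finset.Ioc j (n + 1) = insert (n + 1) (Finset.Ioc j n) := by
          ext x
          simp only [Finset.mem_Ioc, Finset.mem_insert]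
          omega
        rw [h1, Finset.sum_insert (by simp), ih]
        ring
  rw [h2]
  have := Real.sqrt_nonneg (En m c (i + 1))
  linarith

end

end Pool.Agent.H197.HLQ
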