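import Pool.Graph.R_seed8.W767.HL.Decay

/-!
# Energy version of the rotation algorithm

The largest constant term produced by the algorithm is bounded from below in terms of the whole
energy of the removed frequencies.
-/

namespace Pool.Agent.H197.HLQ

noncomputable section

open MeasureTheory AddCircle Complex Finset
open Pool.Agent.W767.HL

lemma inv_iter' {L : ℕ} {m : ℕ → ℕ} {G : ℤ →₀ ℂ} {s : ℝ} {M K j0 : ℕ} (hL : 0 < L) (hs : 0 < s)
    (hm : StrictMono m) (hgap : ∀ j, L ≤ j → m (j - L) + m (j - 1) ≤ m j)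
    (hM : ∀ j, j0 < j → M + m (j - 1) ≤ m j)
    (hG : ∀ n : ℤ, n < -(m K : ℤ) → G n = 0)
    (hG2 : ∀ j, 1 ≤ j → ∀ n : ℤ, -(m j : ℤ) < n → n < -(m (j - 1) : ℤ) → G n = 0) :
    ∀ d : ℕ, j0 + d ≤ K → ∃ (eF : ℤ →₀ ℂ) (e : ℕ → (ℤ →₀ ℂ)) (t : ℕ → ℝ) (C : ℝ),
      Inv L m G s M (K - d) eF e t C ∧ ∀ τ : ℝ, (∀ i < L, t i ≤ τ) →
        s ^ (2 * L) * ∑ j ∈ Finset.Ioc (K - d) K, ‖G (-(m j : ℤ))‖ ^ 2
          ≤ τ ^ 2 * ∏ i ∈ range L, t i ^ 2 := by
  intro d
  induction d with
  | zero =>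
      intro _
      refine ⟨_, _, _, _, inv_start hs hG, ?_⟩
      intro τ hτ
      simp only [Nat.sub_zero, Finset.Ioc_self, Finset.sum_empty, mul_zero]
      positivity
  | succ d ih =>
      intro hd
      obtain ⟨eF, e, t, C, h, hen⟩ := ih (by omega)
      obtain ⟨eF', e', t', C', h', hne, hi⟩ := inv_step hL hs hm (hgap _) (hM _ (by omega))
        (by omega) (hG2 _ (by omega)) h
      refine ⟨eF', e', t', C', ?_, ?_⟩
      · have : K - (d + 1) = K - d - 1 := by omega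
        rw [this]
        exact h'
      · intro τ hτ
        set j := K - d with hj
        set i := j % L with hidef
        have hiL : i < L := Nat.mod_lt _ hL
        set a := ‖G (-(m j : ℤ))‖ with ha
        have hti : 0 < t i := hs.trans_le (h.t_ge i hiL)
        have hti' : 0 < t' i := hs.trans_le (h'.t_ge i hiL)
        have hle : t i ≤ t' i := by
          refine le_of_sq_le_sq ?_ hti'.le
          rw [hi]
          nlinarith [mul_nonneg (sq_nonneg C) (sq_nonneg a)]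
        have hτ2 : ∀ k < L, t k ≤ τ := by
          intro k hk
          by_cases hki : k = i
          · rw [hki]
            exact hle.trans (hτ i hiL)
          · rw [← hne k hk hki]
            exact hτ k hk
        have h1 := hen τ hτ2
        have hsum : Finset.Ioc (K - (d + 1)) K = insert j (Finset.Ioc j K) := by
          ext x
          simp only [Finset.mem_Ioc, Finset.mem_insert]
          omega
        have hnot : j ∉ Finset.Ioc j K := by simp
        rw [hsum, Finset.sum_insert hnot, mul_add]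
        set Q := ∏ x ∈ (range L).erase i, t x with hQ
        have hCQ : C * (t i * Q) = s ^ L := by
          rw [hQ, Finset.mul_prod_erase (range L) t (Finset.mem_range.mpr hiL), h.C_eq]
        have hprod : ∏ x ∈ range L, t x ^ 2 = t i ^ 2 * Q ^ 2 := by
          rw [← Finset.mul_prod_erase (range L) (fun x => t x ^ 2) (Finset.mem_range.mpr hiL), hQ,
            Finset.prod_pow]
        have hprod' : ∏ x ∈ range L, t' x ^ 2 = t' i ^ 2 * Q ^ 2 := by
          rw [← Finset.mul_prod_erase (range L) (fun x => t' x ^ 2) (Finset.mem_range.mpr hiL), hQ,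
            ← Finset.prod_pow]
          congr 1
          refine Finset.prod_congr rfl fun x hx => ?_
          rw [hne x (Finset.mem_range.mp (Finset.mem_of_mem_erase hx)) (Finset.ne_of_mem_erase hx)]
        rw [hprod'] 
        rw [hprod] at h1
        rw [hi]
        have h2 : s ^ (2 * L) = C ^ 2 * t i ^ 2 * Q ^ 2 := by
          rw [mul_comm 2 L, pow_mul, ← hCQ]
          ring
        have h3 : t i ^ 2 ≤ τ ^ 2 := pow_le_pow_left₀ hti.le (hτ2 i hiL) 2
        have h4 : s ^ (2 * L) * a ^ 2 ≤ τ ^ 2 * (C ^ 2 * a ^ 2 * Q ^ 2) := by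
          rw [h2]
          have : 0 ≤ C ^ 2 * a ^ 2 * Q ^ 2 := by positivity
          nlinarith
        nlinarith

/-- The outcome of the reduction, energy version. -/
theorem alg' {L : ℕ} {m : ℕ → ℕ} {G : ℤ →₀ ℂ} {s : ℝ} {M K j0 : ℕ} (hL : 0 < L) (hs : 0 < s)
    (hm : StrictMono m) (hgap : ∀ j, L ≤ j → m (j - L) + m (j - 1) ≤ m j) (hK : j0 ≤ K)
    (hM : ∀ j, j0 < j → M + m (j - 1) ≤ m j)
    (hG : ∀ n : ℤ, n < -(m K : ℤ) → G n = 0)
    (hG2 : ∀ j, 1 ≤ j → ∀ n : ℤ, -(m j : ℤ) < n → n < -(m (j - 1) : ℤ) → G n = 0) :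
    ∃ (f : ℤ →₀ ℂ) (t : ℝ), s ≤ t ∧ (∀ n : ℤ, n < 0 → f n = 0) ∧ f 0 = t ∧
      (∀ n : ℤ, 0 < n → n < M → f n = 0) ∧
      (∀ z : ℂ, ‖z‖ = 1 → ‖ev f z‖ ^ 2 ≤ L * s ^ 2 + ‖ev G z‖ ^ 2) ∧
      s ^ (2 * L) * ∑ j ∈ Finset.Ioc j0 K, ‖G (-(m j : ℤ))‖ ^ 2 ≤ t ^ (2 * (L + 1)) := by
  obtain ⟨eF, e, t, C, h, hen⟩ := inv_iter' (M := M) (K := K) (j0 := j0) hL hs hm hgap hM hG hG2
    (K - j0) (by omega)
  have hKj : K - (K - j0) = j0 := by omega
  rw [hKj] at h hen
  obtain ⟨k, hkL, hkmax⟩ := Finset.exists_max_image (range L) t ⟨0, Finset.mem_range.mpr hL⟩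
  have hkL' : k < L := Finset.mem_range.mp hkL
  have htk : s ≤ t k := h.t_ge k hkL'
  have htk0 : 0 < t k := hs.trans_le htk
  refine ⟨e k, t k, htk, h.e_neg k hkL', h.e_zero k hkL', h.e_M k hkL', ?_, ?_⟩
  · intro z hz
    have h1 := h.norm_eq z hz
    have h2 := Finset.single_le_sum (f := fun i => ‖ev (e i) z‖ ^ 2)
      (fun i _ => sq_nonneg _) hkL
    have h3 := sq_nonneg ‖ev eF z‖
    linarith
  · refine (hen (t k) fun i hi => hkmax i (Finset.mem_range.mpr hi)).trans ?_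
    have h5 : ∏ i ∈ range L, t i ^ 2 ≤ ∏ _i ∈ range L, t k ^ 2 := by
      refine Finset.prod_le_prod (fun i _ => sq_nonneg _) fun i hi => ?_
      exact pow_le_pow_left₀ (hs.trans_le (h.t_ge i (Finset.mem_range.mp hi))).le (hkmax i hi) 2
    rw [Finset.prod_const, Finset.card_range] at h5
    calc t k ^ 2 * ∏ i ∈ range L, t i ^ 2 ≤ t k ^ 2 * (t k ^ 2) ^ L :=
          mul_le_mul_of_nonneg_left h5 (sq_nonneg _)
      _ = t k ^ (2 * (L + 1)) := by
          rw [← pow_mul, ← pow_add]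
          congr 1
          ring

/-- The main inequality, for one Laurent polynomial, energy version. -/
lemma trunc_ineq' {L : ℕ} (hL : 0 < L) {m : ℕ → ℕ} (hm : StrictMono m)
    (hgap : ∀ j, L ≤ j → m (j - L) + m (j - 1) ≤ m j) {M K j0 : ℕ} (hK : j0 ≤ K)
    (hM : ∀ j, j0 < j → M + m (j - 1) ≤ m j) {G : ℤ →₀ ℂ}
    (hG : ∀ n : ℤ, n < -(m K : ℤ) → G n = 0)
    (hG2 : ∀ j, 1 ≤ j → ∀ n : ℤ, -(m j : ℤ) < n → n < -(m (j - 1) : ℤ) → G n = 0)
    {w : ℂ} (hw : ‖w‖ < 1) (hw0 : w ≠ 0) {B : ℝ}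
    (hB : ∫ θ, P w θ * ‖ev G (ze θ)‖ ∂mu ≤ B) (hB0 : ∫ θ, P 0 θ * ‖ev G (ze θ)‖ ∂mu ≤ B)
    {s : ℝ} (hs : 0 < s) (hs1 : s ≤ 1) (hsM : ‖w‖ ^ M * (2 * (L + B)) ≤ s / 2)
    {EE : ℝ} (hE : 0 < EE) (hEG : EE ≤ ∑ j ∈ Finset.Ioc j0 K, ‖G (-(m j : ℤ))‖ ^ 2) :
    2 * ((L * Real.log s + Real.log EE / 2) / (L + 1) - Real.log 2)
      ≤ La w (L * s ^ 2) (fun θ => ev G (ze θ)) := by
  obtain ⟨f, t, hst, hneg, hf0, hfM, hle, hgrow⟩ := alg' hL hs hm hgap hK hM hG hG2
  have ht : 0 < t := hs.trans_le hst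
  have hL1 : (1 : ℝ) ≤ L := by exact_mod_cast hL
  have hbd : ∀ θ, ‖ev f (ze θ)‖ ≤ L + ‖ev G (ze θ)‖ := by
    intro θ
    have h1 := hle _ (norm_ze θ)
    refine le_of_sq_le_sq (h1.trans ?_) (by positivity)
    have h2 : s ^ 2 ≤ 1 := pow_le_one₀ hs.le hs1
    nlinarith [norm_nonneg (ev G (ze θ)), mul_nonneg (Nat.cast_nonneg (α := ℝ) L)
      (norm_nonneg (ev G (ze θ)))]
  have hcG := continuous_ev_ze G
  have hbi : Integrable (fun θ => (L : ℝ) + ‖ev G (ze θ)‖) mu :=
    integrable_of_cont (continuous_const.add hcG.norm)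
  have hint : ∀ v : ℂ, ‖v‖ < 1 → ∫ θ, P v θ * ((L : ℝ) + ‖ev G (ze θ)‖) ∂mu
      = L + ∫ θ, P v θ * ‖ev G (ze θ)‖ ∂mu := by
    intro v hv
    have i1 : Integrable (fun θ => P v θ * (L : ℝ)) mu :=
      integrable_of_cont ((continuous_P hv).mul continuous_const)
    have i2 : Integrable (fun θ => P v θ * ‖ev G (ze θ)‖) mu :=
      integrable_of_cont ((continuous_P hv).mul hcG.norm)
    simp only [mul_add]
    rw [integral_add i1 i2, integral_mul_const, integral_P hv, one_mul]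
  have htle : t ≤ L + B := by
    have h1 := norm_poisson_le (differentiable_ev hneg) (w := 0) (by simp)
    have h2 : ev f 0 = t := by
      rw [ev_eq_sum, Finsupp.sum]
      rw [← hf0]
      by_cases h0 : (0 : ℤ) ∈ f.support
      · rw [Finset.sum_eq_single 0]
        · simp
        · intro n _ hn
          rw [zero_zpow n hn, mul_zero]
        · exact fun h => absurd h0 h
      · rw [Finset.sum_eq_zero]
        · exact (Finsupp.notMem_support_iff.mp h0).symm
        · intro n hn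
          have : n ≠ 0 := fun h => h0 (h ▸ hn)
          rw [zero_zpow n this, mul_zero]
    rw [h2, Complex.norm_real, Real.norm_of_nonneg ht.le] at h1
    refine h1.trans ?_
    have h3 : ∫ θ, P 0 θ * ‖ev f (ze θ)‖ ∂mu ≤ ∫ θ, P 0 θ * ((L : ℝ) + ‖ev G (ze θ)‖) ∂mu := by
      refine integral_mono (integrable_of_cont ((continuous_P (by simp)).mul
        (continuous_ev_ze f).norm)) (integrable_of_cont ((continuous_P (by simp)).mul
        (continuous_const.add hcG.norm))) fun θ => ?_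
      exact mul_le_mul_of_nonneg_left (hbd θ) (P_pos (by simp) θ).le
    rw [hint 0 (by simp)] at h3
    linarith
  have hclose : ‖ev f w - t‖ ≤ s / 2 := by
    refine (gap_bound hneg hf0 hfM ht.le hw hw0 hbi hbd).trans ?_
    rw [hint w hw]
    refine le_trans (mul_le_mul_of_nonneg_left ?_ (by positivity)) hsM
    linarith
  have hlow : t / 2 ≤ ‖ev f w‖ := by
    have h1 := norm_sub_norm_le (t : ℂ) (t - ev f w)
    rw [sub_sub_cancel, Complex.norm_real, Real.norm_of_nonneg ht.le, norm_sub_rev] at h1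
    linarith
  have hj := jensen (differentiable_ev hneg) (v := fun θ => L * s ^ 2 + ‖ev G (ze θ)‖ ^ 2)
    (continuous_const.add (hcG.norm.pow 2)) (fun θ => by positivity)
    (fun θ => hle _ (norm_ze θ)) hw
  have h2 : (t / 2) ^ 2 ≤ Real.exp (La w (L * s ^ 2) (fun θ => ev G (ze θ))) :=
    (pow_le_pow_left₀ (by positivity) hlow 2).trans hj
  have h3 : 2 * Real.log (t / 2) ≤ La w (L * s ^ 2) (fun θ => ev G (ze θ)) := by
    have := Real.log_le_log (by positivity) h2
    rw [Real.log_exp, Real.log_pow] at this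
    exact_mod_cast this
  have hgrow2 : s ^ (2 * L) * EE ≤ t ^ (2 * (L + 1)) :=
    (mul_le_mul_of_nonneg_left hEG (by positivity)).trans hgrow
  have h4 : 2 * L * Real.log s + Real.log EE ≤ 2 * (L + 1) * Real.log t := by
    have := Real.log_le_log (by positivity) hgrow2
    rw [Real.log_mul (by positivity) hE.ne', Real.log_pow, Real.log_pow] at this
    push_cast at this
    exact this
  have h5 : (L * Real.log s + Real.log EE / 2) / (L + 1) ≤ Real.log t := by
    rw [div_le_iff₀ (by positivity)]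
    linarith
  rw [Real.log_div ht.ne' two_ne_zero] at h3
  linarith

end

end Pool.Agent.H197.HLQ
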