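import Pool.Agent.H197.HLQ.Step

/-!
# Conclusion of the induction and passage to the limit
-/

namespace Pool.Agent.H197.HLQ

noncomputable section

open MeasureTheory AddCircle Complex Set Filter Topology
open Pool.Agent.W767.HL

variable {L : ℕ} {m : ℕ → ℕ} {η₀ : ℝ} {c : ℤ → ℂ}

/-- The claim holds at all levels. -/
theorem Dat.claim (d : Dat L m η₀ c) {n₀ : ℤ} (hn₀ : c n₀ ≠ 0) :
    ∃ p A : ℝ, 0 < p ∧ p ≤ 1 / 8 ∧ 1 ≤ A ∧ ∀ u, 0 < u → Cl m c n₀.natAbs A p u := by
  obtain ⟨p, hp0, hp1, hev⟩ := d.step hn₀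
  obtain ⟨v₀, hv₀⟩ := eventually_atTop.mp hev
  set V := max v₀ 1 with hV
  have hV1 : 1 ≤ V := le_max_right _ _
  have hV0 : 0 < V := by linarith
  have hVv : v₀ ≤ V := le_max_left _ _
  have hVp : 1 ≤ V ^ p := Real.one_le_rpow hV1 hp0.le
  refine ⟨p, V ^ p, hp0, hp1, hVp, ?_⟩
  have key : ∀ n : ℕ, ∀ u, 0 < u → u ≤ 2 ^ n * V → Cl m c n₀.natAbs (V ^ p) p u := by
    intro n
    induction n with
    | zero =>
        intro u hu0 hu i N y _ _ _ _ _
        rw [pow_zero, one_mul] at hu
        refine (mu_le_one _).trans ?_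
        rw [Real.rpow_neg hu0.le, ← div_eq_mul_inv, one_le_div (Real.rpow_pos_of_pos hu0 _)]
        exact Real.rpow_le_rpow hu0.le hu hp0.le
    | succ n ih =>
        intro u hu0 hu
        rcases le_or_gt u V with h1 | h1
        · exact ih u hu0 (h1.trans (le_mul_of_one_le_left hV0.le (one_le_pow₀ one_le_two)))
        · refine hv₀ u (hVv.trans h1.le) (V ^ p) hVp fun u' hu1 hu2 => ih u' ?_ ?_
          · exact lt_of_lt_of_le (rt_pos hu0) hu1
          · rw [pow_succ] at hu
            linarith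
  intro u hu
  obtain ⟨n, hn⟩ : ∃ n : ℕ, u / V < 2 ^ n := pow_unbounded_of_one_lt _ one_lt_two
  refine key n u hu ?_
  rw [div_lt_iff₀ hV0] at hn
  exact hn.le

/-- Removal of vanishing coefficients at the end of a truncation. -/
lemma Dat.trim (d : Dat L m η₀ c) (K : ℕ) : ∃ i ≤ K, (∀ k, 1 ≤ k → k ≤ i → 0 < En m c k) ∧
    En m c (i + 1) ≤ En m c K ∧ ∀ N, tr c (-(m K : ℤ)) N = tr c (-(m i : ℤ)) N := by
  classical
  set i := Nat.findGreatest (fun k => 0 < En m c k) K with hi
  have hiK : i ≤ K := Nat.findGreatest_le K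
  have hpos : ∀ k, 1 ≤ k → k ≤ i → 0 < En m c k := by
    intro k h1 h2
    have h3 : 0 < En m c i := Nat.findGreatest_of_ne_zero (m := i) hi.symm (by omega)
    exact h3.trans_le (d.En_anti h2)
  have hzero : ∀ k, i < k → k ≤ K → En m c k = 0 := by
    intro k h1 h2
    have h3 : ¬ 0 < En m c k := Nat.findGreatest_is_greatest (P := fun k => 0 < En m c k)
      (by rw [← hi]; exact h1) h2
    exact le_antisymm (not_lt.mp h3) (En_nonneg m c k)
  refine ⟨i, hiK, hpos, ?_, ?_⟩
  · rcases hiK.eq_or_lt with h1 | h1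
    · rw [h1]
      exact d.En_anti (Nat.le_succ K)
    · rw [hzero (i + 1) (Nat.lt_succ_self i) h1]
      exact En_nonneg m c K
  · intro N
    ext n
    rw [tr_apply, tr_apply]
    have hmm : (m i : ℤ) ≤ m K := by exact_mod_cast d.hm.monotone hiK
    by_cases h1 : -(m i : ℤ) ≤ n ∧ n ≤ N
    · rw [if_pos h1, if_pos (by omega)]
    · rw [if_neg h1]
      by_cases h2 : -(m K : ℤ) ≤ n ∧ n ≤ N
      · rw [if_pos h2]
        -- the coefficient vanishes
        have hn : n < -(m i : ℤ) := by omega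
        by_contra hne
        have hn0 : n < 0 := by
          have : (0 : ℤ) ≤ m i := by positivity
          omega
        obtain ⟨k, hk1, hk2⟩ := d.freq hn0 hne
        have hik : i < k := by
          by_contra h3
          push Not at h3
          have : (m k : ℤ) ≤ m i := by exact_mod_cast d.hm.monotone h3
          omega
        have hkK : k ≤ K := by
          by_contra h3
          push Not at h3
          have : (m K : ℤ) < m k := by exact_mod_cast d.hm h3
          omega
        have h4 := hzero k hik hkK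
        rw [d.En_succ k, ← hk2] at h4
        have h5 := En_nonneg m c (k + 1)
        have h6 : ‖c n‖ ^ 2 = 0 := le_antisymm (by linarith) (sq_nonneg _)
        exact hne (by simpa using h6)
      · rw [if_neg h2]

/-- The tail bound for the limit function. -/
theorem Dat.tail_fun (d : Dat L m η₀ c) {g : Ci → ℂ} (hg : Integrable g mu) {Nn : ℕ → ℕ}
    (hN : Tendsto Nn atTop atTop)
    (hlim : Tendsto (fun K => ∫ θ, ‖ev (tr c (-(m K : ℤ)) (Nn K)) (ze θ) - g θ‖ ∂mu) atTop (𝓝 0))
    {N₀ : ℕ} {A p : ℝ} (hcl : ∀ u, 0 < u → Cl m c N₀ A p u) {u : ℝ} (hu : 2 ≤ u) :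
    mu.real {θ | ‖g θ‖ ≤ Real.exp (-u)} ≤ A * (u - 1) ^ (-p) := by
  have hlim2 : Tendsto (fun K => A * (u - 1) ^ (-p) +
      (∫ θ, ‖ev (tr c (-(m K : ℤ)) (Nn K)) (ze θ) - g θ‖ ∂mu) / Real.exp (-u)) atTop
      (𝓝 (A * (u - 1) ^ (-p) + 0 / Real.exp (-u))) :=
    tendsto_const_nhds.add (hlim.div_const _)
  rw [zero_div, add_zero] at hlim2
  refine ge_of_tendsto hlim2 ?_
  have hEn : ∀ᶠ K in atTop, En m c K ≤ Real.exp (-2 * (u - 1)) :=
    d.En_tendsto.eventually_le_const (Real.exp_pos _)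
  filter_upwards [hN.eventually_ge_atTop N₀, hEn] with K hK1 hK2
  obtain ⟨i, hiK, hpos, hEi, htr⟩ := d.trim K
  have hev : ∀ θ : Ci, ev (tr c (-(m K : ℤ)) (Nn K)) (ze θ) = ev (gg m c i (Nn K) 0) (ze θ) := by
    intro θ
    rw [htr (Nn K), gg, ev_dil, neg_zero, Real.exp_zero, ofReal_one, one_mul]
  have hcl' := hcl (u - 1) (by linarith) i (Nn K) 0 le_rfl zero_le_one hK1 (by
    intro k h1 h2
    refine ⟨hpos k h1 h2, ?_⟩
    rw [mul_zero]
    have h3 := d.eta_nonneg k
    have h4 := Real.log_nonneg (show 1 ≤ u - 1 by linarith)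
    positivity) (hEi.trans hK2)
  set f : Ci → ℂ := fun θ => ev (tr c (-(m K : ℤ)) (Nn K)) (ze θ) with hf
  have hfi : Integrable f mu := integrable_of_cont (continuous_ev_ze _)
  have hsub : {θ | ‖g θ‖ ≤ Real.exp (-u)} ⊆ Sm (gg m c i (Nn K) 0) (u - 1)
      ∪ {θ | Real.exp (-u) < ‖f θ - g θ‖} := by
    intro θ hθ
    by_cases h1 : Real.exp (-u) < ‖f θ - g θ‖
    · exact Or.inr h1
    · left
      push Not at h1
      have h2 : ‖g θ‖ ≤ Real.exp (-u) := hθ
      show ‖ev (gg m c i (Nn K) 0) (ze θ)‖ ≤ Real.exp (-(u - 1))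
      rw [← hev]
      have h3 : ‖f θ‖ ≤ ‖f θ - g θ‖ + ‖g θ‖ := by
        have := norm_add_le (f θ - g θ) (g θ)
        rwa [sub_add_cancel] at this
      have h4 : Real.exp (-(u - 1)) = Real.exp (-u) * Real.exp 1 := by
        rw [← Real.exp_add]
        congr 1
        ring
      have h5 : 2 ≤ Real.exp 1 := by
        have := Real.add_one_le_exp (1 : ℝ)
        linarith
      rw [h4]
      have h6 := mul_le_mul_of_nonneg_left h5 (Real.exp_pos (-u)).le
      linarith
  refine (measureReal_mono hsub).trans ((measureReal_union_le _ _).trans (add_le_add hcl' ?_))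
  exact markov (h := fun θ => ‖f θ - g θ‖) (hfi.sub hg).norm (fun _ => norm_nonneg _)
    (Real.exp_pos _)

/-- From tail bounds to integrability of a power of the logarithm. -/
theorem memLp_log {g : Ci → ℂ} (hg : Integrable g mu) {A p : ℝ} (hp0 : 0 < p) (hp1 : p ≤ 1 / 8)
    (hA : 0 ≤ A)
    (htail : ∀ u : ℝ, 2 ≤ u → mu.real {θ | ‖g θ‖ ≤ Real.exp (-u)} ≤ A * (u - 1) ^ (-p)) :
    (∀ᵐ θ ∂mu, g θ ≠ 0) ∧ MemLp (fun θ => Real.log ‖g θ‖) (ENNReal.ofReal (p / 2)) mu := by
  constructor
  · -- almost everywhere nonzero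
    have h1 : mu.real {θ | g θ = 0} ≤ 0 := by
      have hl : Tendsto (fun u : ℝ => A * (u - 1) ^ (-p)) atTop (𝓝 (A * 0)) := by
        refine Tendsto.const_mul A ((tendsto_rpow_neg_atTop hp0).comp ?_)
        exact tendsto_atTop_add_const_right _ _ tendsto_id
      rw [mul_zero] at hl
      refine ge_of_tendsto hl ?_
      filter_upwards [eventually_ge_atTop 2] with u hu
      refine (measureReal_mono fun θ hθ => ?_).trans (htail u hu)
      have h2 : g θ = 0 := hθ
      show ‖g θ‖ ≤ Real.exp (-u)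
      rw [h2, norm_zero]
      exact (Real.exp_pos _).le
    have h2 : mu {θ | g θ = 0} = 0 := by
      have h3 : mu.real {θ | g θ = 0} = 0 := le_antisymm h1 measureReal_nonneg
      rwa [Measure.real, ENNReal.toReal_eq_zero_iff, or_iff_left (measure_ne_top _ _)] at h3
    rw [ae_iff]
    simpa using h2
  · set q := p / 2 with hq
    have hq0 : 0 < q := by positivity
    have hmeas : AEMeasurable (fun θ => ‖g θ‖) mu := hg.1.norm.aemeasurable
    have hlm : AEMeasurable (fun θ => Real.log ‖g θ‖) mu :=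
      Real.measurable_log.comp_aemeasurable hmeas
    refine ⟨hlm.aestronglyMeasurable, ?_⟩
    have hq1 : ENNReal.ofReal q ≠ 0 := by
      rw [Ne, ENNReal.ofReal_eq_zero, not_le]
      exact hq0
    rw [eLpNorm_lt_top_iff_lintegral_rpow_enorm_lt_top hq1 ENNReal.ofReal_ne_top,
      ENNReal.toReal_ofReal hq0.le]
    have he : ∀ θ, ‖Real.log ‖g θ‖‖ₑ ^ q = ENNReal.ofReal (|Real.log ‖g θ‖| ^ q) := by
      intro θ
      rw [← ENNReal.ofReal_rpow_of_nonneg (abs_nonneg _) hq0.le, ← Real.norm_eq_abs,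
        ofReal_norm_eq_enorm]
    simp only [he]
    rw [lintegral_rpow_eq_lintegral_meas_lt_mul mu (Filter.Eventually.of_forall fun θ =>
      abs_nonneg _) (continuous_abs.measurable.comp_aemeasurable hlm) hq0]
    refine ENNReal.mul_lt_top ENNReal.ofReal_lt_top ?_
    -- the tail of the logarithm
    set M := ∫ θ, ‖g θ‖ ∂mu with hM
    have hM0 : 0 ≤ M := integral_nonneg fun _ => norm_nonneg _
    set C := A * 2 ^ p + M with hC
    have hC0 : 0 ≤ C := by positivity
    have htl : ∀ t : ℝ, 2 ≤ t → mu {θ | t < |Real.log ‖g θ‖|} ≤ ENNReal.ofReal (C * t ^ (-p)) := by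
      intro t ht
      have ht0 : 0 < t := by linarith
      have hsub : {θ | t < |Real.log ‖g θ‖|} ⊆ {θ | ‖g θ‖ ≤ Real.exp (-t)}
          ∪ {θ | Real.exp t < ‖g θ‖} := by
        intro θ hθ
        have h1 : t < |Real.log ‖g θ‖| := hθ
        have h2 : ‖g θ‖ ≠ 0 := by
          intro h
          rw [h, Real.log_zero, abs_zero] at h1
          linarith
        have h3 : 0 < ‖g θ‖ := lt_of_le_of_ne (norm_nonneg _) (Ne.symm h2)
        rcases lt_abs.mp h1 with h4 | h4
        · right
          show Real.exp t < ‖g θ‖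
          rwa [← Real.lt_log_iff_exp_lt h3]
        · left
          show ‖g θ‖ ≤ Real.exp (-t)
          rw [← Real.log_le_iff_le_exp h3]
          linarith
      have h1 : mu.real {θ | t < |Real.log ‖g θ‖|} ≤ C * t ^ (-p) := by
        refine (measureReal_mono hsub).trans ((measureReal_union_le _ _).trans ?_)
        have h2 := htail t ht
        have h3 := markov hg.norm (fun _ => norm_nonneg _) (Real.exp_pos t)
        have h4 : (t - 1) ^ (-p) ≤ 2 ^ p * t ^ (-p) := by
          have h5 : (t - 1) ^ (-p) ≤ (t / 2) ^ (-p) :=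
            Real.rpow_le_rpow_of_nonpos (by linarith) (by linarith) (by linarith)
          rwa [rpow_neg_div ht0 two_pos, mul_comm] at h5
        have h5 : M / Real.exp t ≤ M * t ^ (-p) := by
          rw [div_eq_mul_inv, Real.rpow_neg ht0.le]
          refine mul_le_mul_of_nonneg_left ?_ hM0
          refine inv_anti₀ (Real.rpow_pos_of_pos ht0 _) ?_
          calc t ^ p ≤ t ^ (1 : ℝ) := Real.rpow_le_rpow_of_exponent_le (by linarith) (by linarith)
            _ = t := Real.rpow_one t
            _ ≤ Real.exp t := by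
                have := Real.add_one_le_exp t
                linarith
        have h6 := mul_le_mul_of_nonneg_left h4 hA
        rw [hC, add_mul]
        have h7 : A * 2 ^ p * t ^ (-p) = A * (2 ^ p * t ^ (-p)) := by ring
        rw [h7]
        exact add_le_add (h2.trans h6) (h3.trans h5)
      rw [← ENNReal.ofReal_toReal (measure_ne_top mu {θ | t < |Real.log ‖g θ‖|})]
      exact ENNReal.ofReal_le_ofReal h1
    have hsplit : Set.Ioi (0 : ℝ) = Set.Ioc 0 2 ∪ Set.Ioi 2 := by
      rw [Set.Ioc_union_Ioi_eq_Ioi (by norm_num)]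
    rw [hsplit]
    refine lt_of_le_of_lt (lintegral_union_le _ _ _) (ENNReal.add_lt_top.mpr ⟨?_, ?_⟩)
    · have h1 : ∫⁻ t in Set.Ioc (0 : ℝ) 2, mu {θ | t < |Real.log ‖g θ‖|} *
          ENNReal.ofReal (t ^ (q - 1)) ≤ ∫⁻ t in Set.Ioc (0 : ℝ) 2, ENNReal.ofReal (t ^ (q - 1)) := by
        refine lintegral_mono fun t => ?_
        calc _ ≤ 1 * ENNReal.ofReal (t ^ (q - 1)) := by
              gcongr
              exact prob_le_one
          _ = _ := one_mul _
      refine lt_of_le_of_lt h1 ?_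
      have h2 : IntegrableOn (fun t : ℝ => t ^ (q - 1)) (Set.Ioc 0 2) := by
        have := intervalIntegral.intervalIntegrable_rpow' (a := 0) (b := 2) (r := q - 1)
          (by linarith)
        rwa [intervalIntegrable_iff_integrableOn_Ioc_of_le (by norm_num)] at this
      exact h2.lintegral_lt_top
    · have h1 : ∫⁻ t in Set.Ioi (2 : ℝ), mu {θ | t < |Real.log ‖g θ‖|} *
          ENNReal.ofReal (t ^ (q - 1)) ≤
          ∫⁻ t in Set.Ioi (2 : ℝ), ENNReal.ofReal (C * t ^ (-p + (q - 1))) := by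
        refine setLIntegral_mono' measurableSet_Ioi fun t ht => ?_
        have ht2 : 2 ≤ t := le_of_lt ht
        have ht0 : 0 < t := by linarith
        calc _ ≤ ENNReal.ofReal (C * t ^ (-p)) * ENNReal.ofReal (t ^ (q - 1)) := by
              gcongr
              exact htl t ht2
          _ = _ := by
              rw [← ENNReal.ofReal_mul (by positivity), mul_assoc, ← Real.rpow_add ht0]
      refine lt_of_le_of_lt h1 ?_
      have h2 : IntegrableOn (fun t : ℝ => C * t ^ (-p + (q - 1))) (Set.Ioi 2) :=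
        (integrableOn_Ioi_rpow_of_lt (by rw [hq]; linarith) two_pos).const_mul C
      exact h2.lintegral_lt_top

end

end Pool.Agent.H197.HLQ
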