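import Pool.Agent.H197.HLQ.Energy

/-!
# Poisson kernels, arcs, averages over the circle
-/

namespace Pool.Agent.H197.HLQ

noncomputable section

open MeasureTheory AddCircle Complex Set
open Pool.Agent.W767.HL

/-- Arcs of the circle, defined by the chord distance. -/
def arc (θ : Ci) (l : ℝ) : Set Ci := {x | ‖ze x - ze θ‖ ≤ l}

lemma mem_arc_comm {θ x : Ci} {l : ℝ} : x ∈ arc θ l ↔ θ ∈ arc x l := by
  simp only [arc, mem_ofPred_eq, norm_sub_rev]

lemma isClosed_arc (θ : Ci) (l : ℝ) : IsClosed (arc θ l) :=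
  isClosed_le (continuous_ze.sub continuous_const).norm continuous_const

lemma measurableSet_arc (θ : Ci) (l : ℝ) : MeasurableSet (arc θ l) :=
  (isClosed_arc θ l).measurableSet

lemma rze_norm_lt {ρ : ℝ} (h0 : 0 ≤ ρ) (h1 : ρ < 1) (θ : Ci) : ‖(ρ : ℂ) * ze θ‖ < 1 := by
  rw [norm_rze h0]
  exact h1

lemma rze_sub {ρ : ℝ} (h1 : ρ ≤ 1) (θ : Ci) : ‖ze θ - (ρ : ℂ) * ze θ‖ = 1 - ρ := by
  have : ze θ - (ρ : ℂ) * ze θ = ((1 - ρ : ℝ) : ℂ) * ze θ := by push_cast; ring
  rw [this, norm_mul, norm_ze, mul_one, Complex.norm_real, Real.norm_of_nonneg (by linarith)]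

/-- Lower bound of the Poisson kernel. -/
lemma P_ge {w : ℂ} (hw : ‖w‖ < 1) (x : Ci) {d : ℝ} (hd : ‖ze x - w‖ ≤ d) :
    (1 - ‖w‖) / d ^ 2 ≤ P w x := by
  have h := dist_pos w x
  have h0 : 0 < 1 - ‖w‖ := by linarith
  have h1 : 0 < ‖ze x - w‖ := by linarith
  unfold P
  have h2 : ‖ze x - w‖ ^ 2 ≤ d ^ 2 := pow_le_pow_left₀ h1.le hd 2
  have h3 : 1 - ‖w‖ ≤ 1 - ‖w‖ ^ 2 := by nlinarith [norm_nonneg w]
  exact div_le_div₀ (by linarith) h3 (by positivity) h2

/-- Far from `θ`, the Poisson kernel of a point close to the boundary is dominated by that of a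
point further away. -/
lemma P_far {ρ l : ℝ} (h0 : 0 ≤ ρ) (h1 : ρ < 1) (hl : 2 * (1 - ρ) ≤ l) (hl1 : l ≤ 1) {θ x : Ci}
    (hx : l ≤ ‖ze x - ze θ‖) :
    P ((ρ : ℂ) * ze θ) x ≤ 32 * (1 - ρ) / l * P (((1 - l : ℝ) : ℂ) * ze θ) x := by
  have hl0 : 0 < l := by linarith
  set d := ‖ze x - ze θ‖ with hd
  have hd0 : 0 < d := lt_of_lt_of_le hl0 hx
  have h3 : d / 2 ≤ ‖ze x - (ρ : ℂ) * ze θ‖ := by
    have h4 := norm_sub_le_norm_sub_add_norm_sub (ze x) ((ρ : ℂ) * ze θ) (ze θ)
    rw [norm_sub_rev ((ρ : ℂ) * ze θ), rze_sub h1.le] at h4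
    linarith
  have h5 : ‖ze x - ((1 - l : ℝ) : ℂ) * ze θ‖ ≤ 2 * d := by
    have h4 := norm_sub_le_norm_sub_add_norm_sub (ze x) (ze θ) (((1 - l : ℝ) : ℂ) * ze θ)
    rw [rze_sub (by linarith)] at h4
    linarith
  have h6 := P_ge (w := ((1 - l : ℝ) : ℂ) * ze θ) (by rw [norm_rze (by linarith)]; linarith) x h5
  rw [norm_rze (by linarith)] at h6
  have h7 : P ((ρ : ℂ) * ze θ) x ≤ 2 * (1 - ρ) / (d / 2) ^ 2 := by
    unfold P
    rw [norm_rze h0]
    have h8 : (d / 2) ^ 2 ≤ ‖ze x - (ρ : ℂ) * ze θ‖ ^ 2 := pow_le_pow_left₀ (by positivity) h3 2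
    exact div_le_div₀ (by linarith) (by nlinarith) (by positivity) h8
  calc P ((ρ : ℂ) * ze θ) x ≤ 2 * (1 - ρ) / (d / 2) ^ 2 := h7
    _ = 32 * (1 - ρ) / l * ((1 - (1 - l)) / (2 * d) ^ 2) := by
        field_simp
        ring
    _ ≤ _ := mul_le_mul_of_nonneg_left h6 (div_nonneg (by linarith) hl0.le)

/-- The mass of the Poisson kernel outside of an arc. -/
lemma P_tail {ρ l : ℝ} (h0 : 0 ≤ ρ) (h1 : ρ < 1) (hl : 2 * (1 - ρ) ≤ l) (hl1 : l ≤ 1) (θ : Ci) :
    ∫ x in (arc θ l)ᶜ, P ((ρ : ℂ) * ze θ) x ∂mu ≤ 32 * (1 - ρ) / l := by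
  have hl0 : 0 < l := by linarith
  have hn : ‖((1 - l : ℝ) : ℂ) * ze θ‖ < 1 := by rw [norm_rze (by linarith)]; linarith
  have hi1 := integrable_of_cont (continuous_P (rze_norm_lt h0 h1 θ))
  have hi2 := integrable_of_cont (continuous_P hn)
  have hc : 0 ≤ 32 * (1 - ρ) / l := div_nonneg (by linarith) hl0.le
  calc ∫ x in (arc θ l)ᶜ, P ((ρ : ℂ) * ze θ) x ∂mu
      ≤ ∫ x in (arc θ l)ᶜ, 32 * (1 - ρ) / l * P (((1 - l : ℝ) : ℂ) * ze θ) x ∂mu := by
        refine setIntegral_mono_on hi1.integrableOn (hi2.const_mul _).integrableOn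
          (measurableSet_arc θ l).compl fun x hx => ?_
        refine P_far h0 h1 hl hl1 ?_
        simp only [arc, mem_compl_iff, mem_ofPred_eq, not_le] at hx
        exact hx.le
    _ ≤ ∫ x, 32 * (1 - ρ) / l * P (((1 - l : ℝ) : ℂ) * ze θ) x ∂mu :=
        setIntegral_le_integral (hi2.const_mul _) (Filter.Eventually.of_forall fun x =>
          mul_nonneg hc (P_pos hn x).le)
    _ = 32 * (1 - ρ) / l := by rw [integral_const_mul, integral_P hn, mul_one]

lemma P_arc {ρ l : ℝ} (h0 : 0 ≤ ρ) (h1 : ρ < 1) (hl : 2 * (1 - ρ) ≤ l) (hl1 : l ≤ 1) (θ : Ci) :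
    1 - 32 * (1 - ρ) / l ≤ ∫ x in arc θ l, P ((ρ : ℂ) * ze θ) x ∂mu := by
  have h := integral_add_compl (measurableSet_arc θ l)
    (integrable_of_cont (continuous_P (rze_norm_lt h0 h1 θ)))
  rw [integral_P (rze_norm_lt h0 h1 θ)] at h
  have := P_tail h0 h1 hl hl1 θ
  linarith

/-- An arc of chord radius `l` has measure at least `l / 256`. -/
lemma arc_ge {l : ℝ} (hl : 0 < l) (hl1 : l ≤ 1) (θ : Ci) : l / 256 ≤ mu.real (arc θ l) := by
  have h1 := P_arc (ρ := 1 - l / 64) (by linarith) (by linarith) (by linarith) hl1 θ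
  have h2 : ‖((1 - l / 64 : ℝ) : ℂ) * ze θ‖ < 1 := rze_norm_lt (by linarith) (by linarith) θ
  have h3 : ∫ x in arc θ l, P (((1 - l / 64 : ℝ) : ℂ) * ze θ) x ∂mu
      ≤ ∫ x in arc θ l, 128 / l ∂mu := by
    refine setIntegral_mono_on (integrable_of_cont (continuous_P h2)).integrableOn
      (integrable_const _) (measurableSet_arc θ l) fun x _ => ?_
    refine (P_le h2 x).trans (le_of_eq ?_)
    rw [norm_rze (by linarith)]
    have : 1 - (1 - l / 64) = l / 64 := by ring
    rw [this, div_div_eq_mul_div]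
    norm_num
  rw [setIntegral_const, smul_eq_mul] at h3
  have h4 : 32 * (1 - (1 - l / 64)) / l = 1 / 2 := by
    field_simp
    ring
  rw [h4] at h1
  have h5 : 1 / 2 ≤ mu.real (arc θ l) * (128 / l) := by linarith
  have h6 : mu.real (arc θ l) * (128 / l) = mu.real (arc θ l) * 128 / l := by ring
  rw [h6, le_div_iff₀ hl] at h5
  linarith

/-- Averaging a symmetric kernel over a set. -/
lemma kern_avg {k : Ci → Ci → ℝ} (hk : Measurable (Function.uncurry k)) (hk0 : ∀ θ x, 0 ≤ k θ x)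
    (hsymm : ∀ θ x, k θ x = k x θ) {C : ℝ} (hC : ∀ θ x, k θ x ≤ C) {κ : ℝ}
    (hκ : ∀ x, κ ≤ ∫ θ, k x θ ∂mu) {E : Set Ci} (_hE : MeasurableSet E) :
    κ * mu.real E ≤ ∫ θ, ∫ x in E, k θ x ∂mu ∂mu := by
  have hprod : Integrable (Function.uncurry k) (mu.prod (mu.restrict E)) := by
    refine Integrable.of_bound hk.aestronglyMeasurable C (Filter.Eventually.of_forall fun p => ?_)
    rw [Function.uncurry, Real.norm_of_nonneg (hk0 _ _)]
    exact hC _ _
  have hswap : ∫ θ, ∫ x in E, k θ x ∂mu ∂mu = ∫ x in E, ∫ θ, k θ x ∂mu ∂mu :=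
    integral_integral_swap hprod
  rw [hswap]
  have h1 : ∫ x in E, κ ∂mu ≤ ∫ x in E, ∫ θ, k θ x ∂mu ∂mu := by
    refine integral_mono (integrable_const _) hprod.integral_prod_right fun x => ?_
    refine (hκ x).trans (le_of_eq ?_)
    exact integral_congr_ae (Filter.Eventually.of_forall fun θ => hsymm _ _)
  rw [setIntegral_const, smul_eq_mul, mul_comm] at h1
  exact h1

lemma measurable_ze : Measurable ze := continuous_ze.measurable

lemma measurable_arcind (l : ℝ) :
    Measurable (Function.uncurry fun θ x : Ci => (arc θ l).indicator (fun _ => (1 : ℝ)) x) := by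
  have h : (Function.uncurry fun θ x : Ci => (arc θ l).indicator (fun _ => (1 : ℝ)) x)
      = ({p : Ci × Ci | ‖ze p.2 - ze p.1‖ ≤ l}).indicator (fun _ => (1 : ℝ)) := by
    ext p
    by_cases hp : ‖ze p.2 - ze p.1‖ ≤ l
    · rw [Set.indicator_of_mem (show p ∈ {p : Ci × Ci | ‖ze p.2 - ze p.1‖ ≤ l} from hp),
        Function.uncurry, Set.indicator_of_mem (show p.2 ∈ arc p.1 l from hp)]
    · rw [Set.indicator_of_notMem (show p ∉ {p : Ci × Ci | ‖ze p.2 - ze p.1‖ ≤ l} from hp),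
        Function.uncurry, Set.indicator_of_notMem (show p.2 ∉ arc p.1 l from hp)]
  rw [h]
  refine Measurable.indicator measurable_const ?_
  exact measurableSet_le (((measurable_ze.comp measurable_snd).sub
    (measurable_ze.comp measurable_fst)).norm) measurable_const

lemma arcind_symm (l : ℝ) (θ x : Ci) :
    (arc θ l).indicator (fun _ => (1 : ℝ)) x = (arc x l).indicator (fun _ => (1 : ℝ)) θ := by
  by_cases h : x ∈ arc θ l
  · rw [Set.indicator_of_mem h, Set.indicator_of_mem (mem_arc_comm.mp h)]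
  · rw [Set.indicator_of_notMem h, Set.indicator_of_notMem (fun h' => h (mem_arc_comm.mp h'))]

/-- Averages over small arcs. -/
lemma arc_avg {l : ℝ} (hl : 0 < l) (hl1 : l ≤ 1) {E : Set Ci} (hE : MeasurableSet E) :
    l / 256 * mu.real E ≤ ∫ θ, mu.real (E ∩ arc θ l) ∂mu := by
  have h := kern_avg (k := fun θ x => (arc θ l).indicator (fun _ => (1 : ℝ)) x)
    (measurable_arcind l) (fun θ x => Set.indicator_nonneg (fun _ _ => zero_le_one) _)
    (arcind_symm l) (C := 1) (fun θ x => by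
      by_cases hx : x ∈ arc θ l
      · rw [Set.indicator_of_mem hx]
      · rw [Set.indicator_of_notMem hx]; exact zero_le_one) (κ := l / 256) (fun x => by
      rw [integral_indicator (measurableSet_arc x l), setIntegral_const, smul_eq_mul, mul_one]
      exact arc_ge hl hl1 x) hE
  refine h.trans (le_of_eq ?_)
  refine integral_congr_ae (Filter.Eventually.of_forall fun θ => ?_)
  simp only
  rw [integral_indicator (measurableSet_arc θ l), Measure.restrict_restrict
    (measurableSet_arc θ l), setIntegral_const, smul_eq_mul, mul_one, Set.inter_comm]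

lemma continuous_P2 {ρ : ℝ} (h0 : 0 ≤ ρ) (h1 : ρ < 1) :
    Continuous fun p : Ci × Ci => P ((ρ : ℂ) * ze p.1) p.2 := by
  unfold P
  have h3 : Continuous fun p : Ci × Ci => (ρ : ℂ) * ze p.1 :=
    continuous_const.mul (continuous_ze.comp continuous_fst)
  refine Continuous.div (continuous_const.sub (h3.norm.pow 2))
    (((continuous_ze.comp continuous_snd).sub h3).norm.pow 2) fun p => ?_
  have h4 := dist_pos ((ρ : ℂ) * ze p.1) p.2
  have h5 := rze_norm_lt h0 h1 p.1
  have h6 : 0 < ‖ze p.2 - (ρ : ℂ) * ze p.1‖ := by linarith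
  positivity

/-- Averages over arcs with respect to harmonic measures. -/
lemma P_avg {ρ l κ : ℝ} (h0 : 0 ≤ ρ) (h1 : ρ < 1) (hl : 2 * (1 - ρ) ≤ l) (hl1 : l ≤ 1)
    (hκ : κ ≤ 1 - 32 * (1 - ρ) / l) {E : Set Ci} (hE : MeasurableSet E) :
    κ * mu.real E ≤ ∫ θ, ∫ x in E ∩ arc θ l, P ((ρ : ℂ) * ze θ) x ∂mu ∂mu := by
  have hm : Measurable (Function.uncurry fun θ x : Ci => P ((ρ : ℂ) * ze θ) x *
      (arc θ l).indicator (fun _ => (1 : ℝ)) x) :=
    (continuous_P2 h0 h1).measurable.mul (measurable_arcind l)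
  have hind : ∀ θ x : Ci, P ((ρ : ℂ) * ze θ) x * (arc θ l).indicator (fun _ => (1 : ℝ)) x
      = (arc θ l).indicator (P ((ρ : ℂ) * ze θ)) x := by
    intro θ x
    by_cases hx : x ∈ arc θ l
    · rw [Set.indicator_of_mem hx, Set.indicator_of_mem hx, mul_one]
    · rw [Set.indicator_of_notMem hx, Set.indicator_of_notMem hx, mul_zero]
  have h := kern_avg (k := fun θ x => P ((ρ : ℂ) * ze θ) x *
      (arc θ l).indicator (fun _ => (1 : ℝ)) x) hm
    (fun θ x => mul_nonneg (P_pos (rze_norm_lt h0 h1 θ) x).le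
      (Set.indicator_nonneg (fun _ _ => zero_le_one) _))
    (fun θ x => by rw [P_symm h0, arcind_symm]) (C := 2 / (1 - ρ)) (fun θ x => by
      rw [hind]
      have h2 := P_le (rze_norm_lt h0 h1 θ) x
      rw [norm_rze h0] at h2
      by_cases hx : x ∈ arc θ l
      · rw [Set.indicator_of_mem hx]
        exact h2
      · rw [Set.indicator_of_notMem hx]
        exact div_nonneg two_pos.le (by linarith)) (κ := κ) (fun x => by
      simp only [hind]
      rw [integral_indicator (measurableSet_arc x l)]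
      exact hκ.trans (P_arc h0 h1 hl hl1 x)) hE
  refine h.trans (le_of_eq ?_)
  refine integral_congr_ae (Filter.Eventually.of_forall fun θ => ?_)
  simp only [hind]
  rw [integral_indicator (measurableSet_arc θ l), Measure.restrict_restrict
    (measurableSet_arc θ l), Set.inter_comm]

/-- The average over `θ` of a Poisson integral. -/
lemma P_fubini {ρ : ℝ} (h0 : 0 ≤ ρ) (h1 : ρ < 1) {h : Ci → ℝ} (hh : Integrable h mu) :
    Integrable (fun θ => ∫ x, P ((ρ : ℂ) * ze θ) x * h x ∂mu) mu ∧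
      ∫ θ, ∫ x, P ((ρ : ℂ) * ze θ) x * h x ∂mu ∂mu = ∫ x, h x ∂mu := by
  have hprod : Integrable (Function.uncurry fun θ x => P ((ρ : ℂ) * ze θ) x * h x)
      (mu.prod mu) := by
    have h3 : Integrable (fun p : Ci × Ci => h p.2) (mu.prod mu) := Integrable.comp_snd hh mu
    exact h3.bdd_mul (c := 2 / (1 - ρ)) (f := fun p : Ci × Ci => P ((ρ : ℂ) * ze p.1) p.2)
      (continuous_P2 h0 h1).aestronglyMeasurable (Filter.Eventually.of_forall fun p => by
        rw [Real.norm_of_nonneg (P_pos (rze_norm_lt h0 h1 p.1) p.2).le]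
        have := P_le (rze_norm_lt h0 h1 p.1) p.2
        rwa [norm_rze h0] at this)
  refine ⟨hprod.integral_prod_left, ?_⟩
  rw [integral_integral_swap hprod]
  refine integral_congr_ae (Filter.Eventually.of_forall fun x => ?_)
  simp only
  rw [integral_mul_const]
  have : ∫ θ, P ((ρ : ℂ) * ze θ) x ∂mu = 1 :=
    (integral_congr_ae (Filter.Eventually.of_forall fun θ => P_symm h0 θ x)).trans
      (integral_P (rze_norm_lt h0 h1 x))
  rw [this, one_mul]

/-- Markov's inequality in the form used below. -/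
lemma markov {h : Ci → ℝ} (hh : Integrable h mu) (h0 : ∀ x, 0 ≤ h x) {a : ℝ} (ha : 0 < a) :
    mu.real {x | a < h x} ≤ (∫ x, h x ∂mu) / a := by
  have h1 := mul_meas_ge_le_integral_of_nonneg (Filter.Eventually.of_forall h0) hh a
  rw [le_div_iff₀ ha, mul_comm]
  refine le_trans (mul_le_mul_of_nonneg_left ?_ ha.le) h1
  exact measureReal_mono fun x hx => by
    simp only [mem_ofPred_eq] at hx ⊢
    exact hx.le

end

end Pool.Agent.H197.HLQ
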