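import Pool.Agent.H197.HLQ.Fin

/-!
# Log-integrability of half-lacunary Fourier series
-/

namespace Pool.Agent.H197.HLQ

noncomputable section

open MeasureTheory AddCircle Complex Set Filter Topology
open Pool.Agent.W767.HL

lemma tr_shift (c c' : ℤ → ℂ) (s : ℂ) (M : ℤ) (hc : ∀ n, c' n = s * c (n - M)) (a b : ℤ) :
    tr c' (a + M) (b + M) = s • sh M (tr c a b) := by
  ext n
  rw [Finsupp.smul_apply, sh_apply, tr_apply, tr_apply, smul_eq_mul, hc]
  by_cases h : a + M ≤ n ∧ n ≤ b + M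
  · rw [if_pos h, if_pos (by omega)]
  · rw [if_neg h, if_neg (by omega), mul_zero]

/-- Main theorem, real form of the gap condition. -/
theorem main_aux (n : ℕ → ℤ) (hneg : ∀ k, n k < 0) {q : ℝ} (hq : 1 < q)
    (hlac : ∀ᶠ k in atTop, q ≤ (n (k + 1) : ℝ) / (n k : ℝ)) (g : Lp ℂ 2 mu)
    (hc : ∀ j : ℤ, j < 0 → (∀ k, n k ≠ j) → fourierCoeff g j = 0) (hg : g ≠ 0) :
    (∀ᵐ θ ∂mu, g θ ≠ 0) ∧
      ∃ p : ℝ, 0 < p ∧ MemLp (fun θ => Real.log ‖g θ‖) (ENNReal.ofReal p) mu := by
  obtain ⟨K1, hK1⟩ := eventually_atTop.mp hlac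
  -- absolute values of the frequencies
  set p : ℕ → ℕ := fun k => (n k).natAbs with hp
  have hpn : ∀ k, n k = -(p k : ℤ) := fun k => by
    have := hneg k
    simp only [hp]
    omega
  have hp0 : ∀ k, 0 < p k := fun k => by
    have := hneg k
    simp only [hp]
    omega
  have hpq : ∀ k, K1 ≤ k → q * p k ≤ p (k + 1) := by
    intro k hk
    have h1 := hK1 k hk
    rw [hpn, hpn] at h1
    push_cast at h1
    rw [neg_div_neg_eq, le_div_iff₀ (by exact_mod_cast hp0 k)] at h1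
    exact h1
  have hplt : ∀ k, K1 ≤ k → p k < p (k + 1) := by
    intro k hk
    have h1 := hpq k hk
    have h2 : (0 : ℝ) < p k := by exact_mod_cast hp0 k
    have h3 : (p k : ℝ) < p (k + 1) := by nlinarith
    exact_mod_cast h3
  have hps : StrictMono fun i => p (K1 + i) :=
    strictMono_nat_of_lt_succ fun i => hplt (K1 + i) (by omega)
  -- a starting index which dominates all earlier frequencies
  obtain ⟨b, hb⟩ : ∃ b, ∀ i, i < K1 → p i < b := by
    refine ⟨(Finset.range K1).sup p + 1, fun i hi => ?_⟩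
    exact Nat.lt_succ_of_le (Finset.le_sup (f := p) (Finset.mem_range.mpr hi))
  set k1 := K1 + b with hk1
  have hb1 : b ≤ p k1 := hps.le_apply
  set m : ℕ → ℕ := fun j => p (k1 + j) with hm
  have hms : StrictMono m := strictMono_nat_of_lt_succ fun i => hplt (k1 + i) (by omega)
  have hm0 : ∀ j, 0 < m j := fun j => hp0 _
  have hmq : ∀ j, q * m j ≤ m (j + 1) := fun j => hpq (k1 + j) (by omega)
  have hbefore : ∀ i, i < k1 → p i < m 0 := by
    intro i hi
    by_cases h : i < K1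
    · exact (hb i h).trans_le hb1
    · have := hps (show i - K1 < b by omega)
      simp only at this
      rwa [show K1 + (i - K1) = i by omega] at this
  have hmL : ∀ l j, q ^ l * m j ≤ m (j + l) := by
    intro l
    induction l with
    | zero => intro j; simp
    | succ l ih =>
      intro j
      calc q ^ (l + 1) * m j = q * (q ^ l * m j) := by ring
        _ ≤ q * m (j + l) := mul_le_mul_of_nonneg_left (ih j) (by linarith)
        _ ≤ m (j + l + 1) := hmq _
  -- the parameter L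
  have hq0 : 0 < q := by linarith
  have hη : 0 < 1 - 1 / q := by
    rw [sub_pos, div_lt_one hq0]
    exact hq
  obtain ⟨L, hL⟩ : ∃ L : ℕ, 1 / (1 - 1 / q) < q ^ L := pow_unbounded_of_one_lt _ hq
  have hL' : 1 / (1 - 1 / q) ≤ q ^ (L + 1) :=
    hL.le.trans (pow_le_pow_right₀ hq.le (Nat.le_succ L))
  have hM : ∀ j, 1 ≤ j → (1 - 1 / q) * m j + m (j - 1) ≤ m j := by
    intro j hj
    have h1 := hmq (j - 1)
    rw [Nat.sub_add_cancel hj] at h1
    have h2 : (m (j - 1) : ℝ) ≤ 1 / q * m j := by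
      rw [div_mul_eq_mul_div, one_mul, le_div_iff₀ hq0]
      linarith
    linarith
  have hgap : ∀ j, L + 1 ≤ j → m (j - (L + 1)) + m (j - 1) ≤ m j := by
    intro j hj
    have h1 := hmL (L + 1) (j - (L + 1))
    rw [Nat.sub_add_cancel hj] at h1
    have h2 := hM j (by omega)
    have h3 : (m (j - (L + 1)) : ℝ) ≤ (1 - 1 / q) * m j := by
      rw [div_le_iff₀ hη] at hL'
      have h4 : (0 : ℝ) < m (j - (L + 1)) := by exact_mod_cast hm0 _
      nlinarith
    have h5 : (m (j - (L + 1)) : ℝ) + m (j - 1) ≤ m j := by linarith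
    exact_mod_cast h5
  have hG2 : ∀ j, 1 ≤ j → ∀ i : ℤ, -(m j : ℤ) < i → i < -(m (j - 1) : ℤ) →
      fourierCoeff g i = 0 := by
    intro j hj i hi1 hi2
    refine hc i (by omega) fun k hk => ?_
    rw [hpn k] at hk
    by_cases h : k < k1
    · have h1 := hbefore k h
      have h2 : m 0 ≤ m (j - 1) := hms.monotone (Nat.zero_le _)
      omega
    · have h1 : p k = m (k - k1) := by
        simp only [hm]
        rw [show k1 + (k - k1) = k by omega]
      rcases Nat.lt_or_ge (k - k1) j with h2 | h2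
      · have := hms.monotone (show k - k1 ≤ j - 1 by omega)
        omega
      · have := hms.monotone h2
        omega
  -- normalisation and shift
  have hgn : 0 < ‖g‖ := norm_pos_iff.mpr hg
  set s : ℝ := 1 / ‖g‖ with hs
  have hs0 : 0 < s := by positivity
  set m' : ℕ → ℕ := fun j => m j - m 0 with hm'
  have hm0j : ∀ j, m 0 ≤ m j := fun j => hms.monotone (Nat.zero_le j)
  set c : ℤ → ℂ := fourierCoeff g with hcdef
  set c' : ℤ → ℂ := fun n => (s : ℂ) * c (n - m 0) with hc'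
  have hnc' : ∀ n, ‖c' n‖ ^ 2 = s ^ 2 * ‖c (n - m 0)‖ ^ 2 := by
    intro n
    rw [hc']
    simp only
    rw [norm_mul, Complex.norm_real, Real.norm_of_nonneg hs0.le, mul_pow]
  have hsumc := hasSum_sq_fourierCoeff g
  have hgint : ∫ t : Ci, ‖g t‖ ^ 2 ∂mu = ‖g‖ ^ 2 := by
    have h1 : (inner ℂ g g : ℂ) = ∫ θ, (inner ℂ (g θ) (g θ) : ℂ) ∂mu := L2.inner_def g g
    have h2 : (inner ℂ g g : ℂ) = ((‖g‖ ^ 2 : ℝ) : ℂ) := by
      rw [inner_self_eq_norm_sq_to_K]
      norm_cast
    have h3 : ∫ θ, (inner ℂ (g θ) (g θ) : ℂ) ∂mu = ∫ θ, ((‖g θ‖ ^ 2 : ℝ) : ℂ) ∂mu := by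
      refine integral_congr_ae (Filter.Eventually.of_forall fun θ => ?_)
      simp only
      rw [inner_self_eq_norm_sq_to_K]
      norm_cast
    rw [h2, h3, integral_complex_ofReal] at h1
    exact_mod_cast h1.symm
  rw [hgint] at hsumc
  have hsumc2 : HasSum (fun n => ‖c' n‖ ^ 2) (s ^ 2 * ‖g‖ ^ 2) := by
    have h1 := (Equiv.subRight (m 0 : ℤ)).hasSum_iff.mpr hsumc
    have h2 := h1.mul_left (s ^ 2)
    have h3 : (fun n => ‖c' n‖ ^ 2) = fun n : ℤ => s ^ 2 *
        ((fun i => ‖fourierCoeff g i‖ ^ 2) ∘ (Equiv.subRight (m 0 : ℤ))) n := by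
      funext n
      rw [hnc']
      rfl
    rw [h3]
    exact h2
  have hsg : s ^ 2 * ‖g‖ ^ 2 = 1 := by
    rw [hs]
    field_simp
  have hd : Dat (L + 1) m' (1 - 1 / q) c' := by
    refine ⟨Nat.succ_pos L, ?_, ?_, ?_, hη, ?_, ?_, hsumc2.summable, ?_⟩
    · intro i j hij
      have h1 := hms hij
      have h2 := hm0j i
      simp only [hm']
      omega
    · simp only [hm', Nat.sub_self]
    · intro j hj
      have h1 := hgap j hj
      have h2 := hm0j (j - (L + 1))
      have h3 := hm0j (j - 1)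
      simp only [hm']
      omega
    · intro j hj
      have h1 := hM j hj
      simp only [hm']
      rw [Nat.cast_sub (hm0j j), Nat.cast_sub (hm0j (j - 1))]
      have h2 : 0 ≤ (1 - 1 / q) * (m 0 : ℝ) := by positivity
      linarith
    · intro j hj i hi1 hi2
      have h2 := hm0j j
      have h3 := hm0j (j - 1)
      simp only [hm'] at hi1 hi2
      have h4 : c (i - m 0) = 0 := hG2 j hj _ (by omega) (by omega)
      rw [hc']
      simp only
      rw [h4, mul_zero]
    · rw [hsumc2.tsum_eq, hsg]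
  -- a nonzero coefficient
  obtain ⟨n₁, hn₁⟩ : ∃ n₁, c n₁ ≠ 0 := by
    by_contra hcon
    push Not at hcon
    have h1 : HasSum (fun _ : ℤ => (0 : ℝ)) (‖g‖ ^ 2) := by
      have h2 : (fun i => ‖fourierCoeff g i‖ ^ 2) = fun _ : ℤ => (0 : ℝ) := by
        funext i
        have := hcon i
        rw [hcdef] at this
        rw [this, norm_zero]
        simp
      rwa [h2] at hsumc
    have h3 := h1.unique hasSum_zero
    have h4 : ‖g‖ = 0 := by simpa using h3
    linarith
  have hn₀ : c' (n₁ + m 0) ≠ 0 := by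
    rw [hc']
    simp only
    rw [add_sub_cancel_right]
    exact mul_ne_zero (by exact_mod_cast hs0.ne') hn₁
  obtain ⟨P₁, A, hP0, hP1, hA, hcl⟩ := hd.claim hn₀
  -- the normalised function
  set g' : Ci → ℂ := fun θ => (s : ℂ) * (ze θ ^ (m 0 : ℤ) * g θ) with hg'
  have hgi : Integrable (g : Ci → ℂ) mu := (Lp.memLp g).integrable (by norm_num)
  have hg'i : Integrable g' mu := by
    refine Integrable.const_mul ?_ _
    refine hgi.bdd_mul (c := 1) ?_ (Filter.Eventually.of_forall fun θ => ?_)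
    · have h1 : Continuous fun θ : Ci => ze θ ^ (m 0 : ℤ) := by
        simp only [zpow_natCast]
        exact continuous_ze.pow _
      exact h1.aestronglyMeasurable
    · rw [norm_zpow, norm_ze, one_zpow]
  have hng' : ∀ θ, ‖g' θ‖ = s * ‖g θ‖ := by
    intro θ
    rw [hg']
    simp only
    rw [norm_mul, norm_mul, norm_zpow, norm_ze, one_zpow, one_mul, Complex.norm_real,
      Real.norm_of_nonneg hs0.le]
  have hlim : Tendsto (fun K => ∫ θ, ‖ev (tr c' (-(m' K : ℤ)) ((m K + m 0 : ℕ) : ℤ)) (ze θ)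
      - g' θ‖ ∂mu) atTop (𝓝 0) := by
    have h1 := ((trunc_tendsto g).comp hms.tendsto_atTop).const_mul s
    rw [mul_zero] at h1
    refine h1.congr fun K => ?_
    simp only [Function.comp_apply]
    rw [← integral_const_mul]
    refine integral_congr_ae (Filter.Eventually.of_forall fun θ => ?_)
    simp only
    have h2 : tr c' (-(m' K : ℤ)) ((m K + m 0 : ℕ) : ℤ)
        = (s : ℂ) • sh (m 0 : ℤ) (tr c (-(m K : ℤ)) (m K)) := by
      rw [← tr_shift c c' (s : ℂ) (m 0 : ℤ) (fun n => rfl)]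
      congr 1
      · have := hm0j K
        simp only [hm']
        omega
    rw [h2, ev_smul, ev_sh _ _ (ze_ne θ), hg']
    simp only
    rw [← mul_sub, ← mul_sub, norm_mul, norm_mul, norm_zpow, norm_ze, one_zpow, one_mul,
      Complex.norm_real, Real.norm_of_nonneg hs0.le]
  have hNn : Tendsto (fun K => m K + m 0) atTop atTop :=
    tendsto_atTop_mono (fun K => Nat.le_add_right _ _) hms.tendsto_atTop
  obtain ⟨hne, hmem⟩ := memLp_log hg'i hP0 hP1 (by linarith) fun u hu =>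
    hd.tail_fun hg'i hNn hlim hcl hu
  have hne2 : ∀ᵐ θ ∂mu, g θ ≠ 0 := by
    filter_upwards [hne] with θ h1 h2
    apply h1
    rw [hg']
    simp only
    rw [h2, mul_zero, mul_zero]
  refine ⟨hne2, P₁ / 2, by positivity, ?_⟩
  have h1 := hmem.sub (memLp_const (p := ENNReal.ofReal (P₁ / 2)) (μ := mu) (Real.log s))
  refine h1.ae_eq ?_
  filter_upwards [hne2] with θ h2
  simp only [Pi.sub_apply]
  rw [hng', Real.log_mul hs0.ne' (norm_ne_zero_iff.mpr h2)]
  ring

/-- Nonzero half-lacunary Fourier series: some power of the logarithm is integrable. -/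
theorem main_log (n : ℕ → ℤ) (hneg : ∀ k, n k < 0)
    (hlac : 1 < liminf (fun k => (((n (k + 1) : ℝ) / (n k : ℝ) : ℝ) : EReal)) atTop)
    (a : ℤ → ℂ) (g₁ g₂ : Lp ℂ 2 (haarAddCircle : Measure (AddCircle (1 : ℝ))))
    (h₁ : HasSum (fun k => a (n k) • fourierLp 2 (n k)) g₁)
    (h₂ : HasSum (fun j : ℕ => a (j : ℤ) • fourierLp 2 (j : ℤ)) g₂) (hg : g₁ + g₂ ≠ 0) :
    (∀ᵐ θ : AddCircle (1 : ℝ) ∂haarAddCircle, (g₁ + g₂ : Lp ℂ 2 haarAddCircle) θ ≠ 0) ∧
      ∃ p : ℝ, 0 < p ∧ MemLp (fun θ : AddCircle (1 : ℝ) =>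
        Real.log ‖(g₁ + g₂ : Lp ℂ 2 haarAddCircle) θ‖) (ENNReal.ofReal p) haarAddCircle := by
  obtain ⟨y, hy1, hy2⟩ := exists_between hlac
  have hy3 : y ≠ ⊤ := (hy2.trans_le le_top).ne
  have hy4 : y ≠ ⊥ := (bot_lt_iff_ne_bot.mp ((EReal.bot_lt_coe 1).trans hy1))
  lift y to ℝ using ⟨hy3, hy4⟩
  have hy5 : (1 : ℝ) < y := by exact_mod_cast hy1
  have hev := eventually_lt_of_lt_liminf hy2
  refine main_aux n hneg hy5 ?_ (g₁ + g₂) ?_ hg
  · filter_upwards [hev] with k hk
    exact (EReal.coe_lt_coe_iff.mp hk).le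
  · intro j hj hjn
    have e1 : fourierCoeff g₁ j = 0 := coeff_eq_zero h₁ hjn
    have e2 : fourierCoeff g₂ j = 0 := coeff_eq_zero (n := fun i : ℕ => (i : ℤ))
      (b := fun i => a i) h₂ fun k => by omega
    rw [← inner_fourier] at e1 e2 ⊢
    rw [map_add, e1, e2, add_zero]

end

end Pool.Agent.H197.HLQ
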