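import Pool.Agent.H197.HLQ.Dat

/-!
# Norm estimates for the truncated dilations
-/

namespace Pool.Agent.H197.HLQ

noncomputable section

open MeasureTheory AddCircle Complex Set Filter Topology
open Pool.Agent.W767.HL

variable {L : ℕ} {m : ℕ → ℕ} {η₀ : ℝ} {c : ℤ → ℂ}

/-- Small value sets. -/
def Sm (G : ℤ →₀ ℂ) (u : ℝ) : Set Ci := {x | ‖ev G (ze x)‖ ≤ Real.exp (-u)}

lemma measurableSet_Sm (G : ℤ →₀ ℂ) (u : ℝ) : MeasurableSet (Sm G u) :=
  (isClosed_le (continuous_ev_ze G).norm continuous_const).measurableSet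

lemma mu_le_one (S : Set Ci) : mu.real S ≤ 1 := measureReal_le_one

/-- An arc of chord radius `l` has measure at most `4 l`. -/
lemma arc_le {l : ℝ} (hl : 0 < l) (hl1 : l ≤ 1) (θ : Ci) : mu.real (arc θ l) ≤ 4 * l := by
  have h2 : ‖((1 - l : ℝ) : ℂ) * ze θ‖ < 1 := rze_norm_lt (by linarith) (by linarith) θ
  have h3 : ∫ x in arc θ l, 1 / (4 * l) ∂mu
      ≤ ∫ x in arc θ l, P (((1 - l : ℝ) : ℂ) * ze θ) x ∂mu := by
    refine setIntegral_mono_on (integrable_const _) (integrable_of_cont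
      (continuous_P h2)).integrableOn (measurableSet_arc θ l) fun x hx => ?_
    have h4 : ‖ze x - ((1 - l : ℝ) : ℂ) * ze θ‖ ≤ 2 * l := by
      have h5 := norm_sub_le_norm_sub_add_norm_sub (ze x) (ze θ) (((1 - l : ℝ) : ℂ) * ze θ)
      rw [rze_sub (by linarith)] at h5
      have h6 : ‖ze x - ze θ‖ ≤ l := hx
      linarith
    have h7 := P_ge h2 x h4
    rw [norm_rze (by linarith)] at h7
    refine le_trans (le_of_eq ?_) h7
    field_simp
    ring
  have h4 : ∫ x in arc θ l, P (((1 - l : ℝ) : ℂ) * ze θ) x ∂mu ≤ 1 :=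
    (setIntegral_le_integral (integrable_of_cont (continuous_P h2))
      (Filter.Eventually.of_forall fun x => (P_pos h2 x).le)).trans (integral_P h2).le
  rw [setIntegral_const, smul_eq_mul] at h3
  have h5 : mu.real (arc θ l) * (1 / (4 * l)) ≤ 1 := h3.trans h4
  rw [mul_one_div, div_le_one (by positivity)] at h5
  exact h5

lemma Dat.pos_sum (d : Dat L m η₀ c) {N : ℕ} {y : ℝ} (hy : 0 ≤ y) :
    ∑ n ∈ Finset.Icc (0 : ℤ) N, Real.exp (-(n * y)) ^ 2 * ‖c n‖ ^ 2 ≤ 1 := by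
  have h1 : ∑ n ∈ Finset.Icc (0 : ℤ) N, Real.exp (-(n * y)) ^ 2 * ‖c n‖ ^ 2
      ≤ ∑ n ∈ Finset.Icc (0 : ℤ) N, ‖c n‖ ^ 2 := by
    refine Finset.sum_le_sum fun n hn => ?_
    have h2 : (0 : ℝ) ≤ n := by exact_mod_cast (Finset.mem_Icc.mp hn).1
    have h3 : Real.exp (-(n * y)) ≤ 1 := Real.exp_le_one_iff.mpr (by
      have := mul_nonneg h2 hy
      linarith)
    have h4 : Real.exp (-(n * y)) ^ 2 ≤ 1 := pow_le_one₀ (Real.exp_pos _).le h3
    exact mul_le_of_le_one_left (sq_nonneg _) h4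
  exact h1.trans ((d.hsum.sum_le_tsum _ fun _ _ => sq_nonneg _).trans d.htot)

lemma Dat.neg_sum (d : Dat L m η₀ c) {i j : ℕ} (hji : j ≤ i) (y : ℝ) :
    ∑ n ∈ Finset.Ico (-(m i : ℤ)) (-(m j : ℤ)), Real.exp (-(n * y)) ^ 2 * ‖c n‖ ^ 2
      = ∑ k ∈ Finset.Ioc j i, ‖c (-(m k : ℤ))‖ ^ 2 * Real.exp (2 * (m k * y)) := by
  rw [sum_spec d.hm (h := fun n => Real.exp (-(n * y)) ^ 2 * ‖c n‖ ^ 2) ?_ hji]
  · refine Finset.sum_congr rfl fun k _ => ?_
    rw [mul_comm, ← Real.exp_nat_mul]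
    congr 2
    push_cast
    ring
  · intro j hj n h1 h2
    rw [d.hspec j hj n h1 h2, norm_zero]
    simp

lemma gg_norm (i N : ℕ) (y : ℝ) {n : ℤ} (hn : -(m i : ℤ) ≤ n ∧ n ≤ N) :
    ‖gg m c i N y n‖ ^ 2 = Real.exp (-(n * y)) ^ 2 * ‖c n‖ ^ 2 := by
  rw [gg_apply, if_pos hn, norm_mul, Complex.norm_real, Real.norm_of_nonneg (Real.exp_pos _).le,
    mul_pow]

lemma Dat.sqrt_En_le (d : Dat L m η₀ c) (k : ℕ) : Real.sqrt (En m c k) ≤ 1 := by
  rw [show (1 : ℝ) = Real.sqrt 1 by rw [Real.sqrt_one]]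
  exact Real.sqrt_le_sqrt (d.En_le_one k)

lemma Dat.gg_l2 (d : Dat L m η₀ c) {v y : ℝ} (hv : 1 ≤ v) (hy : 0 ≤ y) {i N : ℕ}
    (h : Adm m c (1 / 4) v i y) :
    ∫ θ, ‖ev (gg m c i N y) (ze θ)‖ ^ 2 ∂mu ≤ 3 * Real.sqrt v := by
  have hs : (gg m c i N y).support ⊆ Finset.Ico (-(m i : ℤ)) (-(m 0 : ℤ)) ∪ Finset.Icc (0 : ℤ) N := by
    intro n hn
    rw [Finsupp.mem_support_iff, gg_apply] at hn
    have h1 : -(m i : ℤ) ≤ n ∧ n ≤ N := by
      by_contra h2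
      rw [if_neg h2] at hn
      exact hn rfl
    rw [Finset.mem_union, Finset.mem_Ico, Finset.mem_Icc, d.hm0]
    push_cast
    omega
  have hdis : Disjoint (Finset.Ico (-(m i : ℤ)) (-(m 0 : ℤ))) (Finset.Icc (0 : ℤ) N) := by
    rw [Finset.disjoint_left]
    intro x hx hx2
    rw [Finset.mem_Ico, d.hm0] at hx
    rw [Finset.mem_Icc] at hx2
    push_cast at hx
    omega
  rw [pars' hs, Finset.sum_union hdis]
  have h1 : ∑ n ∈ Finset.Ico (-(m i : ℤ)) (-(m 0 : ℤ)), ‖gg m c i N y n‖ ^ 2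
      = ∑ n ∈ Finset.Ico (-(m i : ℤ)) (-(m 0 : ℤ)), Real.exp (-(n * y)) ^ 2 * ‖c n‖ ^ 2 := by
    refine Finset.sum_congr rfl fun n hn => gg_norm i N y ?_
    rw [Finset.mem_Ico, d.hm0] at hn
    push_cast at hn
    omega
  have h2 : ∑ n ∈ Finset.Icc (0 : ℤ) N, ‖gg m c i N y n‖ ^ 2
      = ∑ n ∈ Finset.Icc (0 : ℤ) N, Real.exp (-(n * y)) ^ 2 * ‖c n‖ ^ 2 := by
    refine Finset.sum_congr rfl fun n hn => gg_norm i N y ?_
    rw [Finset.mem_Icc] at hn
    omega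
  rw [h1, h2, d.neg_sum (Nat.zero_le i)]
  have h3 := d.energy hv (Nat.zero_le i) h
  have h4 := d.pos_sum (N := N) hy
  have h5 : Real.sqrt (En m c (0 + 1)) ≤ 1 := d.sqrt_En_le _
  have h6 : 1 ≤ Real.sqrt v := by
    rw [Real.one_le_sqrt]
    exact hv
  nlinarith

/-- The fourth root of `v`. -/
def rt (v : ℝ) : ℝ := Real.sqrt (Real.sqrt v)

lemma rt_sq {v : ℝ} : rt v ^ 2 = Real.sqrt v := Real.sq_sqrt (Real.sqrt_nonneg _)

lemma rt_pow {v : ℝ} (hv : 0 ≤ v) : rt v ^ 4 = v := by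
  have : rt v ^ 4 = (rt v ^ 2) ^ 2 := by ring
  rw [this, rt_sq, Real.sq_sqrt hv]

lemma rt_nonneg (v : ℝ) : 0 ≤ rt v := Real.sqrt_nonneg _

lemma rt_pos {v : ℝ} (hv : 0 < v) : 0 < rt v := Real.sqrt_pos.mpr (Real.sqrt_pos.mpr hv)

lemma one_le_rt {v : ℝ} (hv : 1 ≤ v) : 1 ≤ rt v := by
  rw [rt, Real.one_le_sqrt, Real.one_le_sqrt]
  exact hv

lemma Dat.gg_l1 (d : Dat L m η₀ c) {v y : ℝ} (hv : 1 ≤ v) (hy : 0 ≤ y) {i N : ℕ}
    (h : Adm m c (1 / 4) v i y) :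
    ∫ θ, ‖ev (gg m c i N y) (ze θ)‖ ∂mu ≤ 2 * rt v := by
  refine l1_le (by have := rt_nonneg v; linarith) ((d.gg_l2 hv hy h).trans ?_)
  rw [mul_pow, rt_sq]
  have := Real.sqrt_nonneg v
  linarith

lemma Dat.tail_l2 (d : Dat L m η₀ c) {v y : ℝ} (hv : 1 ≤ v) {i j N : ℕ} (hji : j ≤ i)
    (h : Adm m c (1 / 4) v i y) :
    ∫ θ, ‖ev (gg m c i N y - gg m c j N y) (ze θ)‖ ^ 2 ∂mu
      ≤ 2 * Real.sqrt v * Real.sqrt (En m c (j + 1)) := by
  have hmij : (m j : ℤ) ≤ m i := by exact_mod_cast d.hm.monotone hji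
  have hs : (gg m c i N y - gg m c j N y).support ⊆ Finset.Ico (-(m i : ℤ)) (-(m j : ℤ)) := by
    intro n hn
    rw [Finsupp.mem_support_iff, Finsupp.sub_apply, gg_apply, gg_apply] at hn
    rw [Finset.mem_Ico]
    by_contra h2
    apply hn
    by_cases h3 : -(m j : ℤ) ≤ n ∧ n ≤ N
    · rw [if_pos h3, if_pos (by omega), sub_self]
    · rw [if_neg h3, if_neg (by omega), sub_self]
  rw [pars' hs]
  refine le_trans (le_of_eq ?_) (d.energy hv hji h)
  rw [← d.neg_sum hji]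
  refine Finset.sum_congr rfl fun n hn => ?_
  rw [Finset.mem_Ico] at hn
  have hm0 : (0 : ℤ) ≤ m j := by positivity
  have h3 : gg m c j N y n = 0 := by
    rw [gg_apply, if_neg (by omega)]
  rw [Finsupp.sub_apply, h3, sub_zero]
  exact gg_norm i N y (by omega)

/-- Transfer of small value sets to a shorter truncation. -/
lemma Dat.transfer (d : Dat L m η₀ c) {v y : ℝ} (hv : 2 ≤ v) {i j N : ℕ} (hji : j ≤ i)
    (h : Adm m c (1 / 4) v i y) {T : ℝ} (hTv : T ≤ v) (_hT0 : 0 ≤ T)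
    (hE : En m c (j + 1) ≤ Real.exp (-2 * T)) :
    mu.real (Sm (gg m c i N y) v \ Sm (((v⁻¹ : ℝ) : ℂ) • gg m c j N y) (T / 4))
      ≤ 2 * Real.sqrt v * Real.exp (-(T / 2)) := by
  have hv0 : 0 < v := by linarith
  set h2 : Ci → ℝ := fun x => ‖ev (gg m c i N y - gg m c j N y) (ze x)‖ ^ 2 with hh2
  have hsub : Sm (gg m c i N y) v \ Sm (((v⁻¹ : ℝ) : ℂ) • gg m c j N y) (T / 4)
      ⊆ {x | Real.exp (-(T / 2)) < h2 x} := by
    rintro x ⟨hx1, hx2⟩
    simp only [Sm, mem_ofPred_eq, not_le] at hx1 hx2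
    simp only [mem_ofPred_eq, hh2]
    rw [ev_smul, norm_mul, Complex.norm_real, Real.norm_of_nonneg (by positivity),
      inv_mul_eq_div, lt_div_iff₀ hv0] at hx2
    have h3 : ‖ev (gg m c j N y) (ze x)‖ ≤ ‖ev (gg m c i N y - gg m c j N y) (ze x)‖
        + ‖ev (gg m c i N y) (ze x)‖ := by
      rw [ev_sub]
      have := norm_sub_le (ev (gg m c i N y) (ze x))
        (ev (gg m c i N y) (ze x) - ev (gg m c j N y) (ze x))
      rw [sub_sub_cancel] at this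
      linarith
    have h4 : Real.exp (-v) ≤ Real.exp (-(T / 4)) := Real.exp_le_exp.mpr (by linarith)
    have h5 : Real.exp (-(T / 4)) < ‖ev (gg m c i N y - gg m c j N y) (ze x)‖ := by
      have := mul_le_mul_of_nonneg_left hv (Real.exp_pos (-(T / 4))).le
      linarith
    have h6 : Real.exp (-(T / 2)) = Real.exp (-(T / 4)) ^ 2 := by
      rw [← Real.exp_nat_mul]
      congr 1
      push_cast
      ring
    rw [h6]
    exact pow_lt_pow_left₀ h5 (Real.exp_pos _).le two_ne_zero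
  refine (measureReal_mono hsub).trans ((markov (integrable_ev2 _) (fun x => sq_nonneg _)
    (Real.exp_pos _)).trans ?_)
  rw [div_le_iff₀ (Real.exp_pos _)]
  refine (d.tail_l2 (by linarith) hji h).trans ?_
  have h7 : Real.sqrt (En m c (j + 1)) ≤ Real.exp (-T) := by
    rw [Real.sqrt_le_left (Real.exp_pos _).le, ← Real.exp_nat_mul]
    refine hE.trans (le_of_eq ?_)
    congr 1
    push_cast
    ring
  calc 2 * Real.sqrt v * Real.sqrt (En m c (j + 1)) ≤ 2 * Real.sqrt v * Real.exp (-T) :=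
        mul_le_mul_of_nonneg_left h7 (by positivity)
    _ = 2 * Real.sqrt v * Real.exp (-(T / 2)) * Real.exp (-(T / 2)) := by
        rw [mul_assoc _ (Real.exp _) (Real.exp _), ← Real.exp_add]
        congr 2
        ring

lemma posP_smul (a : ℂ) (G : ℤ →₀ ℂ) : posP (a • G) = a • posP G := Finsupp.filter_smul

lemma negP_smul (a : ℂ) (G : ℤ →₀ ℂ) : negP (a • G) = a • negP G := Finsupp.filter_smul

lemma negQ_smul (r : ℝ) (a : ℂ) (G : ℤ →₀ ℂ) : negQ r (a • G) = a • negQ r G := by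
  ext n
  rw [negQ_apply, negP_smul, Finsupp.smul_apply, Finsupp.smul_apply, negQ_apply, smul_eq_mul,
    smul_eq_mul]
  ring

/-- The mean value of the harmonic majorant. -/
lemma Dat.AA_int (d : Dat L m η₀ c) {v y D₂ D : ℝ} (hv : 1 ≤ v) (hy : 0 ≤ y) (hD : 0 < D)
    (hDD : D < D₂) {i N : ℕ} (h : Adm m c (1 / 4) v i (y + D₂)) :
    Integrable (fun θ => AA (((v⁻¹ : ℝ) : ℂ) • gg m c i N y) D₂ ((Real.exp (-D) : ℝ) * ze θ)) mu ∧
    (∀ θ, 0 ≤ AA (((v⁻¹ : ℝ) : ℂ) • gg m c i N y) D₂ ((Real.exp (-D) : ℝ) * ze θ)) ∧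
    ∫ θ, AA (((v⁻¹ : ℝ) : ℂ) • gg m c i N y) D₂ ((Real.exp (-D) : ℝ) * ze θ) ∂mu
      ≤ 3 * rt v / v := by
  have hv0 : 0 < v := by linarith
  obtain ⟨h1, h2, h3⟩ := AA_avg (((v⁻¹ : ℝ) : ℂ) • gg m c i N y) hD hDD
  refine ⟨h1, h2, ?_⟩
  rw [h3]
  have hr := one_le_rt hv
  have e1 : ∫ x, ‖ev (posP (((v⁻¹ : ℝ) : ℂ) • gg m c i N y)) (ze x)‖ ∂mu
      = v⁻¹ * ∫ x, ‖ev (posP (gg m c i N y)) (ze x)‖ ∂mu := by
    rw [← integral_const_mul]
    refine integral_congr_ae (Filter.Eventually.of_forall fun x => ?_)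
    simp only
    rw [posP_smul, ev_smul, norm_mul, Complex.norm_real, Real.norm_of_nonneg (by positivity)]
  have e2 : ∫ x, ‖ev (negQ (Real.exp (-D₂)) (((v⁻¹ : ℝ) : ℂ) • gg m c i N y)) (ze x)‖ ∂mu
      = v⁻¹ * ∫ x, ‖ev (negQ (Real.exp (-D₂)) (gg m c i N y)) (ze x)‖ ∂mu := by
    rw [← integral_const_mul]
    refine integral_congr_ae (Filter.Eventually.of_forall fun x => ?_)
    simp only
    rw [negQ_smul, ev_smul, norm_mul, Complex.norm_real, Real.norm_of_nonneg (by positivity)]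
  have f1 : ∫ x, ‖ev (posP (gg m c i N y)) (ze x)‖ ∂mu ≤ 1 := by
    refine l1_le zero_le_one ?_
    have hs : (posP (gg m c i N y)).support ⊆ Finset.Icc (0 : ℤ) N := by
      intro n hn
      rw [posP, Finsupp.mem_support_iff, Finsupp.filter_apply] at hn
      rw [Finset.mem_Icc]
      by_contra h4
      apply hn
      split_ifs with h5
      · rw [gg_apply, if_neg (by omega)]
      · rfl
    rw [pars' hs, one_pow]
    refine le_trans (Finset.sum_le_sum fun n hn => ?_) (d.pos_sum (N := N) hy)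
    rw [Finset.mem_Icc] at hn
    rw [posP, Finsupp.filter_apply_pos _ _ hn.1]
    exact (gg_norm i N y (by omega)).le
  have f2 : ∫ x, ‖ev (negQ (Real.exp (-D₂)) (gg m c i N y)) (ze x)‖ ∂mu ≤ 2 * rt v := by
    have e3 : ∫ x, ‖ev (negQ (Real.exp (-D₂)) (gg m c i N y)) (ze x)‖ ∂mu
        = ∫ x, ‖ev (dil (Real.exp (-D₂)) (negP (gg m c i N y))) (ze x)‖ ∂mu := by
      rw [← integral_neg_eq_self (fun x : Ci =>
        ‖ev (dil (Real.exp (-D₂)) (negP (gg m c i N y))) (ze x)‖) mu]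
      refine integral_congr_ae (Filter.Eventually.of_forall fun x => ?_)
      simp only
      rw [negQ, ev_refl, ze_neg]
    rw [e3]
    refine l1_le (by linarith) ?_
    have hs : (dil (Real.exp (-D₂)) (negP (gg m c i N y))).support
        ⊆ Finset.Ico (-(m i : ℤ)) (-(m 0 : ℤ)) := by
      intro n hn
      rw [Finsupp.mem_support_iff, dil_apply, negP, Finsupp.filter_apply] at hn
      rw [Finset.mem_Ico, d.hm0]
      by_contra h4
      apply hn
      split_ifs with h5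
      · rw [mul_zero]
      · push_cast at h4
        rw [gg_apply, if_neg (by omega), mul_zero]
    rw [pars' hs]
    have e4 : ∑ n ∈ Finset.Ico (-(m i : ℤ)) (-(m 0 : ℤ)),
        ‖dil (Real.exp (-D₂)) (negP (gg m c i N y)) n‖ ^ 2
        = ∑ n ∈ Finset.Ico (-(m i : ℤ)) (-(m 0 : ℤ)),
          Real.exp (-(n * (y + D₂))) ^ 2 * ‖c n‖ ^ 2 := by
      refine Finset.sum_congr rfl fun n hn => ?_
      rw [Finset.mem_Ico, d.hm0] at hn
      push_cast at hn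
      rw [dil_apply, negP, Finsupp.filter_apply_pos _ _ (by omega), norm_mul, mul_pow,
        gg_norm i N y (by omega), Complex.norm_real, Real.norm_of_nonneg (by positivity),
        ← mul_assoc, ← mul_pow]
      congr 2
      rw [← Real.rpow_intCast, ← Real.exp_mul, ← Real.exp_add]
      congr 1
      ring
    rw [e4, d.neg_sum (Nat.zero_le i)]
    refine (d.energy hv (Nat.zero_le i) h).trans ?_
    have h5 : Real.sqrt (En m c (0 + 1)) ≤ 1 := d.sqrt_En_le _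
    rw [mul_pow, rt_sq]
    have := Real.sqrt_nonneg v
    nlinarith
  rw [e1, e2, ← mul_add, inv_mul_eq_div]
  refine div_le_div_of_nonneg_right ?_ hv0.le
  linarith

lemma Dat.AA_mean (d : Dat L m η₀ c) {v y D₂ D : ℝ} (hv : 1 ≤ v) (hy : 0 ≤ y) (hD : 0 < D)
    (hDD : D < D₂) {i N : ℕ} (h : Adm m c (1 / 4) v i (y + D₂)) :
    mu.real {θ | 1 < AA (((v⁻¹ : ℝ) : ℂ) • gg m c i N y) D₂ ((Real.exp (-D) : ℝ) * ze θ)}
      ≤ 3 * rt v / v := by
  obtain ⟨h1, h2, h3⟩ := d.AA_int hv hy hD hDD (N := N) h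
  refine (markov h1 h2 one_pos).trans ?_
  rwa [div_one]

end

end Pool.Agent.H197.HLQ
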