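import Pool.Agent.H197.HLQ.SZero

/-!
# Asymptotic inequalities
-/

namespace Pool.Agent.H197.HLQ

noncomputable section

open Filter Topology Set

lemma rt_eq {v : ℝ} (hv : 0 ≤ v) : rt v = v ^ (1 / 4 : ℝ) := by
  rw [rt, Real.sqrt_eq_rpow, Real.sqrt_eq_rpow, ← Real.rpow_mul hv]
  norm_num

lemma rt_tendsto : Tendsto rt atTop atTop :=
  Real.tendsto_sqrt_atTop.comp Real.tendsto_sqrt_atTop

/-- Logarithms are dominated by fourth roots. -/
lemma ev_log (a b : ℝ) : ∀ᶠ v in atTop, a + b * Real.log v ≤ rt v := by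
  have h1 : Tendsto (fun v : ℝ => Real.log v / v ^ (1 / 4 : ℝ)) atTop (𝓝 0) :=
    (isLittleO_log_rpow_atTop (show (0 : ℝ) < 1 / 4 by norm_num)).tendsto_div_nhds_zero
  have h2 : Tendsto (fun v : ℝ => a / rt v + b * (Real.log v / v ^ (1 / 4 : ℝ))) atTop
      (𝓝 (0 + b * 0)) := (tendsto_const_nhds.div_atTop rt_tendsto).add (h1.const_mul b)
  rw [mul_zero, add_zero] at h2
  filter_upwards [h2.eventually_le_const zero_lt_one, eventually_gt_atTop 0] with v hv hv0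
  have hr := rt_pos hv0
  rw [← rt_eq hv0.le] at hv
  have h3 : a + b * Real.log v = (a / rt v + b * (Real.log v / rt v)) * rt v := by
    field_simp
  rw [h3]
  exact mul_le_of_le_one_left hr.le hv

lemma rt_le_sqrt {v : ℝ} (hv : 1 ≤ v) : rt v ≤ Real.sqrt v := by
  have h1 := one_le_rt hv
  rw [← rt_sq]
  nlinarith

lemma sqrt_le_self' {v : ℝ} (hv : 1 ≤ v) : Real.sqrt v ≤ v := by
  have h1 : 1 ≤ Real.sqrt v := by rwa [Real.one_le_sqrt]
  nlinarith [Real.sq_sqrt (show 0 ≤ v by linarith)]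

lemma ev_exp1 {a : ℝ} (ha : 0 < a) : ∀ᶠ v in atTop, Real.sqrt v * Real.exp (-(a * v)) ≤ 1 / rt v := by
  have h1 := tendsto_rpow_mul_exp_neg_mul_atTop_nhds_zero (3 / 4) a ha
  filter_upwards [h1.eventually_le_const zero_lt_one, eventually_gt_atTop 0] with v hv hv0
  rw [le_div_iff₀ (rt_pos hv0), rt_eq hv0.le, Real.sqrt_eq_rpow]
  refine le_trans (le_of_eq ?_) hv
  rw [show (3 / 4 : ℝ) = 1 / 2 + 1 / 4 by norm_num, Real.rpow_add hv0, neg_mul]
  ring

lemma ev_exp2 : ∀ᶠ v in atTop, Real.sqrt v * Real.exp (-(Real.sqrt v / 2)) ≤ 1 / rt v := by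
  have h1 := (tendsto_rpow_mul_exp_neg_mul_atTop_nhds_zero (3 / 2) (1 / 2) (by norm_num)).comp
    Real.tendsto_sqrt_atTop
  filter_upwards [h1.eventually_le_const zero_lt_one, eventually_gt_atTop 0] with v hv hv0
  have hs : 0 < Real.sqrt v := Real.sqrt_pos.mpr hv0
  rw [le_div_iff₀ (rt_pos hv0)]
  refine le_trans (le_of_eq ?_) hv
  simp only [Function.comp_apply]
  rw [show (3 / 2 : ℝ) = 1 + 1 / 2 by norm_num, Real.rpow_add hs, Real.rpow_one, rt,
    Real.sqrt_eq_rpow (Real.sqrt v)]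
  have : -(Real.sqrt v / 2) = -(1 / 2) * Real.sqrt v := by ring
  rw [this]
  ring

/-- All the error terms are small. -/
lemma ev_small {a C ε : ℝ} (ha : 0 < a) (hε : 0 < ε) : ∀ᶠ v in atTop, ∀ p : ℝ, p ≤ 1 / 8 →
    2 * (Real.sqrt v * Real.exp (-(a * v))) + 2 * (Real.sqrt v * Real.exp (-(Real.sqrt v / 2)))
      + C * (1 / rt v) ≤ ε * v ^ (-p) := by
  have h1 : Tendsto (fun v : ℝ => v ^ (1 / 8 : ℝ)) atTop atTop :=
    tendsto_rpow_atTop (by norm_num)
  filter_upwards [ev_exp1 ha, ev_exp2, h1.eventually_ge_atTop ((4 + |C|) / ε),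
    eventually_ge_atTop 1] with v h2 h3 h4 h5 p hp
  have hv0 : 0 < v := by linarith
  have hr := rt_pos hv0
  have h6 : v ^ (-(1 / 8) : ℝ) ≤ v ^ (-p) := Real.rpow_le_rpow_of_exponent_le h5 (by linarith)
  have h7 : C * (1 / rt v) ≤ |C| * (1 / rt v) :=
    mul_le_mul_of_nonneg_right (le_abs_self C) (by positivity)
  have h8 : (4 + |C|) * (1 / rt v) ≤ ε * v ^ (-(1 / 8) : ℝ) := by
    rw [div_le_iff₀ hε] at h4
    have h9 : rt v = v ^ (1 / 8 : ℝ) * v ^ (1 / 8 : ℝ) := by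
      rw [rt_eq hv0.le, ← Real.rpow_add hv0]
      norm_num
    rw [h9, Real.rpow_neg hv0.le]
    have h10 : 0 < v ^ (1 / 8 : ℝ) := by positivity
    rw [mul_one_div, div_le_iff₀ (by positivity)]
    calc 4 + |C| ≤ v ^ (1 / 8 : ℝ) * ε := h4
      _ = ε * (v ^ (1 / 8 : ℝ))⁻¹ * (v ^ (1 / 8 : ℝ) * v ^ (1 / 8 : ℝ)) := by
        field_simp
  have h11 := mul_le_mul_of_nonneg_left h6 hε.le
  have h12 : (4 + |C|) * (1 / rt v) = 4 * (1 / rt v) + |C| * (1 / rt v) := by ring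
  linarith

lemma ev_big1 (L : ℕ) : ∀ᶠ v in atTop, Big1 L v := by
  have hL0 : (0 : ℝ) ≤ L := Nat.cast_nonneg _
  have h4 : ∀ᶠ v in atTop, 1 ≤ Real.log v := Real.tendsto_log_atTop.eventually_ge_atTop 1
  have h5 : ∀ᶠ v in atTop, (L + 1) * (Real.log 2 + Real.log (L + 1) / 2 + Real.log (2 + L))
      + Real.log 2 ≤ (L + 1) * Real.log v := by
    have : Tendsto (fun v => ((L : ℝ) + 1) * Real.log v) atTop atTop :=
      Tendsto.const_mul_atTop (by positivity) Real.tendsto_log_atTop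
    exact this.eventually_ge_atTop _
  filter_upwards [eventually_ge_atTop 2, eventually_ge_atTop (4 * (L + 1) : ℝ), h4, h5,
    rt_tendsto.eventually_ge_atTop 2] with v h1 h2 h4 h5 h6
  have hv0 : 0 < v := by linarith
  refine ⟨h1, ?_, h4, ?_, ?_⟩
  · nlinarith
  · have h7 : Real.log (1 + L + v) ≤ Real.log (2 + L) + Real.log v := by
      rw [← Real.log_mul (by positivity) (by positivity)]
      refine Real.log_le_log (by positivity) ?_
      nlinarith
    have h8 := mul_le_mul_of_nonneg_left h7 (show (0 : ℝ) ≤ L + 1 by positivity)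
    linarith
  · have h8 := rt_sq (v := v)
    have h9 := sqrt_le_self' (show 1 ≤ v by linarith)
    nlinarith

/-- The choice of the exponent. -/
lemma exists_p {K b t : ℝ} (hK : 0 < K) (hb : 0 < b) (hbt : b < t) :
    ∃ p : ℝ, 0 < p ∧ p ≤ 1 / 8 ∧ K ^ p * (b ^ (1 - p) / (1 - p)) ≤ t := by
  have h1 : ContinuousAt (fun p : ℝ => K ^ p * (b ^ (1 - p) / (1 - p))) 0 := by
    refine ContinuousAt.mul (Real.continuousAt_const_rpow hK.ne') (ContinuousAt.div ?_ ?_ ?_)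
    · exact ContinuousAt.rpow continuousAt_const (continuousAt_const.sub continuousAt_id)
        (Or.inl hb.ne')
    · exact continuousAt_const.sub continuousAt_id
    · norm_num
  have h2 : (fun p : ℝ => K ^ p * (b ^ (1 - p) / (1 - p))) 0 < t := by
    simp only [Real.rpow_zero, sub_zero, Real.rpow_one, div_one, one_mul]
    exact hbt
  have h3 : ∀ᶠ p in 𝓝[>] (0 : ℝ), K ^ p * (b ^ (1 - p) / (1 - p)) ≤ t := by
    have h4 : ∀ᶠ p in 𝓝[>] (0 : ℝ), K ^ p * (b ^ (1 - p) / (1 - p)) < t :=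
      (h1.eventually_lt_const h2).filter_mono nhdsWithin_le_nhds
    exact h4.mono fun p hp => le_of_lt hp
  obtain ⟨p, hp1, hp2⟩ := (h3.and (Ioc_mem_nhdsGT (show (0 : ℝ) < 1 / 8 by norm_num))).exists
  exact ⟨p, hp2.1, hp2.2, hp1⟩

end

end Pool.Agent.H197.HLQ
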