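import Pool.Agent.H197.HLQ.Cases

/-!
# The degenerate case of the induction step
-/

namespace Pool.Agent.H197.HLQ

noncomputable section

open MeasureTheory AddCircle Complex Set Filter Topology
open Pool.Agent.W767.HL

variable {L : ℕ} {m : ℕ → ℕ} {η₀ : ℝ} {c : ℤ → ℂ}

/-- A coefficient of a Laurent polynomial is bounded by its `L¹` norm. -/
lemma coef_le (G : ℤ →₀ ℂ) (n : ℤ) : ‖G n‖ ≤ ∫ θ, ‖ev G (ze θ)‖ ∂mu := by
  set F : Lp ℂ 2 mu := ∑ n ∈ G.support, G n • fourierLp 2 n with hF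
  have hcoe : (F : Ci → ℂ) =ᵐ[mu] fun θ => ev G (ze θ) := by
    have h3 : F = ContinuousMap.toLp (E := ℂ) 2 mu ℂ (∑ i ∈ G.support, G i • fourier i) := by
      rw [hF, map_sum]
      refine Finset.sum_congr rfl fun i _ => ?_
      rw [map_smul]
    rw [h3]
    refine (ContinuousMap.coeFn_toLp mu _).trans (Filter.Eventually.of_forall fun θ => ?_)
    simp only [ContinuousMap.coe_sum, Finset.sum_apply, ContinuousMap.smul_apply, smul_eq_mul,
      fourier_eq, ev_eq_sum, Finsupp.sum]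
  have h1 : fourierCoeff F n = G n := by
    rw [← inner_fourier, hF, map_sum]
    have h2 : ∀ k ∈ G.support, (innerSL ℂ (fourierLp 2 n : Lp ℂ 2 mu))
        (G k • (fourierLp 2 k : Lp ℂ 2 mu)) = if n = k then G k else 0 := by
      intro k _
      rw [map_smul, innerSL_apply_apply]
      have := orthonormal_iff_ite.mp (orthonormal_fourier (T := 1)) n k
      rw [this, smul_eq_mul]
      split_ifs
      · rw [mul_one]
      · rw [mul_zero]
    rw [Finset.sum_congr rfl h2, Finset.sum_ite_eq]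
    split_ifs with h3
    · rfl
    · exact (Finsupp.notMem_support_iff.mp h3).symm
  rw [← h1]
  refine (coeff_bound F n).trans (le_of_eq ?_)
  refine integral_congr_ae ?_
  filter_upwards [hcoe] with θ h4
  rw [h4]

/-- A point with a prescribed lower bound. -/
lemma exists_big {G : ℤ →₀ ℂ} {c₀ a b : ℝ} (hc₀ : 0 < c₀)
    (hG1 : 2 * c₀ ≤ ∫ θ, ‖ev G (ze θ)‖ ∂mu) (hG2 : ∫ θ, ‖ev G (ze θ)‖ ^ 2 ∂mu ≤ a)
    {B : Set Ci} (hB : mu.real B ≤ b) (hab : a * b < c₀ ^ 2) :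
    ∃ x, c₀ ≤ ‖ev G (ze x)‖ ∧ x ∉ B := by
  by_contra hcon
  push Not at hcon
  set S : Set Ci := {x | c₀ ≤ ‖ev G (ze x)‖} with hS
  have hSm : MeasurableSet S :=
    (isClosed_le continuous_const (continuous_ev_ze G).norm).measurableSet
  have hSB : mu.real S ≤ b := (measureReal_mono fun x hx => hcon x hx).trans hB
  have h1 : ∫ θ in S, ‖ev G (ze θ)‖ ∂mu + ∫ θ in Sᶜ, ‖ev G (ze θ)‖ ∂mu
      = ∫ θ, ‖ev G (ze θ)‖ ∂mu := integral_add_compl hSm (integrable_ev G)
  have h2 : ∫ θ in Sᶜ, ‖ev G (ze θ)‖ ∂mu ≤ c₀ := by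
    calc ∫ θ in Sᶜ, ‖ev G (ze θ)‖ ∂mu ≤ ∫ θ in Sᶜ, c₀ ∂mu := by
          refine setIntegral_mono_on (integrable_ev G).integrableOn (integrable_const _) hSm.compl
            fun x hx => ?_
          simp only [hS, mem_compl_iff, mem_ofPred_eq, not_le] at hx
          exact hx.le
      _ = mu.real Sᶜ * c₀ := by rw [setIntegral_const, smul_eq_mul]
      _ ≤ c₀ := mul_le_of_le_one_left hc₀.le (mu_le_one _)
  have h3 : c₀ ≤ ∫ θ in S, ‖ev G (ze θ)‖ ∂mu := by linarith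
  -- Cauchy–Schwarz
  set J := ∫ θ in S, ‖ev G (ze θ)‖ ∂mu with hJ
  have hb0 : 0 ≤ b := measureReal_nonneg.trans hSB
  have ha0 : 0 ≤ a := (integral_nonneg fun θ => sq_nonneg _).trans hG2
  have h4 : ∀ t : ℝ, 0 ≤ ∫ θ in S, (t * ‖ev G (ze θ)‖ - 1) ^ 2 ∂mu := fun t =>
    integral_nonneg fun θ => sq_nonneg _
  have h5 : ∀ t : ℝ, ∫ θ in S, (t * ‖ev G (ze θ)‖ - 1) ^ 2 ∂mu
      = t ^ 2 * ∫ θ in S, ‖ev G (ze θ)‖ ^ 2 ∂mu - 2 * t * J + mu.real S := by
    intro t
    have e1 : ∀ θ : Ci, (t * ‖ev G (ze θ)‖ - 1) ^ 2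
        = t ^ 2 * ‖ev G (ze θ)‖ ^ 2 - 2 * t * ‖ev G (ze θ)‖ + 1 := fun θ => by ring
    simp only [e1]
    have i1 : Integrable (fun θ => t ^ 2 * ‖ev G (ze θ)‖ ^ 2) (mu.restrict S) :=
      ((integrable_ev2 G).const_mul _).integrableOn
    have i2 : Integrable (fun θ => 2 * t * ‖ev G (ze θ)‖) (mu.restrict S) :=
      ((integrable_ev G).const_mul _).integrableOn
    have i3 : Integrable (fun θ => t ^ 2 * ‖ev G (ze θ)‖ ^ 2 - 2 * t * ‖ev G (ze θ)‖)
      (mu.restrict S) := i1.sub i2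
    rw [integral_add i3 (integrable_const _), integral_sub i1 i2, integral_const_mul,
      integral_const_mul, setIntegral_const, smul_eq_mul, mul_one]
  have h6 : ∫ θ in S, ‖ev G (ze θ)‖ ^ 2 ∂mu ≤ a :=
    (setIntegral_le_integral (integrable_ev2 G) (Filter.Eventually.of_forall fun θ =>
      sq_nonneg _)).trans hG2
  rcases ha0.eq_or_lt with ha | ha
  · have h7 := h4 (b / c₀ + 1)
    rw [h5] at h7
    have h8 : (b / c₀ + 1) ^ 2 * ∫ θ in S, ‖ev G (ze θ)‖ ^ 2 ∂mu ≤ 0 := by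
      rw [← ha] at h6
      exact mul_nonpos_of_nonneg_of_nonpos (sq_nonneg _) h6
    have h9 : (b / c₀ + 1) * c₀ ≤ (b / c₀ + 1) * J :=
      mul_le_mul_of_nonneg_left h3 (by positivity)
    have h10 : (b / c₀ + 1) * c₀ = b + c₀ := by field_simp
    linarith
  · have h7 := h4 (J / a)
    rw [h5] at h7
    have h8 : (J / a) ^ 2 * ∫ θ in S, ‖ev G (ze θ)‖ ^ 2 ∂mu ≤ (J / a) ^ 2 * a :=
      mul_le_mul_of_nonneg_left h6 (sq_nonneg _)
    have h9 : (J / a) ^ 2 * a = J ^ 2 / a := by field_simp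
    have h10 : 2 * (J / a) * J = 2 * (J ^ 2 / a) := by ring
    have h11 : J ^ 2 / a ≤ b := by linarith
    rw [div_le_iff₀ ha] at h11
    have h12 : c₀ ^ 2 ≤ J ^ 2 := pow_le_pow_left₀ hc₀.le h3 2
    linarith

/-- The degenerate case. -/
lemma Dat.caseS (d : Dat L m η₀ c) {v y : ℝ} (hy : 0 ≤ y) (hy1 : y ≤ 1) (hv : 2 ≤ v) {i N j : ℕ}
    (hji : j ≤ i) (h : Adm m c (1 / 4) v i y) {Ds T : ℝ}
    (hDs : 0 < Ds) (hDs1 : Ds ≤ 1) (hT : 0 < T) (hTv : T ≤ v)
    (hj : Adm m c (1 / 4) v j (y + Ds)) (hET : En m c (j + 1) ≤ Real.exp (-2 * T))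
    {n₀ : ℤ} (hn₀ : -(m j : ℤ) ≤ n₀) (hn₀N : n₀ ≤ N) {c₀ : ℝ} (hc₀ : 0 < c₀) (hc₀1 : c₀ ≤ 1)
    (hc₀n : 2 * c₀ ≤ ‖c n₀‖ * Real.exp (-(2 * |(n₀ : ℝ)|)))
    (hbig : 3 * Real.sqrt v * (3 * rt v / v) < c₀ ^ 2) :
    mu.real (Sm (gg m c i N y) v) ≤ 2 * Real.sqrt v * Real.exp (-(T / 2))
      + 16384 * (2 * Real.pi / kap (16 * Real.pi / Ds)) * (2 + Real.log v + (1 - Real.log c₀)) / T
      := by
  have hv1 : (1 : ℝ) ≤ v := by linarith
  have hlv := Real.log_nonneg hv1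
  have hlc : Real.log c₀ ≤ 0 := Real.log_nonpos hc₀.le hc₀1
  have hpi := Real.pi_pos
  set q := 16 * Real.pi / Ds with hq
  have hq0 : 0 ≤ q := by positivity
  have hkp := kap_pos hq0
  set S := Sm (((v⁻¹ : ℝ) : ℂ) • gg m c j N y) (T / 4) with hS
  set G' := gg m c j N (y + Ds / 16) with hG'
  have hadm : Adm m c (1 / 4) v j (y + Ds / 16) := by
    intro k h1 h2
    obtain ⟨h3, h4⟩ := hj k h1 h2
    refine ⟨h3, le_trans ?_ h4⟩
    exact mul_le_mul_of_nonneg_left (by linarith) (Nat.cast_nonneg _)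
  -- a good point
  obtain ⟨x, hx1, hx2⟩ := exists_big (G := G') hc₀ (by
      refine hc₀n.trans (le_trans ?_ (coef_le G' n₀))
      rw [hG', gg_apply, if_pos ⟨hn₀, hn₀N⟩, norm_mul, Complex.norm_real,
        Real.norm_of_nonneg (Real.exp_pos _).le, mul_comm]
      refine mul_le_mul_of_nonneg_right (Real.exp_le_exp.mpr ?_) (norm_nonneg _)
      have h1 : (n₀ : ℝ) * (y + Ds / 16) ≤ |(n₀ : ℝ)| * 2 := by
        refine mul_le_mul (le_abs_self _) (by linarith) (by linarith) (abs_nonneg _)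
      linarith) (d.gg_l2 hv1 (by linarith) hadm)
    (B := {θ | 1 < AA (((v⁻¹ : ℝ) : ℂ) • gg m c j N y) Ds
      ((Real.exp (-(Ds / 16)) : ℝ) * ze θ)})
    (d.AA_mean hv1 hy (D₂ := Ds) (D := Ds / 16) (by linarith) (by linarith) (N := N) hj) hbig
  simp only [mem_ofPred_eq, not_lt] at hx2
  set X := 2 + Real.log v + (1 - Real.log c₀) with hX
  have hX0 : 0 ≤ X := by rw [hX]; linarith
  have hloc : ∀ θ : Ci, T / 4 * mu.real (S ∩ arc θ (Ds / 16))
      ≤ Ds * (2 * Real.pi / kap q) * X := by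
    intro θ
    obtain ⟨x₀, rfl⟩ : ∃ r : ℝ, (r : Ci) = θ := QuotientAddGroup.mk_surjective θ
    obtain ⟨x₁, rfl⟩ : ∃ r : ℝ, (r : Ci) = x := QuotientAddGroup.mk_surjective x
    set t := Int.fract (x₁ - x₀) with ht
    have ht0 : 0 ≤ t := Int.fract_nonneg _
    have ht1 : t ≤ 1 := (Int.fract_lt_one _).le
    have hxe : ((x₀ + t : ℝ) : Ci) = (x₁ : Ci) := by
      have h1 : x₀ + t = x₁ - (⌊x₁ - x₀⌋ : ℝ) := by
        rw [ht, Int.fract]
        ring
      rw [h1, AddCircle.coe_sub]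
      have : ((⌊x₁ - x₀⌋ : ℝ) : Ci) = 0 := by
        rw [AddCircle.coe_eq_zero_iff]
        exact ⟨⌊x₁ - x₀⌋, by simp⟩
      rw [this, sub_zero]
    have h2pi : 2 * Real.pi * t ≤ q * (Ds / 8) := by
      have h1 : q * (Ds / 8) = 2 * Real.pi := by
        rw [hq]
        field_simp
        norm_num
      rw [h1]
      exact mul_le_of_le_one_right (by positivity) ht1
    exact chainA (m := m) (c := c) hv1 (j := j) (N := N) (y := y) (q := q) (x₀ := x₀)
      (t := t) hDs hDs1 (by linarith) (by linarith) ht0 hq0 h2pi (by rw [hxe]; exact hx2) (by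
        rw [hxe]
        intro hcon
        have h1 : ‖ev G' (ze (x₁ : Ci))‖ ≤ Real.exp (-(1 - Real.log c₀)) := hcon
        have h2 : Real.exp (-(1 - Real.log c₀)) < c₀ := by
          have : -(1 - Real.log c₀) = Real.log c₀ - 1 := by ring
          rw [this, Real.exp_sub, Real.exp_log hc₀]
          exact div_lt_self hc₀ (Real.one_lt_exp_iff.mpr one_pos)
        linarith)
  set E := Sm (gg m c i N y) v ∩ S with hEdef
  have h1 := small_avg (E := E) ((measurableSet_Sm _ _).inter (measurableSet_Sm _ _))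
    (l := Ds / 16) (by linarith) (by linarith)
    (R := Ds * (2 * Real.pi / kap q) * X * (4 / T)) (by positivity) (ε := 0)
    (by
      have hempty : {θ | Ds * (2 * Real.pi / kap q) * X * (4 / T)
          < mu.real (E ∩ arc θ (Ds / 16))} = ∅ := by
        ext θ
        simp only [mem_ofPred_eq, mem_empty_iff_false, iff_false, not_lt]
        have h3 : mu.real (E ∩ arc θ (Ds / 16)) ≤ mu.real (S ∩ arc θ (Ds / 16)) :=
          measureReal_mono (Set.inter_subset_inter_left _ Set.inter_subset_right)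
        have h4 := hloc θ
        have h5 : mu.real (S ∩ arc θ (Ds / 16))
            = T / 4 * mu.real (S ∩ arc θ (Ds / 16)) * (4 / T) := by
          field_simp
        rw [h5] at h3
        exact h3.trans (mul_le_mul_of_nonneg_right h4 (by positivity))
      rw [hempty, measureReal_empty])
  have htr := d.transfer hv hji h (N := N) hTv hT.le hET
  rw [← hS] at htr
  have h2 : mu.real (Sm (gg m c i N y) v) ≤ mu.real E + mu.real (Sm (gg m c i N y) v \ S) := by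
    have := measureReal_union_le (μ := mu) E (Sm (gg m c i N y) v \ S)
    rwa [hEdef, Set.inter_union_sdiff] at this
  have h3 : 256 / (Ds / 16) * (Ds * (2 * Real.pi / kap q) * X * (4 / T))
      = 16384 * (2 * Real.pi / kap q) * X / T := by
    field_simp
    ring
  rw [h3] at h1
  linarith

end

end Pool.Agent.H197.HLQ
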