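import Pool.Agent.H197.HLQ.Ann

/-!
# Laurent polynomials: dilations, reflections, Parseval, local Jensen inequalities
-/

namespace Pool.Agent.H197.HLQ

noncomputable section

open MeasureTheory AddCircle Complex Set
open Pool.Agent.W767.HL

/-- Dilation. -/
def dil (ρ : ℝ) (G : ℤ →₀ ℂ) : ℤ →₀ ℂ :=
  Finsupp.onFinset G.support (fun n => ((ρ ^ n : ℝ) : ℂ) * G n) fun n hn => by
    rw [Finsupp.mem_support_iff]
    exact right_ne_zero_of_mul hn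

lemma dil_apply (ρ : ℝ) (G : ℤ →₀ ℂ) (n : ℤ) : dil ρ G n = ((ρ ^ n : ℝ) : ℂ) * G n := rfl

lemma ev_sum_of {G : ℤ →₀ ℂ} {s : Finset ℤ} (h : G.support ⊆ s) (z : ℂ) :
    ev G z = ∑ n ∈ s, G n * z ^ n := by
  rw [ev_eq_sum, Finsupp.sum]
  refine Finset.sum_subset h fun n _ hn => ?_
  rw [Finsupp.notMem_support_iff.mp hn, zero_mul]

lemma ev_dil (ρ : ℝ) (G : ℤ →₀ ℂ) (z : ℂ) : ev (dil ρ G) z = ev G (ρ * z) := by
  have h : (dil ρ G).support ⊆ G.support := Finsupp.support_onFinset_subset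
  rw [ev_sum_of h z, ev_sum_of (Finset.Subset.refl _) (ρ * z)]
  refine Finset.sum_congr rfl fun n _ => ?_
  rw [dil_apply, mul_zpow]
  push_cast
  ring

/-- Reflection. -/
def refl (G : ℤ →₀ ℂ) : ℤ →₀ ℂ := Finsupp.mapDomain (Equiv.neg ℤ) G

lemma refl_apply (G : ℤ →₀ ℂ) (n : ℤ) : refl G n = G (-n) := by
  unfold refl
  rw [Finsupp.mapDomain_equiv_apply]
  rfl

lemma ev_refl (G : ℤ →₀ ℂ) (z : ℂ) : ev (refl G) z = ev G z⁻¹ := by
  unfold ev refl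
  rw [Finsupp.linearCombination_mapDomain]
  congr 1
  congr 1
  ext n
  simp [zpow_neg]

/-- The part with nonnegative frequencies. -/
def posP (G : ℤ →₀ ℂ) : ℤ →₀ ℂ := G.filter fun n => 0 ≤ n

/-- The part with negative frequencies. -/
def negP (G : ℤ →₀ ℂ) : ℤ →₀ ℂ := G.filter fun n => ¬ 0 ≤ n

lemma ev_split (G : ℤ →₀ ℂ) (z : ℂ) : ev (posP G) z + ev (negP G) z = ev G z := by
  rw [← ev_add]
  congr 1
  exact Finsupp.filter_add_filter_not _ _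

lemma posP_neg (G : ℤ →₀ ℂ) (n : ℤ) (hn : n < 0) : posP G n = 0 :=
  Finsupp.filter_apply_neg _ _ (by omega)

lemma negP_nonneg (G : ℤ →₀ ℂ) (n : ℤ) (hn : 0 ≤ n) : negP G n = 0 :=
  Finsupp.filter_apply_neg _ _ (by omega)

/-- The reflected negative part, on the circle of radius `r`. -/
def negQ (r : ℝ) (G : ℤ →₀ ℂ) : ℤ →₀ ℂ := refl (dil r (negP G))

lemma negQ_apply (r : ℝ) (G : ℤ →₀ ℂ) (n : ℤ) :
    negQ r G n = ((r ^ (-n) : ℝ) : ℂ) * negP G (-n) := by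
  rw [negQ, refl_apply, dil_apply]

lemma negQ_neg (r : ℝ) (G : ℤ →₀ ℂ) (n : ℤ) (hn : n < 0) : negQ r G n = 0 := by
  rw [negQ_apply, negP_nonneg G (-n) (by omega), mul_zero]

lemma ev_negQ {r : ℝ} (hr : r ≠ 0) (G : ℤ →₀ ℂ) {z : ℂ} (_hz : z ≠ 0) :
    ev (negQ r G) (r / z) = ev (negP G) z := by
  have hrc : (r : ℂ) ≠ 0 := by exact_mod_cast hr
  rw [negQ, ev_refl, ev_dil, inv_div, mul_div_cancel₀ _ hrc]

lemma diff_ev_ne {G : ℤ →₀ ℂ} {z : ℂ} (hz : z ≠ 0) : DifferentiableAt ℂ (ev G) z := by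
  have : ev G = fun z => ∑ n ∈ G.support, G n * z ^ n := by
    ext z
    rw [ev_eq_sum, Finsupp.sum]
  rw [this]
  refine DifferentiableAt.fun_sum fun n _ => ?_
  exact (differentiableAt_zpow.mpr (Or.inl hz)).const_mul _

/-- Parseval's identity for Laurent polynomials. -/
lemma pars (G : ℤ →₀ ℂ) : ∫ θ, ‖ev G (ze θ)‖ ^ 2 ∂mu = ∑ n ∈ G.support, ‖G n‖ ^ 2 := by
  set F : Lp ℂ 2 mu := ∑ n ∈ G.support, G n • fourierLp 2 n with hF
  have hcoe : (F : Ci → ℂ) =ᵐ[mu] fun θ => ev G (ze θ) := by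
    have h3 : F = ContinuousMap.toLp (E := ℂ) 2 mu ℂ (∑ i ∈ G.support, G i • fourier i) := by
      rw [hF, map_sum]
      refine Finset.sum_congr rfl fun i _ => ?_
      rw [map_smul]
    rw [h3]
    refine (ContinuousMap.coeFn_toLp mu _).trans (Filter.Eventually.of_forall fun θ => ?_)
    simp only [ContinuousMap.coe_sum, Finset.sum_apply, ContinuousMap.smul_apply, smul_eq_mul,
      fourier_eq, ev_eq_sum, Finsupp.sum]
  have h1 : ‖F‖ ^ 2 = ∑ n ∈ G.support, ‖G n‖ ^ 2 := by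
    have h2 := (orthonormal_fourier (T := 1)).inner_sum (fun n => G n) (fun n => G n) G.support
    rw [← hF] at h2
    have h3 := congrArg Complex.re h2
    have h4 : (inner ℂ F F : ℂ).re = ‖F‖ ^ 2 := by
      rw [inner_self_eq_norm_sq_to_K]
      norm_cast
    rw [h4] at h3
    rw [h3, Complex.re_sum]
    refine Finset.sum_congr rfl fun n _ => ?_
    rw [mul_comm, Complex.mul_conj, Complex.ofReal_re, Complex.normSq_eq_norm_sq]
  rw [← h1]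
  have h5 : (inner ℂ F F : ℂ) = ∫ θ, (inner ℂ (F θ) (F θ) : ℂ) ∂mu := L2.inner_def F F
  have h4 : (inner ℂ F F : ℂ) = ((‖F‖ ^ 2 : ℝ) : ℂ) := by
    rw [inner_self_eq_norm_sq_to_K]
    norm_cast
  rw [h4] at h5
  have h6 : ∫ θ, (inner ℂ (F θ) (F θ) : ℂ) ∂mu = ∫ θ, ((‖ev G (ze θ)‖ ^ 2 : ℝ) : ℂ) ∂mu := by
    refine integral_congr_ae ?_
    filter_upwards [hcoe] with θ h7
    rw [h7, inner_self_eq_norm_sq_to_K]
    norm_cast
  rw [h6, integral_complex_ofReal] at h5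
  exact_mod_cast h5.symm

lemma pars' {G : ℤ →₀ ℂ} {s : Finset ℤ} (h : G.support ⊆ s) :
    ∫ θ, ‖ev G (ze θ)‖ ^ 2 ∂mu = ∑ n ∈ s, ‖G n‖ ^ 2 := by
  rw [pars]
  refine Finset.sum_subset h fun n _ hn => ?_
  rw [Finsupp.notMem_support_iff.mp hn, norm_zero]
  simp

lemma integrable_ev (G : ℤ →₀ ℂ) : Integrable (fun θ => ‖ev G (ze θ)‖) mu :=
  integrable_of_cont (continuous_ev_ze G).norm

lemma integrable_ev2 (G : ℤ →₀ ℂ) : Integrable (fun θ => ‖ev G (ze θ)‖ ^ 2) mu :=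
  integrable_of_cont ((continuous_ev_ze G).norm.pow 2)

/-- Cauchy–Schwarz. -/
lemma l1_le {G : ℤ →₀ ℂ} {b : ℝ} (hb : 0 ≤ b) (h : ∫ θ, ‖ev G (ze θ)‖ ^ 2 ∂mu ≤ b ^ 2) :
    ∫ θ, ‖ev G (ze θ)‖ ∂mu ≤ b := by
  set I := ∫ θ, ‖ev G (ze θ)‖ ∂mu with hI
  have h1 : 0 ≤ ∫ θ, (‖ev G (ze θ)‖ - I) ^ 2 ∂mu := integral_nonneg fun θ => sq_nonneg _
  have h2 : ∫ θ, (‖ev G (ze θ)‖ - I) ^ 2 ∂mu = ∫ θ, ‖ev G (ze θ)‖ ^ 2 ∂mu - I ^ 2 := by
    have e1 : ∀ θ : Ci, (‖ev G (ze θ)‖ - I) ^ 2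
        = ‖ev G (ze θ)‖ ^ 2 - 2 * I * ‖ev G (ze θ)‖ + I ^ 2 := fun θ => by ring
    simp only [e1]
    have i1 := integrable_ev2 G
    have i2 := (integrable_ev G).const_mul (2 * I)
    have i3 : Integrable (fun θ => ‖ev G (ze θ)‖ ^ 2 - 2 * I * ‖ev G (ze θ)‖) mu := i1.sub i2
    rw [integral_add i3 (integrable_const _), integral_sub i1 i2, integral_const_mul,
      integral_const, ← hI]
    simp only [probReal_univ, one_smul]
    ring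
  refine le_of_sq_le_sq ?_ hb
  linarith

lemma ze_neg (θ : Ci) : ze (-θ) = (ze θ)⁻¹ := by
  rw [ze, ← conj_ze, ze, fourier_one, fourier_one]
  rw [AddCircle.toCircle_neg, Circle.coe_inv_eq_conj]

/-- The harmonic majorant attached to a Laurent polynomial in the annulus of depth `D₂`. -/
def AA (G : ℤ →₀ ℂ) (D₂ : ℝ) (w : ℂ) : ℝ :=
  ∫ x, P w x * ‖ev (posP G) (ze x)‖ ∂mu
    + ∫ x, P ((Real.exp (-D₂) : ℝ) / w) x * ‖ev (negQ (Real.exp (-D₂)) G) (ze x)‖ ∂mu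

lemma AA_avg (G : ℤ →₀ ℂ) {D₂ D : ℝ} (hD : 0 < D) (hDD : D < D₂) :
    Integrable (fun θ => AA G D₂ ((Real.exp (-D) : ℝ) * ze θ)) mu ∧
    (∀ θ, 0 ≤ AA G D₂ ((Real.exp (-D) : ℝ) * ze θ)) ∧
    ∫ θ, AA G D₂ ((Real.exp (-D) : ℝ) * ze θ) ∂mu
      = ∫ x, ‖ev (posP G) (ze x)‖ ∂mu + ∫ x, ‖ev (negQ (Real.exp (-D₂)) G) (ze x)‖ ∂mu := by
  have h1 := P_fubini (Real.exp_pos (-D)).le (Real.exp_lt_one_iff.mpr (by linarith))
    (integrable_ev (posP G))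
  have h2 := P_fubini (Real.exp_pos (-(D₂ - D))).le (Real.exp_lt_one_iff.mpr (by linarith))
    (integrable_ev (negQ (Real.exp (-D₂)) G))
  have hrw : ∀ θ : Ci, ((Real.exp (-D₂) : ℝ) : ℂ) / ((Real.exp (-D) : ℝ) * ze θ)
      = ((Real.exp (-(D₂ - D)) : ℝ) : ℂ) * ze (-θ) := by
    intro θ
    rw [ze_neg, div_mul_eq_div_div, div_eq_mul_inv (_ / _) (ze θ)]
    congr 1
    rw [← Complex.ofReal_div, ← Real.exp_sub]
    congr 2
    ring
  have h3 : ∀ θ : Ci, AA G D₂ ((Real.exp (-D) : ℝ) * ze θ)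
      = ∫ x, P ((Real.exp (-D) : ℝ) * ze θ) x * ‖ev (posP G) (ze x)‖ ∂mu
        + ∫ x, P ((Real.exp (-(D₂ - D)) : ℝ) * ze (-θ)) x
          * ‖ev (negQ (Real.exp (-D₂)) G) (ze x)‖ ∂mu := by
    intro θ
    rw [AA, hrw]
  have h4 : Integrable (fun θ => ∫ x, P ((Real.exp (-(D₂ - D)) : ℝ) * ze (-θ)) x
          * ‖ev (negQ (Real.exp (-D₂)) G) (ze x)‖ ∂mu) mu := h2.1.comp_neg
  have h5 : ∫ θ, ∫ x, P ((Real.exp (-(D₂ - D)) : ℝ) * ze (-θ)) x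
          * ‖ev (negQ (Real.exp (-D₂)) G) (ze x)‖ ∂mu ∂mu
      = ∫ x, ‖ev (negQ (Real.exp (-D₂)) G) (ze x)‖ ∂mu := by
    rw [← h2.2]
    exact integral_neg_eq_self (fun θ => ∫ x, P ((Real.exp (-(D₂ - D)) : ℝ) * ze θ) x
          * ‖ev (negQ (Real.exp (-D₂)) G) (ze x)‖ ∂mu) mu
  refine ⟨?_, fun θ => ?_, ?_⟩
  · simp only [h3]
    exact h1.1.add h4
  · rw [h3]
    refine add_nonneg (integral_nonneg fun x => mul_nonneg (P_pos ?_ x).le (norm_nonneg _))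
      (integral_nonneg fun x => mul_nonneg (P_pos ?_ x).le (norm_nonneg _))
    · exact rze_norm_lt (Real.exp_pos _).le (Real.exp_lt_one_iff.mpr (by linarith)) _
    · exact rze_norm_lt (Real.exp_pos _).le (Real.exp_lt_one_iff.mpr (by linarith)) _
  · simp only [h3]
    rw [integral_add h1.1 h4, h1.2, h5]

lemma le_of_eps {a b : ℝ} (h : ∀ ε : ℝ, 0 < ε → a * Real.exp (-ε) ≤ b) : a ≤ b := by
  have hcont : Continuous fun ε : ℝ => a * Real.exp (-ε) := by fun_prop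
  have hlim := (hcont.tendsto 0).mono_left (nhdsWithin_le_nhds (s := Set.Ioi (0 : ℝ)))
  simp only [neg_zero, Real.exp_zero, mul_one] at hlim
  exact le_of_tendsto hlim (Filter.eventually_of_mem self_mem_nhdsWithin h)

/-- Linear bound for Laurent polynomials. -/
lemma lin_bound (G : ℤ →₀ ℂ) {D₂ : ℝ} (hD₂1 : D₂ ≤ 1) {τ : ℝ} (hτ : 0 ≤ τ)
    {S : Set Ci} (hS : MeasurableSet S) (hSG : ∀ x ∈ S, ‖ev G (ze x)‖ ≤ Real.exp (-τ))
    {θ : Ci} {l D : ℝ} (hl : 0 < l) (hD : 0 < D) (hDD : D < D₂) {w : ℂ}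
    (hw : ‖w‖ = Real.exp (-D)) (hwθ : ‖w - ze θ‖ + 2 * l ≤ D₂ / 4) :
    ‖ev G w‖ ≤ Real.exp (AA G D₂ w - D * (4 * τ * mu.real (S ∩ arc θ l) / D₂ ^ 2 - 1)) := by
  have hD₂ : 0 < D₂ := hD.trans hDD
  have hr0 := Real.exp_pos (-D₂)
  have hr1 : Real.exp (-D₂) < 1 := Real.exp_lt_one_iff.mpr (by linarith)
  have hw0 : w ≠ 0 := by
    intro h
    rw [h, norm_zero] at hw
    exact (Real.exp_pos _).ne hw
  have hev : ∀ z : ℂ, z ≠ 0 → ev (posP G) z + ev (negQ (Real.exp (-D₂)) G)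
      ((Real.exp (-D₂) : ℝ) / z) = ev G z := by
    intro z hz
    rw [ev_negQ hr0.ne' G hz, ev_split]
  have h1 : ‖ev G w‖ * Real.exp (-AA G D₂ w)
      ≤ Real.exp (-(D * (4 * τ * mu.real (S ∩ arc θ l) / D₂ ^ 2 - 1))) := by
    refine le_of_eps fun ε hε => ?_
    obtain ⟨F, hF1, hF2, hF3, hF4⟩ := exists_norm hr0 hr1 (differentiable_ev (posP_neg G))
      (differentiable_ev (negQ_neg (Real.exp (-D₂)) G)) (show 0 < ε / 4 by linarith)
    have h2 := ann_arc hD₂ hD₂1 hF1 hF2 hτ hS (fun x hx => ?_) hl hD.le hDD.le hw hwθ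
    · refine le_trans ?_ h2
      have h3 := hF4 w (by rw [hw, Real.exp_lt_exp]; linarith)
        (by rw [hw, Real.exp_lt_one_iff]; linarith)
      rw [hev w hw0] at h3
      refine le_trans (le_of_eq ?_) h3
      rw [mul_assoc, ← Real.exp_add]
      congr 2
      rw [AA]
      ring
    · refine (hF3 x).trans ?_
      rw [hev _ (ze_ne x)]
      exact hSG x hx
  rw [Real.exp_neg, ← div_eq_mul_inv, div_le_iff₀ (Real.exp_pos _), ← Real.exp_add] at h1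
  refine h1.trans (le_of_eq ?_)
  congr 1
  ring

/-- Chain bound for Laurent polynomials. -/
lemma chain_bound (G : ℤ →₀ ℂ) {D₂ : ℝ} (hD₂ : 0 < D₂) (hD₂1 : D₂ ≤ 1) {τ : ℝ} (hτ : 0 ≤ τ)
    {S : Set Ci} (hS : MeasurableSet S) (hSG : ∀ x ∈ S, ‖ev G (ze x)‖ ≤ Real.exp (-τ))
    {x₀ t q : ℝ} (ht : 0 ≤ t) (hq : 0 ≤ q) (htq : 2 * Real.pi * t ≤ q * (D₂ / 8)) :
    ‖ev G (((Real.exp (-(D₂ / 16)) : ℝ) : ℂ) * ze ((x₀ + t : ℝ) : Ci))‖ ≤
      Real.exp (AA G D₂ (((Real.exp (-(D₂ / 16)) : ℝ) : ℂ) * ze ((x₀ + t : ℝ) : Ci))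
        - kap q * (D₂ / 8) / Real.pi *
          (4 * τ * mu.real (S ∩ arc (x₀ : Ci) (D₂ / 16)) / D₂ ^ 2 - 1)) := by
  set w : ℂ := ((Real.exp (-(D₂ / 16)) : ℝ) : ℂ) * ze ((x₀ + t : ℝ) : Ci) with hwdef
  have hw : ‖w‖ = Real.exp (-(D₂ / 16)) := norm_rze (Real.exp_pos _).le _
  have hr0 := Real.exp_pos (-D₂)
  have hr1 : Real.exp (-D₂) < 1 := Real.exp_lt_one_iff.mpr (by linarith)
  have hw0 : w ≠ 0 := by
    intro h
    rw [h, norm_zero] at hw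
    exact (Real.exp_pos _).ne hw
  have hev : ∀ z : ℂ, z ≠ 0 → ev (posP G) z + ev (negQ (Real.exp (-D₂)) G)
      ((Real.exp (-D₂) : ℝ) / z) = ev G z := by
    intro z hz
    rw [ev_negQ hr0.ne' G hz, ev_split]
  have h1 : ‖ev G w‖ * Real.exp (-AA G D₂ w)
      ≤ Real.exp (-(kap q * (D₂ / 8) / Real.pi *
          (4 * τ * mu.real (S ∩ arc (x₀ : Ci) (D₂ / 16)) / D₂ ^ 2 - 1))) := by
    refine le_of_eps fun ε hε => ?_
    obtain ⟨F, hF1, hF2, hF3, hF4⟩ := exists_norm hr0 hr1 (differentiable_ev (posP_neg G))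
      (differentiable_ev (negQ_neg (Real.exp (-D₂)) G)) (show 0 < ε / 4 by linarith)
    have h2 := ann_chain hD₂ hD₂1 hF1 hF2 hτ hS (fun x hx => ?_) (x₀ := x₀) ht hq htq
    · refine le_trans ?_ h2
      have h3 := hF4 w (by rw [hw, Real.exp_lt_exp]; linarith)
        (by rw [hw, Real.exp_lt_one_iff]; linarith)
      rw [hev w hw0] at h3
      refine le_trans (le_of_eq ?_) h3
      rw [mul_assoc, ← Real.exp_add]
      congr 2
      rw [AA]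
      ring
    · refine (hF3 x).trans ?_
      rw [hev _ (ze_ne x)]
      exact hSG x hx
  rw [Real.exp_neg, ← div_eq_mul_inv, div_le_iff₀ (Real.exp_pos _), ← Real.exp_add] at h1
  refine h1.trans (le_of_eq ?_)
  congr 1
  ring

end

end Pool.Agent.H197.HLQ
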