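import Pool.Agent.H197.HLQ.Close

/-!
# The induction step
-/

namespace Pool.Agent.H197.HLQ

noncomputable section

open MeasureTheory AddCircle Complex Set Filter Topology
open Pool.Agent.W767.HL

variable {L : ℕ} {m : ℕ → ℕ} {η₀ : ℝ} {c : ℤ → ℂ}

/-- The claim which is proved by induction over the level `u`. -/
def Cl (m : ℕ → ℕ) (c : ℤ → ℂ) (N₀ : ℕ) (A p u : ℝ) : Prop :=
  ∀ (i N : ℕ) (y : ℝ), 0 ≤ y → y ≤ 1 → N₀ ≤ N → Adm m c (1 / 8) u i y →
    En m c (i + 1) ≤ Real.exp (-2 * u) → mu.real (Sm (gg m c i N y) u) ≤ A * u ^ (-p)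

lemma Dat.eta0_le (d : Dat L m η₀ c) : η₀ ≤ 1 := by
  have h1 := d.hη 1 le_rfl
  have h2 : (0 : ℝ) < m 1 := by exact_mod_cast d.m_pos le_rfl
  have h3 : (0 : ℝ) ≤ m (1 - 1) := Nat.cast_nonneg _
  by_contra h
  push Not at h
  nlinarith

lemma Dat.Rp_ge (d : Dat L m η₀ c) : 7 ≤ Rp L η₀ := by
  have h1 := d.eta0_le
  have h2 := C4_ge L
  unfold Rp
  rw [le_div_iff₀ d.hη₀]
  linarith

/-- A negative frequency with a nonzero coefficient. -/
lemma Dat.freq (d : Dat L m η₀ c) {n₀ : ℤ} (hn : n₀ < 0) (hc : c n₀ ≠ 0) :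
    ∃ k, 1 ≤ k ∧ n₀ = -(m k : ℤ) := by
  have hex : ∃ k, -n₀ ≤ (m k : ℤ) := by
    refine ⟨n₀.natAbs, ?_⟩
    have := d.hm.le_apply (x := n₀.natAbs)
    omega
  classical
  set k := Nat.find hex with hk
  have hk1 : -n₀ ≤ (m k : ℤ) := Nat.find_spec hex
  have hk0 : k ≠ 0 := by
    intro h
    rw [h, d.hm0] at hk1
    push_cast at hk1
    omega
  refine ⟨k, by omega, ?_⟩
  have hk2 : ¬ -n₀ ≤ (m (k - 1) : ℤ) := Nat.find_min hex (by omega)
  by_contra hne
  exact hc (d.hspec k (by omega) n₀ (by omega) (by omega))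

/-- The quantities `eta k + log v` and the dilation of the minimising index. -/
lemma Dat.minim (d : Dat L m η₀ c) {v ε₀ : ℝ} (hv : 1 < v) {j : ℕ}
    (h : ¬ ∀ k, 1 ≤ k → k ≤ j → m k * ε₀ ≤ eta m c k + Real.log v) :
    ∃ (k : ℕ) (Y : ℝ), 1 ≤ k ∧ k ≤ j ∧ 0 < Y ∧ Y < ε₀ ∧ m k * Y = eta m c k + Real.log v ∧
      ∀ l, 1 ≤ l → l ≤ j → m l * Y ≤ eta m c l + Real.log v := by
  push Not at h
  obtain ⟨k₁, h1, h2, h3⟩ := h
  obtain ⟨k, hk, hmin⟩ := Finset.exists_min_image (Finset.Icc 1 j)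
    (fun k => (eta m c k + Real.log v) / m k) ⟨k₁, Finset.mem_Icc.mpr ⟨h1, h2⟩⟩
  rw [Finset.mem_Icc] at hk
  have hlv := Real.log_pos hv
  have hmk : (0 : ℝ) < m k := by exact_mod_cast d.m_pos hk.1
  have hmk₁ : (0 : ℝ) < m k₁ := by exact_mod_cast d.m_pos h1
  have hη := d.eta_nonneg k
  refine ⟨k, (eta m c k + Real.log v) / m k, hk.1, hk.2, by positivity, ?_, ?_, ?_⟩
  · refine lt_of_le_of_lt (hmin k₁ (Finset.mem_Icc.mpr ⟨h1, h2⟩)) ?_
    rw [div_lt_iff₀ hmk₁]
    linarith
  · field_simp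
  · intro l hl1 hl2
    have hml : (0 : ℝ) < m l := by exact_mod_cast d.m_pos hl1
    have := hmin l (Finset.mem_Icc.mpr ⟨hl1, hl2⟩)
    rw [le_div_iff₀ hml] at this
    linarith

/-- Constants. -/
def a2 (L : ℕ) (η₀ : ℝ) : ℝ := 4096 * (L + 1) * Rp L η₀
/-- Constants. -/
def a4 (L : ℕ) (η₀ : ℝ) : ℝ := 32 * Rp L η₀ * a2 L η₀
/-- Constants. -/
def aL (L : ℕ) (η₀ : ℝ) : ℝ := 256 * (L + 1) * a4 L η₀
/-- Constants. -/
def qB (L : ℕ) (η₀ : ℝ) : ℝ := 64 * Real.pi * aL L η₀
/-- Constants. -/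
def kB (L : ℕ) (η₀ : ℝ) : ℝ := 32768 * (8 * a2 L η₀)
/-- Constants. -/
def c6 (L : ℕ) (η₀ : ℝ) : ℝ :=
  16384 * (2 * Real.pi / kap (qB L η₀)) * (2 * C4 L) * (C4 L + 1)

lemma Dat.consts (d : Dat L m η₀ c) : 1 ≤ a2 L η₀ ∧ a2 L η₀ ≤ a4 L η₀ ∧ a4 L η₀ ≤ aL L η₀ ∧
    0 ≤ qB L η₀ ∧ 1 ≤ kB L η₀ ∧ 1 ≤ c6 L η₀ := by
  have hR := d.Rp_ge
  have hL0 : (0 : ℝ) ≤ L := Nat.cast_nonneg _
  have hC := C4_ge L
  have hpi := Real.pi_gt_three
  have h1 : 1 ≤ a2 L η₀ := by
    unfold a2
    nlinarith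
  have h2 : a2 L η₀ ≤ a4 L η₀ := by
    unfold a4
    nlinarith
  have h3 : a4 L η₀ ≤ aL L η₀ := by
    unfold aL
    have : 0 < a4 L η₀ := by linarith
    nlinarith
  have h4 : 0 ≤ qB L η₀ := by
    unfold qB
    have : 0 < aL L η₀ := by linarith
    positivity
  refine ⟨h1, h2, h3, h4, ?_, ?_⟩
  · unfold kB
    linarith
  · unfold c6
    have hk := kap_pos h4
    have hk1 := kap_le_one h4
    have h5 : 1 ≤ 2 * Real.pi / kap (qB L η₀) := by
      rw [le_div_iff₀ hk]
      linarith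
    have h6 : 1 ≤ 2 * C4 L := by linarith
    have h7 : 1 ≤ C4 L + 1 := by linarith
    have h8 : 1 ≤ 16384 * (2 * Real.pi / kap (qB L η₀)) := by linarith
    have h9 : 1 ≤ 16384 * (2 * Real.pi / kap (qB L η₀)) * (2 * C4 L) :=
      one_le_mul_of_one_le_of_one_le h8 h6
    exact one_le_mul_of_one_le_of_one_le h9 h7

lemma le_sqrt_self {t : ℝ} (h0 : 0 ≤ t) (h1 : t ≤ 1) : t ≤ Real.sqrt t := by
  have h3 : Real.sqrt t ≤ 1 := by
    rw [show (1 : ℝ) = Real.sqrt 1 by rw [Real.sqrt_one]]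
    exact Real.sqrt_le_sqrt h1
  nlinarith [Real.mul_self_sqrt h0, Real.sqrt_nonneg t]

/-- The induction step. -/
theorem Dat.step (d : Dat L m η₀ c) {n₀ : ℤ} (hn₀ : c n₀ ≠ 0) :
    ∃ p : ℝ, 0 < p ∧ p ≤ 1 / 8 ∧ ∀ᶠ v in atTop, ∀ A : ℝ, 1 ≤ A →
      (∀ u, rt v ≤ u → u ≤ v / 2 → Cl m c n₀.natAbs A p u) → Cl m c n₀.natAbs A p v := by
  obtain ⟨ha2, ha24, ha4L, hqB, hkB, hc6⟩ := d.consts
  have hR := d.Rp_ge
  have hL0 : (0 : ℝ) ≤ L := Nat.cast_nonneg _
  have hC := C4_ge L
  have hpi := Real.pi_gt_three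
  have haL : 1 ≤ aL L η₀ := by linarith
  have hkap := kap_pos hqB
  -- the threshold for case B
  set τ₀ : ℝ := min (1 / (4 * C4 L)) ((1 / (8 * kB L η₀ * c6 L η₀)) ^ 2) with hτ₀
  have hτ₀0 : 0 < τ₀ := lt_min (by positivity) (by positivity)
  have hτ₀1 : τ₀ ≤ 1 / (4 * C4 L) := min_le_left _ _
  have hτ₀2 : Real.sqrt τ₀ * (8 * kB L η₀ * c6 L η₀) ≤ 1 := by
    have h1 : Real.sqrt τ₀ ≤ 1 / (8 * kB L η₀ * c6 L η₀) := by
      rw [Real.sqrt_le_left (by positivity)]
      exact min_le_right _ _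
    calc Real.sqrt τ₀ * (8 * kB L η₀ * c6 L η₀)
        ≤ 1 / (8 * kB L η₀ * c6 L η₀) * (8 * kB L η₀ * c6 L η₀) :=
          mul_le_mul_of_nonneg_right h1 (by positivity)
      _ = 1 := by field_simp
  have hτ₀3 : τ₀ ≤ 1 := by
    refine hτ₀1.trans ?_
    rw [div_le_one (by positivity)]
    linarith
  have hK1 : 0 < K1 L := by unfold K1; positivity
  -- the exponent
  obtain ⟨p, hp0, hp1, hP1⟩ := exists_p (K := 2 * K1 L / τ₀) (b := 1 - 1 / (2 * ((L : ℝ) + 1)))
    (t := 1 - 3 / (8 * ((L : ℝ) + 1))) (by positivity) (by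
      have : 1 / (2 * ((L : ℝ) + 1)) ≤ 1 / 2 := by
        rw [div_le_div_iff₀ (by positivity) (by norm_num)]
        linarith
      linarith) (by
      have e1 : 1 / (2 * ((L : ℝ) + 1)) = 4 * (1 / (8 * ((L : ℝ) + 1))) := by
        field_simp
        norm_num
      have e2 : 3 / (8 * ((L : ℝ) + 1)) = 3 * (1 / (8 * ((L : ℝ) + 1))) := by ring
      have e3 : 0 < 1 / (8 * ((L : ℝ) + 1)) := by positivity
      rw [e1, e2]
      linarith)
  refine ⟨p, hp0, hp1, ?_⟩
  -- the constants of the degenerate case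
  set ε₀ : ℝ := 1 / aL L η₀ with hε₀
  have hε₀0 : 0 < ε₀ := by positivity
  have hε₀1 : ε₀ ≤ 1 := by
    rw [hε₀, div_le_one (by positivity)]
    exact haL
  set c₀ : ℝ := ‖c n₀‖ * Real.exp (-(2 * |(n₀ : ℝ)|)) / 2 with hc₀
  have hcn : 0 < ‖c n₀‖ := norm_pos_iff.mpr hn₀
  have hc₀0 : 0 < c₀ := by positivity
  have hcn1 : ‖c n₀‖ ≤ 1 := by
    have h1 : ‖c n₀‖ ^ 2 ≤ 1 := (d.hsum.le_tsum n₀ fun _ _ => sq_nonneg _).trans d.htot
    nlinarith
  have hc₀1 : c₀ ≤ 1 := by
    have h1 : Real.exp (-(2 * |(n₀ : ℝ)|)) ≤ 1 := Real.exp_le_one_iff.mpr (by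
      have := abs_nonneg (n₀ : ℝ)
      linarith)
    have h2 : ‖c n₀‖ * Real.exp (-(2 * |(n₀ : ℝ)|)) ≤ 1 * 1 :=
      mul_le_mul hcn1 h1 (Real.exp_pos _).le zero_le_one
    rw [hc₀]
    linarith
  have hlc : Real.log c₀ ≤ 0 := Real.log_nonpos hc₀0.le hc₀1
  set qS : ℝ := 16 * Real.pi / (ε₀ / 8) with hqS
  have hqS0 : 0 ≤ qS := by positivity
  have hkS := kap_pos hqS0
  set CS : ℝ := 16384 * (2 * Real.pi / kap qS) * (2 * C4 L) * (4 - Real.log c₀) with hCS
  have hCS0 : 0 ≤ CS := by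
    have : 0 ≤ 4 - Real.log c₀ := by linarith
    positivity
  have hexpT : ∀ᶠ v in atTop, Real.exp (-2 * (v / (2 * C4 L))) < ‖c n₀‖ ^ 2 := by
    have h1 : Tendsto (fun v : ℝ => Real.exp (-2 * (v / (2 * C4 L)))) atTop (𝓝 0) := by
      have h2 : Tendsto (fun v : ℝ => -2 * (v / (2 * C4 L))) atTop atBot := by
        have h3 : Tendsto (fun v : ℝ => v / (2 * C4 L)) atTop atTop :=
          tendsto_id.atTop_div_const (by positivity)
        exact h3.const_mul_atTop_of_neg (by norm_num)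
      exact Real.tendsto_exp_atBot.comp h2
    exact h1.eventually_lt_const (by positivity)
  have hbigE : ∀ᶠ v in atTop, 9 / rt v < c₀ ^ 2 := by
    have h1 : Tendsto (fun v : ℝ => 9 / rt v) atTop (𝓝 0) :=
      tendsto_const_nhds.div_atTop rt_tendsto
    exact h1.eventually_lt_const (by positivity)
  filter_upwards [ev_big1 L, ev_log 2 1, ev_log 2 (1 + C4 L), eventually_ge_atTop (2 * C4 L),
    hexpT, hbigE, ev_small (a := τ₀ / 2) (C := 5 + 2 * K1 L / τ₀) (ε := 1 / (4 * ((L : ℝ) + 1)))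
      (by positivity) (by positivity),
    ev_small (a := 1 / (4 * C4 L)) (C := 1024 * (26 * (L + 1) + 3) + 2 * kB L η₀) (ε := 1 / 2)
      (by positivity) (by norm_num),
    ev_small (a := 1 / (4 * C4 L)) (C := c6 L η₀ + 1024 * (26 * (L + 1))) (ε := 1)
      (by positivity) one_pos,
    ev_small (a := 1 / (4 * C4 L)) (C := CS) (ε := 1) (by positivity) one_pos]
    with v hB1 hE2 hE3 hE4 hE7 hE8 hN1 hN2 hN3 hN4
  intro A hA hIH i N y hy0 hy1 hNN hAdm hEi
  have hv2 := hB1.h2
  have hv1 : (1 : ℝ) ≤ v := by linarith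
  have hv0 : (0 : ℝ) < v := by linarith
  have hlv := hB1.h4
  have hr := rt_pos hv0
  have hr1 := one_le_rt hv1
  have hsv := sqrt_le_self' hv1
  have hrs := rt_le_sqrt hv1
  have hs1 : 1 ≤ Real.sqrt v := hr1.trans hrs
  have hvp : 0 < v ^ (-p) := Real.rpow_pos_of_pos hv0 _
  have hAv : v ^ (-p) ≤ A * v ^ (-p) := le_mul_of_one_le_left hvp.le hA
  rw [one_mul] at hE2
  have hrv : rt v / v ≤ 1 / rt v := by
    rw [div_le_div_iff₀ hv0 hr, one_mul, ← sq, rt_sq]
    exact hsv
  have hsvv : Real.sqrt v / v ≤ 1 / rt v := by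
    rw [div_le_div_iff₀ hv0 hr, one_mul]
    calc Real.sqrt v * rt v ≤ Real.sqrt v * Real.sqrt v :=
          mul_le_mul_of_nonneg_left hrs (by linarith)
      _ = v := Real.mul_self_sqrt hv0.le
  have hC4log : C4 L * Real.log v ≤ v / 2 := by
    have h1 : rt v ≤ v / 2 := by linarith [hB1.h6]
    linarith
  -- the level
  set T : ℝ := v / (2 * C4 L) with hT
  have hT0 : 0 < T := by positivity
  have hTC : C4 L * T = v / 2 := by
    rw [hT]
    field_simp
  have hTv : T ≤ v / 8 := by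
    rw [hT]
    exact div_le_div_of_nonneg_left hv0.le (by norm_num) (by linarith)
  have hlog2 : Real.log 2 ≤ 1 := by
    have := Real.log_le_sub_one_of_pos (show (0 : ℝ) < 2 by norm_num)
    linarith
  have hexp2 : ∀ {a b : ℝ}, 1 / 2 ≤ b - a → 2 * Real.exp (-2 * b) ≤ Real.exp (-2 * a) := by
    intro a b hab
    have h1 : (2 : ℝ) = Real.exp (Real.log 2) := (Real.exp_log two_pos).symm
    nth_rewrite 1 [h1]
    rw [← Real.exp_add, Real.exp_le_exp]
    linarith
  have hAdm4 : Adm m c (1 / 4) v i y := by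
    intro k h1 h2
    obtain ⟨h3, h4⟩ := hAdm k h1 h2
    refine ⟨h3, h4.trans ?_⟩
    have := d.eta_nonneg k
    linarith
  -- the truncation index
  classical
  set j := Nat.findGreatest (fun k => Real.exp (-2 * T) < En m c k) i with hj
  have hji : j ≤ i := Nat.findGreatest_le i
  have hjT : ∀ k, 1 ≤ k → k ≤ j → Real.exp (-2 * T) < En m c k := by
    intro k h1 h2
    have h3 : Real.exp (-2 * T) < En m c j := Nat.findGreatest_of_ne_zero (m := j) hj.symm (by omega)
    exact h3.trans_le (d.En_anti h2)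
  have hEj : En m c (j + 1) ≤ Real.exp (-2 * T) := by
    by_cases h1 : j + 1 ≤ i
    · exact not_lt.mp (Nat.findGreatest_is_greatest (P := fun k => Real.exp (-2 * T) < En m c k)
        (n := i) (k := j + 1) (by rw [← hj]; omega) h1)
    · have h2 : j = i := by omega
      rw [h2]
      refine hEi.trans (Real.exp_le_exp.mpr ?_)
      linarith
  have hηT : ∀ k, 1 ≤ k → k ≤ j → eta m c k < T := by
    intro k h1 h2
    have h3 := Real.log_lt_log (Real.exp_pos _) (hjT k h1 h2)
    rw [Real.log_exp] at h3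
    unfold eta
    linarith
  by_cases hdeg : ∀ k, 1 ≤ k → k ≤ j → m k * ε₀ ≤ eta m c k + Real.log v
  · -- the degenerate case
    have hn₀j : -(m j : ℤ) ≤ n₀ := by
      rcases lt_or_ge n₀ 0 with h1 | h1
      · obtain ⟨k₀, hk₀, hk₀n⟩ := d.freq h1 hn₀
        have h2 : ‖c n₀‖ ^ 2 ≤ En m c k₀ := by
          rw [d.En_succ k₀, ← hk₀n]
          have := En_nonneg m c (k₀ + 1)
          linarith
        have h3 : Real.exp (-2 * T) < En m c k₀ := hE7.trans_le h2
        have h4 : k₀ ≤ i := by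
          by_contra h5
          push Not at h5
          have h6 : En m c k₀ ≤ En m c (i + 1) := d.En_anti h5
          have h7 : Real.exp (-2 * v) ≤ Real.exp (-2 * T) := Real.exp_le_exp.mpr (by linarith)
          linarith
        have h5 : k₀ ≤ j := Nat.le_findGreatest h4 h3
        have h6 : (m k₀ : ℤ) ≤ m j := by exact_mod_cast d.hm.monotone h5
        omega
      · have : (0 : ℤ) ≤ m j := by positivity
        omega
    have hAj : Adm m c (1 / 4) v j (y + ε₀ / 8) := by
      intro k h1 h2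
      obtain ⟨h3, h4⟩ := hAdm k h1 (h2.trans hji)
      refine ⟨h3, ?_⟩
      have := hdeg k h1 h2
      rw [mul_add]
      linarith
    have h1 := d.caseS hy0 hy1 hv2 hji hAdm4 (Ds := ε₀ / 8) (T := T) (by linarith) (by linarith)
      hT0 (by linarith) hAj hEj hn₀j (N := N) (by omega) hc₀0 hc₀1 (by rw [hc₀]; linarith) (by
        refine lt_of_eq_of_lt ?_ hE8
        rw [mul_div_assoc' , div_eq_div_iff hv0.ne' hr.ne']
        have h2 : Real.sqrt v * rt v * rt v = v := by
          rw [mul_assoc, ← sq, rt_sq, Real.mul_self_sqrt hv0.le]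
        linear_combination 9 * h2)
    refine h1.trans (le_trans ?_ (hAv))
    rw [← hqS]
    have h2 := hN4 p hp1
    rw [one_mul] at h2
    refine le_trans ?_ h2
    have h3 : Real.exp (-(T / 2)) = Real.exp (-(1 / (4 * C4 L) * v)) := by
      congr 1
      rw [hT]
      field_simp
      norm_num
    have h4 : 16384 * (2 * Real.pi / kap qS) * (2 + Real.log v + (1 - Real.log c₀)) / T
        ≤ CS * (1 / rt v) := by
      have h5 : 16384 * (2 * Real.pi / kap qS) * (2 + Real.log v + (1 - Real.log c₀)) / T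
          = 16384 * (2 * Real.pi / kap qS) * (2 * C4 L)
            * ((2 + Real.log v + (1 - Real.log c₀)) / v) := by
        rw [hT]
        field_simp
      rw [h5, hCS, mul_assoc (16384 * (2 * Real.pi / kap qS) * (2 * C4 L)) _ (1 / rt v)]
      refine mul_le_mul_of_nonneg_left ?_ (by positivity)
      have h6 : 2 + Real.log v + (1 - Real.log c₀) ≤ (4 - Real.log c₀) * Real.sqrt v := by
        nlinarith
      calc (2 + Real.log v + (1 - Real.log c₀)) / v
          ≤ (4 - Real.log c₀) * Real.sqrt v / v := div_le_div_of_nonneg_right h6 hv0.le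
        _ = (4 - Real.log c₀) * (Real.sqrt v / v) := by ring
        _ ≤ _ := mul_le_mul_of_nonneg_left hsvv (by linarith)
    have h7 : 0 ≤ 2 * (Real.sqrt v * Real.exp (-(Real.sqrt v / 2))) := by positivity
    rw [h3]
    linarith
  · -- the main case
    obtain ⟨kT, Yt, hkT1, hkTj, hYt0, hYtε, hYteq, hYtle⟩ := d.minim (show 1 < v by linarith) hdeg
    have hYtaL : aL L η₀ * Yt ≤ 1 := by
      have h1 := mul_le_mul_of_nonneg_left hYtε.le (show 0 ≤ aL L η₀ by linarith)
      rw [hε₀] at h1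
      have h2 : aL L η₀ * (1 / aL L η₀) = 1 := by field_simp
      linarith
    have hηkT := d.eta_nonneg kT
    have hmkT : (0 : ℝ) < m kT := by exact_mod_cast d.m_pos hkT1
    have hyYt : y ≤ Yt / 8 := by
      obtain ⟨-, h4⟩ := hAdm kT hkT1 (hkTj.trans hji)
      rw [← hYteq] at h4
      have h5 : m kT * y ≤ m kT * (Yt / 8) := by linarith
      exact le_of_mul_le_mul_left h5 hmkT
    set D₂ : ℝ := a2 L η₀ * Yt with hD₂
    set D4 : ℝ := a4 L η₀ * Yt with hD4
    have hYtD₂ : Yt ≤ D₂ := by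
      rw [hD₂]
      exact le_mul_of_one_le_left hYt0.le ha2
    have hD₂D4 : D₂ ≤ D4 := mul_le_mul_of_nonneg_right ha24 hYt0.le
    have hD₂1 : D₂ ≤ 1 := by
      have : D₂ ≤ aL L η₀ * Yt := mul_le_mul_of_nonneg_right (by linarith) hYt0.le
      linarith
    have hD₂0 : 0 < D₂ := by linarith
    have hD4l : 256 * (L + 1) * D4 ≤ 1 := by
      have : 256 * (L + 1) * D4 = aL L η₀ * Yt := by rw [hD4, aL]; ring
      linarith
    have hD₂eq : D₂ = 4096 * (L + 1) * (Rp L η₀ * Yt) := by rw [hD₂, a2]; ring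
    have hD4eq : D4 = 32 * Rp L η₀ * D₂ := by rw [hD4, hD₂, a4]; ring
    -- the index `k6`
    have hex : ∃ k, 1 ≤ k ∧ 1 / 32 * (eta m c k + Real.log v) < m k * D₂ := by
      refine ⟨kT, hkT1, ?_⟩
      have h1 : m kT * D₂ = a2 L η₀ * (eta m c kT + Real.log v) := by
        rw [← hYteq, hD₂]
        ring
      rw [h1]
      have h2 : 0 < eta m c kT + Real.log v := by linarith
      nlinarith
    set k6 := Nat.find hex with hk6
    obtain ⟨hk61, hk62⟩ := Nat.find_spec hex
    rw [← hk6] at hk61 hk62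
    have hk6T : k6 ≤ kT := by
      refine Nat.find_min' hex ⟨hkT1, ?_⟩
      have h1 : m kT * D₂ = a2 L η₀ * (eta m c kT + Real.log v) := by
        rw [← hYteq, hD₂]
        ring
      rw [h1]
      have h2 : 0 < eta m c kT + Real.log v := by linarith
      nlinarith
    have hk6j : k6 ≤ j := hk6T.trans hkTj
    have hlow : ∀ k, 1 ≤ k → k ≤ k6 - 1 → m k * D₂ ≤ 1 / 32 * (eta m c k + Real.log v) := by
      intro k h1 h2
      by_contra h3
      push Not at h3
      exact Nat.find_min hex (show k < k6 by omega) ⟨h1, h3⟩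
    set j6 := k6 - 1 with hj6
    have hj6i : j6 ≤ i := by omega
    have hj6s : j6 + 1 = k6 := by omega
    have hEk6 : 0 < En m c k6 := (Real.exp_pos _).trans (hjT k6 hk61 hk6j)
    set T6 : ℝ := eta m c k6 with hT6
    have hE6 : En m c (j6 + 1) = Real.exp (-2 * T6) := by
      rw [hj6s, hT6, exp_eta hEk6]
    have hT6T : T6 < T := hηT k6 hk61 hk6j
    have hT60 : 0 ≤ T6 := d.eta_nonneg k6
    have hT6v : T6 ≤ v := by linarith
    have hAj6 : Adm m c (1 / 4) v j6 (y + D₂) := by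
      intro k h1 h2
      obtain ⟨h3, h4⟩ := hAdm k h1 (h2.trans hj6i)
      refine ⟨h3, ?_⟩
      have h5 := hlow k h1 h2
      have h6 := d.eta_nonneg k
      rw [mul_add]
      linarith
    -- the induction hypothesis
    have hIH6 : ∀ u, rt v ≤ u → u ≤ T6 →
        mu.real (Sm (gg m c j6 N (y + D₂ / 8)) u) ≤ A * u ^ (-p) := by
      intro u hu1 hu2
      refine hIH u hu1 (by linarith) j6 N (y + D₂ / 8) (by linarith) (by linarith) hNN ?_ ?_
      · intro k h1 h2
        refine ⟨(hAdm k h1 (h2.trans hj6i)).1, ?_⟩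
        have h5 := hlow k h1 h2
        have h6 := d.eta_nonneg k
        have h7 : Real.log v ≤ 4 * Real.log u := by
          have h8 : Real.log (rt v) ≤ Real.log u := Real.log_le_log hr hu1
          have h9 : Real.log v = 4 * Real.log (rt v) := by
            rw [← rt_pow hv0.le, Real.log_pow, rt_pow hv0.le]
            norm_num
          linarith
        have h8 : (0 : ℝ) ≤ m k := Nat.cast_nonneg _
        have h9 : m k * (y + D₂ / 8) ≤ m k * (D₂ / 4) := by
          refine mul_le_mul_of_nonneg_left ?_ h8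
          linarith
        have h10 : 0 ≤ Real.log u := Real.log_nonneg (by linarith)
        linarith
      · rw [hE6]
        exact Real.exp_le_exp.mpr (by linarith)
    by_cases hAB : τ₀ * v ≤ T6
    · -- case A
      have hT60' : 0 < T6 := lt_of_lt_of_le (by positivity) hAB
      have hD₂r : 4096 * ((L : ℝ) + 1) * (Rp L η₀ * Yt) = D₂ := hD₂eq.symm
      have h1 := d.caseA hy0 hB1 hE2 (N := N) hkT1 (hkTj.trans hji) hj6i hAdm4 (by
          have h2 := hjT kT hkT1 hkTj
          have h3 : 2 * Real.exp (-2 * v) ≤ Real.exp (-2 * T) := hexp2 (by linarith)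
          linarith) (by
          have h2 := hηT kT hkT1 hkTj
          have h3 := mul_le_mul_of_nonneg_left h2.le (show 0 ≤ C4 L by linarith)
          rw [mul_add]
          linarith) (Y := Rp L η₀ * Yt) (by positivity) (by
          rw [← hYteq]
          exact le_of_eq (by ring)) (by rw [hD₂r]; exact hD₂1) (by rw [hD₂r]; exact hAj6) hT60'
          hT6v hE6.le (A := A) (by linarith) (p := p) (by linarith) (by rw [hD₂r]; exact hIH6)
      exact A_close hτ₀0 hp0 hP1 hp1 hA hv1 hAB (hN1 p hp1) h1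
    · -- case B
      push Not at hAB
      have hTT6 : 1 / 2 ≤ T - T6 := by
        have h1 : T6 ≤ 1 / (4 * C4 L) * v :=
          hAB.le.trans (mul_le_mul_of_nonneg_right hτ₀1 hv0.le)
        have h2 : T - 1 / (4 * C4 L) * v = v / (4 * C4 L) := by
          rw [hT]
          field_simp
          norm_num
        have h3 : 1 / 2 ≤ v / (4 * C4 L) := by
          rw [div_le_div_iff₀ (by norm_num) (by positivity)]
          linarith
        linarith
      have hE : 2 * En m c (j + 1) ≤ En m c k6 := by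
        have h1 : En m c k6 = Real.exp (-2 * T6) := by rw [← hE6, hj6s]
        rw [h1]
        have h2 := hexp2 hTT6
        linarith
      have hAjs : Adm m c (1 / 4) v j (y + Yt / 8) := by
        intro k h1 h2
        obtain ⟨h3, h4⟩ := hAdm k h1 (h2.trans hji)
        refine ⟨h3, ?_⟩
        have := hYtle k h1 h2
        rw [mul_add]
        linarith
      have hDk : Rp L η₀ * (eta m c k6 + Real.log v) ≤ m k6 * D4 := by
        rw [hD4eq]
        have h1 := mul_le_mul_of_nonneg_left hk62.le (show 0 ≤ 32 * Rp L η₀ by linarith)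
        linarith
      have hqD : Real.pi * (256 * (L + 1) * D4) ≤ qB L η₀ * (Yt / 8 / 8) := by
        refine le_of_eq ?_
        rw [hD4, qB, aL]
        ring
      have hD40 : 0 < D4 := by linarith
      have hexpT2 : Real.exp (-(T / 2)) = Real.exp (-(1 / (4 * C4 L) * v)) := by
        congr 1
        rw [hT]
        field_simp
        norm_num
      -- the cap
      have hRB : RB m c L v T (qB L η₀) k6 ≤ c6 L η₀ * (max T6 (Real.sqrt v) / v) := by
        have h1 : RB m c L v T (qB L η₀) k6 = 16384 * (2 * Real.pi / kap (qB L η₀)) * (2 * C4 L)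
            * ((2 + Real.log v + C4 L * (T6 + Real.log v)) / v) := by
          rw [RB, ← hT6, hT]
          field_simp
        rw [h1, c6, mul_assoc (16384 * (2 * Real.pi / kap (qB L η₀)) * (2 * C4 L)) (C4 L + 1) _]
        refine mul_le_mul_of_nonneg_left ?_ (by positivity)
        rw [← mul_div_assoc]
        refine div_le_div_of_nonneg_right ?_ hv0.le
        have h2 := le_max_left T6 (Real.sqrt v)
        have h3 := le_max_right T6 (Real.sqrt v)
        have h4 : 2 + (1 + C4 L) * Real.log v ≤ max T6 (Real.sqrt v) := hE3.trans (hrs.trans h3)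
        have h5 := mul_le_mul_of_nonneg_left h2 (show 0 ≤ C4 L by linarith)
        have h6 : (C4 L + 1) * max T6 (Real.sqrt v)
            = C4 L * max T6 (Real.sqrt v) + max T6 (Real.sqrt v) := by ring
        have h7 : 2 + Real.log v + C4 L * (T6 + Real.log v)
            = C4 L * T6 + (2 + (1 + C4 L) * Real.log v) := by ring
        rw [h6, h7]
        exact add_le_add h5 h4
      have hRB0 : 0 ≤ RB m c L v T (qB L η₀) k6 := by
        rw [RB]
        have h1 : 0 ≤ eta m c k6 + Real.log v := by linarith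
        have h2 : 0 ≤ C4 L * (eta m c k6 + Real.log v) := mul_nonneg (by linarith) h1
        have h3 : 0 ≤ 2 + Real.log v + C4 L * (eta m c k6 + Real.log v) := by linarith
        positivity
      rcases le_or_gt T6 (Real.sqrt v) with hT6s | hT6s
      · -- case B1
        have h1 := d.caseB1 hy0 hB1 (N := N) hk61 hk6j hji hAdm4 (Ds := Yt / 8) (D4 := D4) (T := T)
          (q := qB L η₀) (by linarith) (by linarith) hT0 (by linarith) hAjs hE hEj hD40 hD4l hDk
          hqB hqD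
        rw [max_eq_right hT6s] at hRB
        refine h1.trans (le_trans ?_ hAv)
        have h2 := hN3 p hp1
        rw [one_mul] at h2
        refine le_trans ?_ h2
        have h3 : c6 L η₀ * (Real.sqrt v / v) ≤ c6 L η₀ * (1 / rt v) :=
          mul_le_mul_of_nonneg_left hsvv (by linarith)
        have h4 : 26 * ((L : ℝ) + 1) * (rt v / v) ≤ 26 * (L + 1) * (1 / rt v) :=
          mul_le_mul_of_nonneg_left hrv (by positivity)
        have h7 : 0 ≤ 2 * (Real.sqrt v * Real.exp (-(Real.sqrt v / 2))) := by positivity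
        rw [hexpT2]
        linarith
      · -- case B2
        rw [max_eq_left hT6s.le] at hRB
        have hT60' : 0 < T6 := by linarith
        have hRB1 : RB m c L v T (qB L η₀) k6 ≤ 1 := by
          refine hRB.trans ?_
          have h1 : T6 / v ≤ τ₀ := by
            rw [div_le_iff₀ hv0]
            exact hAB.le
          have h2 : τ₀ ≤ Real.sqrt τ₀ := le_sqrt_self hτ₀0.le hτ₀3
          calc c6 L η₀ * (T6 / v) ≤ c6 L η₀ * Real.sqrt τ₀ :=
                mul_le_mul_of_nonneg_left (h1.trans h2) (by linarith)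
            _ ≤ Real.sqrt τ₀ * (8 * kB L η₀ * c6 L η₀) := by
                have h4 : 0 ≤ Real.sqrt τ₀ * c6 L η₀ := by positivity
                have h5 : 1 ≤ 8 * kB L η₀ := by linarith
                calc c6 L η₀ * Real.sqrt τ₀ = Real.sqrt τ₀ * c6 L η₀ * 1 := by ring
                  _ ≤ Real.sqrt τ₀ * c6 L η₀ * (8 * kB L η₀) := mul_le_mul_of_nonneg_left h5 h4
                  _ = _ := by ring
            _ ≤ 1 := hτ₀2
        have hkBe : K2 D₂ (Yt / 8) = kB L η₀ := by
          rw [K2, hD₂, kB]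
          field_simp
        have h1 := d.caseB2 hy0 hB1 hE2 (N := N) hk61 hk6j hji hAdm4 (Ds := Yt / 8) (D4 := D4)
          (T := T) (q := qB L η₀) (by linarith) hT0 (by linarith) hAjs hE hEj hD40 hD4l hDk
          hqB hqD (D₂ := D₂) (by linarith) hD₂1 hj6i hAj6 hT60' hT6v hE6.le hRB1
          (A := A) (by linarith) (p := p) (by linarith) hIH6
        rw [hkBe] at h1
        have h2 := B_close (A := A) hτ₀0 hτ₀3 hp0 hp1 (by linarith) hv0 hT60' hAB.le hkB hc6 hτ₀2
          hRB0 hRB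
        have h3 := hN2 p hp1
        refine h1.trans ?_
        have h4 : rt v / T6 ≤ 1 / rt v := by
          rw [div_le_div_iff₀ hT60' hr, one_mul, ← sq, rt_sq]
          exact hT6s.le
        have h5 : 2 * kB L η₀ * (rt v / T6) ≤ 2 * kB L η₀ * (1 / rt v) :=
          mul_le_mul_of_nonneg_left h4 (by linarith)
        have h6 : 26 * ((L : ℝ) + 1) * (rt v / v) ≤ 26 * (L + 1) * (1 / rt v) :=
          mul_le_mul_of_nonneg_left hrv (by positivity)
        have h7 : Real.exp (-(T6 / 2)) ≤ Real.exp (-(Real.sqrt v / 2)) :=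
          Real.exp_le_exp.mpr (by linarith)
        have h8 := mul_le_mul_of_nonneg_left h7 (Real.sqrt_nonneg v)
        rw [hexpT2]
        clear hN1 hN2 hN3 hN4 hIH hIH6 hAj6 hlow hYtle hηT hjT hAdm hAdm4 hAjs
        linarith

end

end Pool.Agent.H197.HLQ
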