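import Pool.Agent.H197.HLQ.Norms

/-!
# The density bound for truncated dilations, and a layer cake estimate
-/

namespace Pool.Agent.H197.HLQ

noncomputable section

open MeasureTheory AddCircle Complex Set Filter Topology
open Pool.Agent.W767.HL

variable {L : ℕ} {m : ℕ → ℕ} {η₀ : ℝ} {c : ℤ → ℂ}

/-- The level constant. -/
def C4 (L : ℕ) : ℝ := 4 * (L + 1)

/-- The resolution constant. -/
def Rp (L : ℕ) (η₀ : ℝ) : ℝ := (C4 L + 3) / η₀

lemma C4_ge (L : ℕ) : 4 ≤ C4 L := by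
  unfold C4
  have : (0 : ℝ) ≤ L := Nat.cast_nonneg _
  linarith

/-- First list of conditions on a large parameter. -/
structure Big1 (L : ℕ) (v : ℝ) : Prop where
  h2 : 2 ≤ v
  h3 : 4 * (L + v) ≤ v ^ 2
  h4 : 1 ≤ Real.log v
  h5 : (L + 1) * (Real.log 2 + Real.log (L + 1) / 2 + Real.log (1 + L + v)) + Real.log 2
    ≤ 2 * (L + 1) * Real.log v
  h6 : 2 * rt v ≤ v

lemma gg_low (i N : ℕ) (y : ℝ) (n : ℤ) (hn : n < -(m i : ℤ)) : gg m c i N y n = 0 := by
  rw [gg_apply, if_neg (by omega)]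

lemma Dat.gg_spec (d : Dat L m η₀ c) (i N : ℕ) (y : ℝ) (j : ℕ) (hj : 1 ≤ j) (n : ℤ)
    (h1 : -(m j : ℤ) < n) (h2 : n < -(m (j - 1) : ℤ)) : gg m c i N y n = 0 := by
  rw [gg_apply]
  split_ifs
  · rw [d.hspec j hj n h1 h2, mul_zero]
  · rfl

/-- The density bound. -/
lemma Dat.D1 (d : Dat L m η₀ c) {v y : ℝ} (hy : 0 ≤ y) (hv : Big1 L v) {i N k : ℕ} (hk : 1 ≤ k)
    (hki : k ≤ i) (h : Adm m c (1 / 4) v i y) (hE : 2 * En m c (i + 1) ≤ En m c k) {D : ℝ}
    (hD : 0 < D) (hD1 : D ≤ 1) (hDk : Rp L η₀ * (eta m c k + Real.log v) ≤ m k * D) {θ : Ci}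
    (hθ : ∫ x, P ((Real.exp (-D) : ℝ) * ze θ) x * ‖ev (gg m c i N y) (ze x)‖ ∂mu ≤ v) :
    ∫ x in Sm (gg m c i N y) (C4 L * (eta m c k + Real.log v)),
      P ((Real.exp (-D) : ℝ) * ze θ) x ∂mu ≤ 1 - 1 / (2 * (L + 1)) := by
  have hv2 := hv.h2
  have hv4 := hv.h4
  have hη := d.eta_nonneg k
  have hC := C4_ge L
  have hL0 : (0 : ℝ) ≤ L := Nat.cast_nonneg _
  have hEk : 0 < En m c k := (h k hk hki).1
  refine dbound d.hL d.hm d.hgap d.hη₀ d.hη hk hki (gg_low i N y) (d.gg_spec i N y) hD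
    (norm_rze (Real.exp_pos _).le θ) (B := v) (by linarith) hθ
    ((d.gg_l1 (by linarith) hy h).trans hv.h6) ?_ ?_ (EE := En m c k / 2) (by linarith) ?_ ?_
  · have : 0 < eta m c k + Real.log v := by linarith
    positivity
  · have h1 : Real.log (4 * (L + v)) ≤ 2 * Real.log v := by
      have := Real.log_le_log (by positivity) hv.h3
      rw [Real.log_pow] at this
      exact_mod_cast this
    have h2 : (C4 L + 3) * (eta m c k + Real.log v) ≤ η₀ * m k * D := by
      have h3 := mul_le_mul_of_nonneg_left hDk d.hη₀.le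
      have h4 : η₀ * (Rp L η₀ * (eta m c k + Real.log v))
          = (C4 L + 3) * (eta m c k + Real.log v) := by
        unfold Rp
        have := d.hη₀
        field_simp
      rw [h4] at h3
      linarith
    nlinarith
  · have h1 : ∑ j ∈ Finset.Ioc (k - 1) i, ‖c (-(m j : ℤ))‖ ^ 2
        ≤ ∑ j ∈ Finset.Ioc (k - 1) i, ‖gg m c i N y (-(m j : ℤ))‖ ^ 2 := by
      refine Finset.sum_le_sum fun j hj => ?_
      rw [Finset.mem_Ioc] at hj
      have h2 : (m j : ℤ) ≤ m i := by exact_mod_cast d.hm.monotone hj.2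
      rw [gg_norm i N y (by omega)]
      refine le_mul_of_one_le_left (sq_nonneg _) (one_le_pow₀ (Real.one_le_exp ?_))
      push_cast
      have : 0 ≤ (m j : ℝ) * y := by positivity
      linarith
    rw [d.En_sum (by omega), Nat.sub_add_cancel hk] at h1
    linarith
  · have h1 : Real.log (En m c k / 2) = Real.log (En m c k) - Real.log 2 :=
      Real.log_div hEk.ne' two_ne_zero
    have h2 : -(Real.log (En m c k / 2) / 2) = eta m c k + Real.log 2 / 2 := by
      rw [h1, eta]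
      ring
    rw [h2]
    have h3 := hv.h5
    have h4 : 0 ≤ Real.log 2 := Real.log_nonneg one_le_two
    have h5 : eta m c k ≤ 2 * (L + 1) * eta m c k := by nlinarith
    unfold C4
    linarith

/-- A layer cake estimate. -/
lemma layer {Φ : Ci → ℝ} (hΦ : Integrable Φ mu) (h0 : ∀ θ, 0 ≤ Φ θ) {C₀ ε x₀ ρ B p : ℝ}
    (hC₀ : ∀ θ, Φ θ ≤ C₀) (hC : 0 ≤ C₀) (hε : 0 ≤ ε) (hx₀ : 0 ≤ x₀) (hρ : 0 ≤ ρ) (hB : 0 ≤ B)
    (hp1 : p < 1)
    (h1 : ∀ x, 0 < x → x₀ ≤ x → x < ρ → mu.real {θ | x < Φ θ} ≤ ε + B * x ^ (-p))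
    (h2 : ∀ x, 0 < x → ρ ≤ x → mu.real {θ | x < Φ θ} ≤ ε) :
    ∫ θ, Φ θ ∂mu ≤ C₀ * ε + x₀ + B * (ρ ^ (1 - p) / (1 - p)) := by
  rw [hΦ.integral_eq_integral_meas_lt (Filter.Eventually.of_forall h0)]
  set f1 : ℝ → ℝ := (Set.Ioc 0 C₀).indicator fun _ => ε with hf1
  set f2 : ℝ → ℝ := (Set.Ioc 0 x₀).indicator fun _ => 1 with hf2
  set f3 : ℝ → ℝ := (Set.Ioc 0 ρ).indicator fun x => B * x ^ (-p) with hf3
  have i1 : Integrable f1 (volume.restrict (Set.Ioi 0)) := by
    refine Integrable.restrict ?_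
    rw [hf1, integrable_indicator_iff measurableSet_Ioc]
    exact integrableOn_const (by simp)
  have i2 : Integrable f2 (volume.restrict (Set.Ioi 0)) := by
    refine Integrable.restrict ?_
    rw [hf2, integrable_indicator_iff measurableSet_Ioc]
    exact integrableOn_const (by simp)
  have hrp : IntegrableOn (fun x : ℝ => x ^ (-p)) (Set.Ioc 0 ρ) := by
    have := intervalIntegral.intervalIntegrable_rpow' (a := 0) (b := ρ) (r := -p) (by linarith)
    rwa [intervalIntegrable_iff_integrableOn_Ioc_of_le hρ] at this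
  have i3 : Integrable f3 (volume.restrict (Set.Ioi 0)) := by
    refine Integrable.restrict ?_
    rw [hf3, integrable_indicator_iff measurableSet_Ioc]
    exact hrp.const_mul B
  have hle : ∀ t ∈ Set.Ioi (0 : ℝ), mu.real {a | t < Φ a} ≤ f1 t + f2 t + f3 t := by
    intro t ht
    have ht0 : 0 < t := ht
    have g1 : 0 ≤ f1 t := Set.indicator_nonneg (fun _ _ => hε) _
    have g2 : 0 ≤ f2 t := Set.indicator_nonneg (fun _ _ => zero_le_one) _
    have g3 : 0 ≤ f3 t := Set.indicator_nonneg (fun x hx => mul_nonneg hB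
      (Real.rpow_nonneg hx.1.le _)) _
    rcases lt_or_ge C₀ t with h3 | h3
    · have : {a | t < Φ a} = ∅ := by
        ext a
        simp only [mem_ofPred_eq, mem_empty_iff_false, iff_false, not_lt]
        exact (hC₀ a).trans h3.le
      rw [this, measureReal_empty]
      linarith
    have e1 : f1 t = ε := Set.indicator_of_mem (show t ∈ Set.Ioc 0 C₀ from ⟨ht0, h3⟩) _
    rcases lt_or_ge t x₀ with h4 | h4
    · have e2 : f2 t = 1 := Set.indicator_of_mem (show t ∈ Set.Ioc 0 x₀ from ⟨ht0, h4.le⟩) _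
      have := mu_le_one {a | t < Φ a}
      linarith
    rcases lt_or_ge t ρ with h5 | h5
    · have e3 : f3 t = B * t ^ (-p) := Set.indicator_of_mem (show t ∈ Set.Ioc 0 ρ from
        ⟨ht0, h5.le⟩) _
      have := h1 t ht0 h4 h5
      linarith
    · have := h2 t ht0 h5
      linarith
  have hmono : ∫ t in Set.Ioi 0, mu.real {a | t < Φ a} ≤ ∫ t in Set.Ioi 0, f1 t + f2 t + f3 t := by
    refine integral_mono_of_nonneg (Filter.Eventually.of_forall fun t => measureReal_nonneg)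
      ((i1.add i2).add i3) ?_
    exact (ae_restrict_iff' measurableSet_Ioi).mpr (Filter.Eventually.of_forall hle)
  refine hmono.trans ?_
  have i12 : Integrable (fun t => f1 t + f2 t) (volume.restrict (Set.Ioi 0)) := i1.add i2
  rw [integral_add i12 i3, integral_add i1 i2]
  have s1 : ∀ b : ℝ, Set.Ioc 0 b ∩ Set.Ioi 0 = Set.Ioc 0 b := fun b =>
    Set.inter_eq_left.mpr fun x hx => hx.1
  have v1 : ∫ t in Set.Ioi 0, f1 t = C₀ * ε := by
    rw [hf1, integral_indicator measurableSet_Ioc, Measure.restrict_restrict measurableSet_Ioc,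
      s1, setIntegral_const, smul_eq_mul, Real.volume_real_Ioc_of_le hC, sub_zero]
  have v2 : ∫ t in Set.Ioi 0, f2 t = x₀ := by
    rw [hf2, integral_indicator measurableSet_Ioc, Measure.restrict_restrict measurableSet_Ioc,
      s1, setIntegral_const, smul_eq_mul, Real.volume_real_Ioc_of_le hx₀, sub_zero, mul_one]
  have v3 : ∫ t in Set.Ioi 0, f3 t = B * (ρ ^ (1 - p) / (1 - p)) := by
    rw [hf3, integral_indicator measurableSet_Ioc, Measure.restrict_restrict measurableSet_Ioc,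
      s1, integral_const_mul, ← intervalIntegral.integral_of_le hρ, integral_rpow (Or.inl (by linarith))]
    rw [Real.zero_rpow (by linarith), sub_zero, neg_add_eq_sub]
  rw [v1, v2, v3]

end

end Pool.Agent.H197.HLQ
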